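import Pool.Agent.R917.DT.Na
import Pool.Agent.R917.DT.Rig

set_option autoImplicit false
set_option linter.unusedSectionVars false
set_option linter.unusedVariables false

/-!
# The de Rham-Betti classes on determined abelian varieties are Hodge classes
-/

open Module Function TensorProduct Matrix

noncomputable section

namespace Pool.Agent.NH88.CM

open Pool.Agent.Y102 Pool.Agent.W516.DR Pool.Agent.H204R3.GP Pool.Agent.W516.KC
  Pool.Agent.H204R3.SP Pool.Agent.TH119.MX Pool.Agent.R917.OM Pool.Agent.Y102.AbVar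
  Pool.Agent.R917.EC Pool.Agent.R917.DT

variable {g : ℕ} {A : AbVar g}

/-- The Lie algebra of the de Rham-Betti classes is closed under replicas. -/
theorem LA_RC : RC A.LA := by
  intro X hX s hs σ Q hQ lam X' hX'
  rw [cmpE_aeval hX']
  intro m φ h1
  have h3 := hX m φ h1
  have hT : Polynomial.aeval (X.baseChange ℂ : Module.End ℂ (ℂ ⊗[ℚ] A.H1))
      (Lagrange.nodal s id) = 0 := by
    apply (LinearMap.toMatrixAlgEquiv (A.bas.baseChange ℂ)).injective
    rw [← Polynomial.aeval_algHom_apply, Pool.Agent.R917.DT.toMatrix_bc, map_zero]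
    rw [rm_eq, aeval_transpose] at hs
    exact Matrix.transpose_eq_zero.1 hs
  refine (kills_bcm_iff A.bas φ _).1 (kills_replica hT σ hQ ?_) lam
  rw [kills_bcm_iff]
  intro mu
  have h4 : Pool.Agent.W516.DR.cmpE mu (X.baseChange ℂ) = mu 1 • X := by
    refine LinearMap.ext fun w => ?_
    rw [Pool.Agent.W516.DR.cmpE_apply, LinearMap.baseChange_tmul, cmp_tmul]
    rfl
  rw [h4]
  exact A.LA.smul_mem (mu 1) hX m φ h1

theorem NA_le_LA (h : Det A) : A.NA ≤ A.LA := h _ A.full_LA LA_RC

/-- All de Rham-Betti classes on the powers are Hodge classes. -/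
theorem hodge_of_det (h : Det A) {m : ℕ}
    {ξ : MultilinearMap ℚ (fun _ : Fin m × Fin 2 => A.H1) ℚ}
    (hξ : IsDeRhamBettiForm QBar A.dR tau m ξ) :
    IsHodgeTensor (A.per : A.H1 →+ (Fin g → ℂ)) ξ :=
  hodge_of_kills _ A.isRationalStructure ξ fun Z hZ =>
    NA_le_LA h (A.MA_le_NA hZ) m ξ hξ

end Pool.Agent.NH88.CM

end
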