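import Pool.Agent.NH88.CM.GCen2
import Pool.Agent.NH88.CM.Hodge

set_option autoImplicit false
set_option linter.unusedSectionVars false
set_option linter.unusedVariables false

/-!
# The classes of codimension two decide
-/

open Module Function TensorProduct Matrix

noncomputable section

namespace Pool.Agent.NH88.CM

open Pool.Agent.Y102 Pool.Agent.W516.DR Pool.Agent.H204R3.GP
  Pool.Agent.H204R3.SP Pool.Agent.TH119.MX Pool.Agent.R917.OM Pool.Agent.Y102.AbVar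
  Pool.Agent.R917.EC Pool.Agent.R917.DT Pool.Agent.W516.KC2

/-- Four vectors. -/
def quad {W : Type} (u v w x : W) : Fin 2 × Fin 2 → W := fun p => ![![u, v], ![w, x]] p.1 p.2

section symm

variable {W : Type} [AddCommGroup W] [Module ℚ W] [FiniteDimensional ℚ W]
  (𝔥 : Submodule ℚ (Module.End ℚ W)) (hnt : TraceNondeg 𝔥) (ω : W →ₗ[ℚ] W →ₗ[ℚ] ℚ)

theorem casimir_quad (u v w x : W) : casimir 𝔥 hnt ω (quad u v w x) =
    ω (EE 𝔥 hnt ω u v w) x := by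
  rw [casimir_apply]
  rfl

variable (hanti : ∀ u v, ω u v = -ω v u) (hsk : ∀ X ∈ 𝔥, Pool.Agent.W516.KC.IsSkew ω X)

include hanti hsk in
theorem EE_symm (u v : W) : EE 𝔥 hnt ω u v = EE 𝔥 hnt ω v u := by
  refine ext_trace 𝔥 hnt (EE_mem ..) (EE_mem ..) fun X hX => ?_
  rw [EE_trace _ _ _ _ _ hX, EE_trace _ _ _ _ _ hX]
  have h1 := hsk X hX u v
  have h2 := hanti u (X v)
  linear_combination h1 - h2

theorem casimir_swap (u v w x : W) : casimir 𝔥 hnt ω (quad u v w x) =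
    casimir 𝔥 hnt ω (quad w x u v) := by
  rw [casimir_quad, casimir_quad, ← EE_trace 𝔥 hnt ω w x (EE_mem 𝔥 hnt ω u v),
    ← EE_trace 𝔥 hnt ω u v (EE_mem 𝔥 hnt ω w x), LinearMap.trace_mul_comm]

include hanti hsk in
theorem casimir_symm (u v w x : W) : casimir 𝔥 hnt ω (quad u v w x) =
    casimir 𝔥 hnt ω (quad v u w x) := by
  rw [casimir_quad, casimir_quad, EE_symm 𝔥 hnt ω hanti hsk]

end symm

variable {g : ℕ} {A : AbVar g}

/-- The de Rham-Betti classes in `Sym^2 (Sym^2 H^1(A)) (2)` are Hodge classes. -/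
def Two (A : AbVar g) : Prop :=
  ∀ φ : MultilinearMap ℚ (fun _ : Fin 2 × Fin 2 => A.H1) ℚ,
    (∀ u v w x, φ (quad u v w x) = φ (quad v u w x) ∧ φ (quad u v w x) = φ (quad w x u v)) →
    IsDeRhamBettiForm QBar A.dR tau 2 φ → IsHodgeTensor (A.per : A.H1 →+ (Fin g → ℂ)) φ

/-- The subalgebras which contain the logarithmic derivatives of the periods contain the derived
algebra, if the classes in `Sym^2 (Sym^2 H^1(A)) (2)` are Hodge classes. -/
theorem der_le_of_two (h4 : Two A) {𝔥 : Submodule ℚ (Module.End ℚ A.H1)} (hle : 𝔥 ≤ A.NA)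
    (hbr : ∀ X ∈ 𝔥, ∀ Y ∈ 𝔥, X * Y - Y * X ∈ 𝔥)
    (h0 : ∀ (D : Derivation QBar ℂ ℂ) (lam : ℂ →ₗ[ℚ] ℚ), X0 A.basis tau D lam ∈ 𝔥) :
    der A.NA ≤ 𝔥 := by
  have hF : A.Full 𝔥 := Pool.Agent.R917.full_of_X0 A hle hbr h0
  have hanti : ∀ u v, A.om u v = -A.om v u := A.om_anti
  have hdrb : IsDeRhamBettiForm QBar A.dR tau 2 (casimir 𝔥 hF.trace A.om) := by
    have h1 : IsDeRhamBettiForm QBar (A.basis : Fin g ⊕ Fin g → (A.H1 →ₗ[ℚ] ℂ)) tau 2
        (casimir 𝔥 hF.trace A.om) := by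
      refine (drb_iff A.basis tau_ne (Module.finBasis ℚ A.H1) _).2 fun D lam => ?_
      exact casimir_kills 𝔥 hF.trace A.om (A.NA_skew (hle (h0 D lam)))
        fun X hX => hbr _ (h0 D lam) _ hX
    rwa [coe_basis] at h1
  have hhodge := h4 _ (fun u v w x => ⟨casimir_symm 𝔥 hF.trace A.om hanti
    (fun X hX => A.NA_skew (hle hX)) u v w x, casimir_swap 𝔥 hF.trace A.om u v w x⟩) hdrb
  have key : ∀ Z ∈ A.NA, ∃ Y ∈ 𝔥, ∀ X ∈ A.NA, X * (Z - Y) = (Z - Y) * X := by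
    intro Z hZ
    obtain ⟨Y, hY, h1⟩ := mem_of_kills_casimir 𝔥 hF.trace A.om hbr
      (fun u hu => A.om_nondeg hu) (A.NA_skew hZ) (hZ 2 _ hhodge hdrb)
    exact ⟨Y, hY, hF.comm _ h1⟩
  unfold der
  rw [Submodule.span_le]
  rintro _ ⟨X, hX, Y, hY, rfl⟩
  obtain ⟨X', hX', hP⟩ := key X hX
  obtain ⟨Y', hY', hQ⟩ := key Y hY
  have e1 := hQ X hX
  have e2 := hP Y' (hle hY')
  have e4 : X * Y - Y * X = X' * Y' - Y' * X' := by
    have e5 : X * (Y - Y') - (Y - Y') * X = 0 := sub_eq_zero.2 e1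
    have e6 : Y' * (X - X') - (X - X') * Y' = 0 := sub_eq_zero.2 e2
    have e7 : X * Y - Y * X - (X' * Y' - Y' * X') =
        (X * (Y - Y') - (Y - Y') * X) - (Y' * (X - X') - (X - X') * Y') := by
      simp only [mul_sub, sub_mul]
      abel
    rw [e5, e6, sub_zero] at e7
    exact sub_eq_zero.1 e7
  rw [e4]
  exact hbr X' hX' Y' hY'

/-- All subalgebras which contain the logarithmic derivatives of the periods and are closed under
replicas are equal to the Lie algebra of the Hodge group. -/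
def DetX (A : AbVar g) : Prop := ∀ 𝔥 : Submodule ℚ (Module.End ℚ A.H1), 𝔥 ≤ A.NA →
  (∀ X ∈ 𝔥, ∀ Y ∈ 𝔥, X * Y - Y * X ∈ 𝔥) →
  (∀ (D : Derivation QBar ℂ ℂ) (lam : ℂ →ₗ[ℚ] ℚ), X0 A.basis tau D lam ∈ 𝔥) → RC 𝔥 → A.NA ≤ 𝔥

theorem detX_of_two {E : Type} [Field E] [NumberField E] {c : E ≃+* E}
    {lam : Module.End ℚ A.H1 →ₗ[ℚ] E} {v : Finset (E →+* ℂ) → (Fin (2 * g) → ℂ)}
    (h4 : Two A) (hC : G.CenD A c lam v) : DetX A := fun 𝔥 hle hbr h0 hRC =>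
  hC.le_of_der (Pool.Agent.R917.full_of_X0 A hle hbr h0) hRC (der_le_of_two h4 hle hbr h0)

theorem detX_of_det (h : Det A) : DetX A := fun 𝔥 hle hbr h0 hRC =>
  h 𝔥 (Pool.Agent.R917.full_of_X0 A hle hbr h0) hRC

/-- All de Rham-Betti classes are Hodge classes. -/
theorem hodge_of_detX (h : DetX A) {m : ℕ}
    {ξ : MultilinearMap ℚ (fun _ : Fin m × Fin 2 => A.H1) ℚ}
    (hξ : IsDeRhamBettiForm QBar A.dR tau m ξ) :
    IsHodgeTensor (A.per : A.H1 →+ (Fin g → ℂ)) ξ := by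
  have h1 : A.NA ≤ A.LA := h A.LA A.LA_le_NA (fun X hX Y hY => A.LA_bracket hX hY)
    (fun D lam => by
      rw [AbVar.LA_eq]
      exact X0_mem A.basis AbVar.tau_ne D lam) LA_RC
  exact hodge_of_kills _ A.isRationalStructure ξ fun Z hZ => h1 (A.MA_le_NA hZ) m ξ hξ

/-- **Factors.** -/
theorem detJ_of_detX {g' : ℕ} {A : AbVar g} {B : AbVar g'} {f : A.H1 →ₗ[ℚ] B.H1}
    {p : B.H1 →ₗ[ℚ] A.H1} (h : Fac A B f p) (hB : DetX B) : DetJ A := by
  intro 𝔥 hle hbr h0 hRC r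
  have h1 := hB (Fac.qq f p 𝔥) (fun X hX => hX.1) (fun X hX Y hY => ⟨B.NA_bracket hX.1 hY.1, by
      change rs f p (X * Y - Y * X) ∈ 𝔥
      rw [map_sub, h.rs_mul hY.1, h.rs_mul hX.1]
      exact hbr _ hX.2 _ hY.2⟩)
    (fun D lam => ⟨B.LA_le_NA (by
      rw [AbVar.LA_eq]
      exact X0_mem B.basis AbVar.tau_ne D lam), by
      change rs f p (X0 B.basis tau D lam) ∈ 𝔥
      rw [h.rs_X0]
      exact h0 D lam⟩) (h.qq_RC hRC) (B.MA_le_NA (B.J_mem r))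
  have h2 : rs f p (B.cmpE r AbVar.JJ) ∈ 𝔥 := h1.2
  rwa [h.rs_J] at h2

/-- Abelian varieties without factors of type IV. -/
theorem perfect_of_noTypeIV (h : ∀ P ∈ A.EA, (∀ Q ∈ A.EA, P * Q = Q * P) →
    Pool.Agent.W516.KC.IsSkew A.om P → P = 0) : A.NA ≤ der A.NA := by
  intro X hX
  obtain ⟨Z, hZ, d, hd, h1, h2⟩ := (Pool.Agent.R917.DT.full_NA (A := A)).dec hX
  have hZE : Z ∈ A.EA := fun Y hY => (h2 Y (A.LA_le_NA hY)).symm
  have h3 := h Z hZE (fun Q hQ => A.NA_comm hZ hQ) (A.NA_skew hZ)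
  rw [h1, h3, zero_add]
  exact hd

end Pool.Agent.NH88.CM

end
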