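import Pool.Agent.NH88.CM.Dt
import Pool.Agent.NH88.CM.Two

set_option autoImplicit false
set_option linter.unusedSectionVars false
set_option linter.unusedVariables false

/-!
# If all de Rham-Betti classes are Hodge classes then the Lie algebra of the Hodge group is determined
-/

open Module Function TensorProduct Matrix

noncomputable section

namespace Pool.Agent.NH88.CM

open Pool.Agent.Y102 Pool.Agent.W516.DR Pool.Agent.H204R3.GP
  Pool.Agent.H204R3.SP Pool.Agent.TH119.MX Pool.Agent.R917.OM Pool.Agent.Y102.AbVar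
  Pool.Agent.R917.EC Pool.Agent.R917.DT

/-! ### Rational components -/

/-- Sums of products which vanish in all rational components. -/
theorem sum_mul_eq_zero {S : Type} [Fintype S] {c y : S → ℂ}
    (h : ∀ κ : ℂ →ₗ[ℚ] ℚ, ∑ a, ((κ (c a) : ℚ) : ℂ) * y a = 0) : ∑ a, c a * y a = 0 := by
  classical
  let b := Basis.ofVectorSpace ℚ ℂ
  let s : Finset (Basis.ofVectorSpaceIndex ℚ ℂ) :=
    Finset.univ.biUnion fun a : S => (b.repr (c a)).support
  have h1 : ∀ a, c a = ∑ i ∈ s, ((b.repr (c a) i : ℚ) : ℂ) * b i := by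
    intro a
    conv_lhs => rw [← b.linearCombination_repr (c a), Finsupp.linearCombination_apply,
      Finsupp.sum_of_support_subset _ (Finset.subset_biUnion_of_mem
        (fun a : S => (b.repr (c a)).support) (Finset.mem_univ a)) _ (fun i _ => zero_smul ℚ (b i))]
    refine Finset.sum_congr rfl fun i _ => ?_
    rw [Algebra.smul_def]
    rfl
  calc ∑ a, c a * y a = ∑ a, ∑ i ∈ s, b i * (((b.coord i (c a) : ℚ) : ℂ) * y a) := by
        refine Finset.sum_congr rfl fun a _ => ?_
        conv_lhs => rw [h1 a, Finset.sum_mul]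
        refine Finset.sum_congr rfl fun i _ => ?_
        rw [Basis.coord_apply]
        ring
    _ = ∑ i ∈ s, b i * ∑ a, ((b.coord i (c a) : ℚ) : ℂ) * y a := by
        rw [Finset.sum_comm]
        simp only [Finset.mul_sum]
    _ = 0 := Finset.sum_eq_zero fun i _ => by rw [h, mul_zero]

/-- Relations which are preserved by all additive maps are rational. -/
theorem sum_coord_eq_zero {S : Type} [Fintype S] {c t : S → ℂ}
    (h : ∀ σ : ℂ →+ ℂ, ∑ a, σ (t a) * c a = 0) (κ : ℂ →ₗ[ℚ] ℚ) :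
    ∑ a, ((κ (c a) : ℚ) : ℂ) * t a = 0 := by
  rw [← Module.forall_dual_apply_eq_zero_iff ℚ]
  intro μ
  have h2 := h ((algebraMap ℚ ℂ).toAddMonoidHom.comp μ.toAddMonoidHom)
  have h3 := congrArg κ h2
  rw [map_sum, map_zero] at h3
  rw [map_sum, ← h3]
  refine Finset.sum_congr rfl fun s _ => ?_
  have e1 : ((κ (c s) : ℚ) : ℂ) * t s = κ (c s) • t s := by
    rw [Algebra.smul_def]
    rfl
  have e2 : ((algebraMap ℚ ℂ).toAddMonoidHom.comp μ.toAddMonoidHom) (t s) * c s =
      μ (t s) • c s := by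
    rw [Algebra.smul_def]
    rfl
  rw [e1, e2, map_smul, map_smul, smul_eq_mul, smul_eq_mul, mul_comm]

/-- Integral multiples. -/
theorem exists_int {S : Type} [Fintype S] (q : S → ℚ) :
    ∃ (N : ℕ) (z : S → ℤ), 0 < N ∧ ∀ a, (z a : ℚ) = N * q a := by
  classical
  refine ⟨∏ a, (q a).den, fun a => (∏ b ∈ Finset.univ.erase a, ((q b).den : ℤ)) * (q a).num,
    Finset.prod_pos fun a _ => (q a).den_pos, fun a => ?_⟩
  rw [← Finset.mul_prod_erase Finset.univ (fun a => (q a).den) (Finset.mem_univ a)]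
  push_cast
  have h1 : (q a) * ((q a).den : ℚ) = (q a).num := Rat.mul_den_eq_num (q a)
  rw [← h1]
  ring

/-- Skew endomorphisms have the trace zero. -/
theorem trace_skew {W : Type} [AddCommGroup W] [Module ℚ W] [FiniteDimensional ℚ W]
    {ω : W →ₗ[ℚ] W →ₗ[ℚ] ℚ} (hω : ∀ u, (∀ v, ω u v = 0) → u = 0) {X : Module.End ℚ W}
    (hX : Pool.Agent.W516.KC.IsSkew ω X) : LinearMap.trace ℚ W X = 0 := by
  have hinj : Function.Injective ω := by
    rw [injective_iff_map_eq_zero]
    intro u hu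
    exact hω u fun v => by rw [hu]; rfl
  let e : W ≃ₗ[ℚ] Module.Dual ℚ W :=
    LinearEquiv.ofInjectiveOfFinrankEq ω hinj (Subspace.dual_finrank_eq).symm
  have he : ∀ u, e u = ω u := fun u => rfl
  have h1 : Module.Dual.transpose (R := ℚ) X = -e.conj X := by
    refine LinearMap.ext fun f => ?_
    obtain ⟨u, rfl⟩ := e.surjective f
    refine LinearMap.ext fun v => ?_
    rw [LinearMap.neg_apply, LinearEquiv.conj_apply_apply, LinearEquiv.symm_apply_apply, he]
    change ω u (X v) = -(ω (X u) v)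
    have h2 := hX u v
    linear_combination h2
  have h2 := LinearMap.trace_transpose' (R := ℚ) (M := W) X
  rw [h1, map_neg, LinearMap.trace_conj'] at h2
  linarith


/-! ### Matrices -/

/-- The complex matrix, a linear map. -/
def toCL (n : ℕ) : Module.End ℚ (Fin n → ℚ) →ₗ[ℚ] Matrix (Fin n) (Fin n) ℂ where
  toFun := toC
  map_add' a b := by
    ext i j
    simp [toC]
  map_smul' q a := by
    ext i j
    change ((q * (a (Pi.single j 1) i) : ℚ) : ℂ) = q • ((a (Pi.single j 1) i : ℚ) : ℂ)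
    rw [Rat.cast_mul, Algebra.smul_def]
    rfl

theorem toCL_apply {n : ℕ} (X : Module.End ℚ (Fin n → ℚ)) : toCL n X = toC X := rfl

theorem trace_toC {n : ℕ} (X : Module.End ℚ (Fin n → ℚ)) :
    (toC X).trace = ((LinearMap.trace ℚ _ X : ℚ) : ℂ) := by
  rw [toC_eq, LinearMap.trace_eq_matrix_trace ℚ (Pi.basisFun ℚ (Fin n)) X,
    LinearMap.toMatrix_eq_toMatrix']
  unfold Matrix.trace
  rw [Rat.cast_sum]
  rfl

theorem cst_apply_mulVec {n : ℕ} (X : Module.End ℚ (Fin n → ℚ)) (w : Fin n → ℚ) :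
    T.cst n (X w) = toC X *ᵥ T.cst n w := by
  funext i
  change ((X w i : ℚ) : ℂ) = ∑ j, toC X i j * (w j : ℂ)
  have h1 : X w i = ∑ j, X (Pi.single j 1) i * w j := by
    conv_lhs => rw [← LinearMap.toMatrix'_mulVec X w]
    change ∑ j, LinearMap.toMatrix' X i j * w j = _
    refine Finset.sum_congr rfl fun j _ => ?_
    rw [LinearMap.toMatrix'_apply]
  rw [h1]
  push_cast
  rfl

section decomposition

variable {g : ℕ} {A : AbVar g}

/-- The joint eigenspaces of the centre. -/
theorem exists_proj (A : AbVar g) : ∃ (S : Type) (_ : Fintype S)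
    (P : S → Matrix (Fin (2 * g)) (Fin (2 * g)) ℂ), (∀ a, P a * P a = P a) ∧ ∑ a, P a = 1 ∧
      (∀ a, ∀ Y ∈ A.NA, P a * toC Y = toC Y * P a) ∧
      ∀ Z ∈ A.CN, ∀ a, ∃ t : ℂ, toC Z * P a = t • P a := by
  classical
  have : Module.Free ℚ A.CN := Module.Free.of_divisionRing ℚ A.CN
  have : Module.Finite ℚ A.CN := FiniteDimensional.finiteDimensional_submodule A.CN
  let b := Module.finBasis ℚ A.CN
  obtain ⟨S, hS, P, h1, h2, h3, h4⟩ := T.exists_joint
    (List.ofFn fun i => toC (b i : Module.End ℚ A.H1)) (by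
      intro z hz
      obtain ⟨i, rfl⟩ := List.mem_ofFn.1 hz
      obtain ⟨s, _, hs⟩ := imag_roots (b i).2.1 (fun Y hY => ((b i).2.2 Y hY).symm)
      refine ⟨s, ?_⟩
      rw [rm_eq, aeval_transpose] at hs
      exact Matrix.transpose_eq_zero.1 hs) (by
      intro z hz w hw
      obtain ⟨i, rfl⟩ := List.mem_ofFn.1 hz
      obtain ⟨j, rfl⟩ := List.mem_ofFn.1 hw
      rw [← Pool.Agent.R917.toC_mul, ← Pool.Agent.R917.toC_mul, (b i).2.2 _ (b j).2.1])
  refine ⟨S, hS, P, h1, h2, fun a Y hY => h3 a _ fun z hz => ?_, fun Z hZ a => ?_⟩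
  · obtain ⟨i, rfl⟩ := List.mem_ofFn.1 hz
    rw [← Pool.Agent.R917.toC_mul, ← Pool.Agent.R917.toC_mul, (b i).2.2 _ hY]
  · have h5 : ∀ i, ∃ t : ℂ, toC (b i : Module.End ℚ A.H1) * P a = t • P a := fun i =>
      h4 _ (List.mem_ofFn.2 ⟨i, rfl⟩) a
    choose t ht using h5
    have h6 : Z = ∑ i, (b.repr ⟨Z, hZ⟩ i) • (b i : Module.End ℚ A.H1) := by
      have h7 := congrArg Subtype.val (b.sum_repr ⟨Z, hZ⟩)
      rw [Submodule.coe_sum] at h7
      exact h7.symm
    refine ⟨∑ i, ((b.repr ⟨Z, hZ⟩ i : ℚ) : ℂ) * t i, ?_⟩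
    conv_lhs => rw [h6, ← toCL_apply, map_sum, Finset.sum_mul]
    rw [Finset.sum_smul]
    refine Finset.sum_congr rfl fun i _ => ?_
    rw [map_smul, toCL_apply, smul_mul_assoc, ht, mul_smul]
    ext k l
    simp only [Matrix.smul_apply, smul_eq_mul]
    rw [Algebra.smul_def]
    rfl

end decomposition


section relations

variable {g : ℕ} {A : AbVar g} {𝔥 : Submodule ℚ (Module.End ℚ A.H1)} {S : Type} [Fintype S]
  {P : S → Matrix (Fin (2 * g)) (Fin (2 * g)) ℂ}

/-- Replicas of an element with given eigenvalues. -/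
theorem replica (hRC : RC 𝔥) (hP : ∑ a, P a = 1) {x : Module.End ℚ A.H1} (hx : x ∈ 𝔥)
    {t : S → ℂ} (ht : ∀ a, toC x * P a = t a • P a) (σ : ℂ →+ ℂ) :
    ∑ a, σ (t a) • P a ∈ Submodule.span ℂ {Y | ∃ Z ∈ 𝔥, Y = toC Z} := by
  classical
  let s : Finset ℂ := Finset.univ.image t
  obtain ⟨Q, hQ⟩ : ∃ Q : Polynomial ℂ, ∀ a ∈ s, Q.eval a = σ a :=
    ⟨Lagrange.interpolate s id (fun x => σ x), fun x hx =>
      Lagrange.eval_interpolate_at_node (fun x => σ x) (Function.injective_id.injOn) hx⟩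
  have key : ∀ q : Polynomial ℂ, Polynomial.aeval (toC x) q = ∑ a, q.eval (t a) • P a := by
    intro q
    conv_lhs => rw [← mul_one (Polynomial.aeval (toC x) q), ← hP, Finset.mul_sum]
    exact Finset.sum_congr rfl fun a _ => aeval_mul_eig' (ht a) q
  have h1 := rc_iff.1 hRC x hx s σ Q (by
    rw [key]
    refine Finset.sum_eq_zero fun a _ => ?_
    rw [Polynomial.eval_prod, Finset.prod_eq_zero (Finset.mem_image_of_mem t (Finset.mem_univ a)),
      zero_smul]
    simp) hQ
  rw [key] at h1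
  have h2 : ∑ a, Q.eval (t a) • P a = ∑ a, σ (t a) • P a := Finset.sum_congr rfl fun a _ => by
    rw [hQ _ (Finset.mem_image_of_mem t (Finset.mem_univ a))]
  rwa [h2] at h1

/-- The traces of the elements of the derived algebra on the isotypic components are zero. -/
theorem trace_der (h3 : ∀ a, ∀ Y ∈ A.NA, P a * toC Y = toC Y * P a) (a : S)
    {e : Module.End ℚ A.H1} (he : e ∈ der A.NA) : (toC e * P a).trace = 0 := by
  unfold der at he
  induction he using Submodule.span_induction with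
  | mem e he =>
    obtain ⟨X, hX, Y, hY, rfl⟩ := he
    have h5 : toC (X * Y - Y * X) = toC X * toC Y - toC Y * toC X := by
      rw [← Pool.Agent.R917.toC_mul, ← Pool.Agent.R917.toC_mul]
      exact map_sub (toCL (2 * g)) _ _
    rw [h5, sub_mul, Matrix.trace_sub, mul_assoc, ← h3 a Y hY, ← mul_assoc, Matrix.trace_mul_comm,
      ← mul_assoc, sub_self]
  | zero =>
    have h5 : toC (0 : Module.End ℚ A.H1) = 0 := map_zero (toCL (2 * g))
    rw [h5, zero_mul, Matrix.trace_zero]
  | add a b _ _ ha hb =>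
    have h5 : toC (a + b) = toC a + toC b := map_add (toCL (2 * g)) _ _
    rw [h5, add_mul, Matrix.trace_add, ha, hb, add_zero]
  | smul q a _ ha =>
    have h5 : toC (q • a) = q • toC a := map_smul (toCL (2 * g)) _ _
    rw [h5, smul_mul_assoc, Matrix.trace_smul, ha, smul_zero]

/-- If the centre is not in the subalgebra, then there is a rational combination of the traces on the
isotypic components which vanishes on the subalgebra and not on the centre. -/
theorem exists_rel (hF : A.Full 𝔥) (hRC : RC 𝔥) (h1 : ∀ a, P a * P a = P a) (h2 : ∑ a, P a = 1)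
    (h3 : ∀ a, ∀ Y ∈ A.NA, P a * toC Y = toC Y * P a)
    (h4 : ∀ Z ∈ A.CN, ∀ a, ∃ t : ℂ, toC Z * P a = t • P a)
    {Z₀ : Module.End ℚ A.H1} (hZ₀ : Z₀ ∈ A.CN) (hcon : Z₀ ∉ 𝔥) :
    ∃ q : S → ℚ, (∀ X ∈ 𝔥, ∑ a, (q a : ℂ) * (toC X * P a).trace = 0) ∧
      ∑ a, (q a : ℂ) * (toC Z₀ * P a).trace ≠ 0 := by
  classical
  choose d R C hRC' hCR using fun a => T.exists_fact (P a) (h1 a)
  have htr : ∀ a, (P a).trace = (d a : ℂ) := by
    intro a
    rw [← hCR, Matrix.trace_mul_comm, hRC', Matrix.trace_one, Fintype.card_fin]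
  have hd0 : ∀ a, d a = 0 → P a = 0 := by
    intro a ha
    rw [← hCR]
    ext i j
    rw [Matrix.mul_apply, Matrix.zero_apply]
    refine Finset.sum_eq_zero fun k _ => ?_
    exact absurd k.2 (by omega)
  -- a linear form
  have hnot : toC Z₀ ∉ Submodule.span ℂ {Y | ∃ Z ∈ 𝔥, Y = toC Z} := by
    intro h5
    refine hcon (mem_of_bc ?_)
    have h6 := Submodule.mem_map_of_mem (f := (matE (2 * g)).toLinearMap) h5
    rw [map_lie] at h6
    change matE (2 * g) (toC Z₀) ∈ cx 𝔥 at h6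
    rwa [matE_toC] at h6
  obtain ⟨ℓ, hℓ1, hℓ2⟩ := Submodule.exists_le_ker_of_notMem hnot
  have hexp : ∀ {x : Module.End ℚ A.H1} {t : S → ℂ}, (∀ a, toC x * P a = t a • P a) →
      toC x = ∑ a, t a • P a := by
    intro x t ht
    conv_lhs => rw [← mul_one (toC x), ← h2, Finset.mul_sum]
    exact Finset.sum_congr rfl fun a _ => ht a
  choose t₀ ht₀ using h4 Z₀ hZ₀
  have h5 : ℓ (toC Z₀) = ∑ a, ℓ (P a) * t₀ a := by
    rw [hexp ht₀, map_sum]
    refine Finset.sum_congr rfl fun a _ => ?_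
    rw [map_smul, smul_eq_mul, mul_comm]
  obtain ⟨κ, hκ⟩ : ∃ κ : ℂ →ₗ[ℚ] ℚ, ∑ a, ((κ (ℓ (P a)) : ℚ) : ℂ) * t₀ a ≠ 0 := by
    by_contra hc
    push Not at hc
    exact hℓ1 (h5.trans (sum_mul_eq_zero hc))
  -- the traces of central elements
  have hq : ∀ {x : Module.End ℚ A.H1} {t : S → ℂ}, (∀ a, toC x * P a = t a • P a) →
      ∑ a, ((κ (ℓ (P a)) / (d a : ℚ) : ℚ) : ℂ) * (toC x * P a).trace =
        ∑ a, ((κ (ℓ (P a)) : ℚ) : ℂ) * t a := by
    intro x t ht
    refine Finset.sum_congr rfl fun a _ => ?_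
    rw [ht, Matrix.trace_smul, htr, smul_eq_mul]
    by_cases ha : d a = 0
    · rw [hd0 a ha, map_zero, map_zero]
      simp
    · have hda : (d a : ℂ) ≠ 0 := Nat.cast_ne_zero.2 ha
      push_cast
      field_simp
  refine ⟨fun a => κ (ℓ (P a)) / (d a : ℚ), fun X hX => ?_, ?_⟩
  · obtain ⟨Z, hZ, e, he, e2, e3⟩ := hF.dec hX
    have hZc : Z ∈ A.CN := ⟨hF.le hZ, fun Y hY => (hF.comm Z (fun W hW => (e3 W hW).symm) Y hY)⟩
    have hde : e ∈ der A.NA := by
      have h6 : der 𝔥 ≤ der A.NA := by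
        unfold der
        refine Submodule.span_mono ?_
        rintro _ ⟨X, hX, Y, hY, rfl⟩
        exact ⟨X, hF.le hX, Y, hF.le hY, rfl⟩
      exact h6 he
    choose t ht using h4 Z hZc
    have h6 : ∀ a, (toC X * P a).trace = (toC Z * P a).trace := by
      intro a
      have h7 : toC X = toC Z + toC e := by
        rw [e2]
        exact map_add (toCL (2 * g)) _ _
      rw [h7, add_mul, Matrix.trace_add, trace_der h3 a hde, add_zero]
    simp only [h6]
    rw [hq ht]
    refine sum_coord_eq_zero (fun σ => ?_) κ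
    have h7 : ℓ (∑ a, σ (t a) • P a) = 0 := hℓ2 (replica hRC h2 hZ ht σ)
    rw [map_sum] at h7
    rw [← h7]
    refine Finset.sum_congr rfl fun a _ => ?_
    rw [map_smul, smul_eq_mul]
  · rw [hq ht₀]
    exact hκ

end relations


section main

variable {g : ℕ} {A : AbVar g} {𝔥 : Submodule ℚ (Module.End ℚ A.H1)}

/-- All de Rham-Betti classes are Hodge classes. -/
def AllH (A : AbVar g) : Prop :=
  ∀ (m : ℕ) (φ : MultilinearMap ℚ (fun _ : Fin m × Fin 2 => A.H1) ℚ),
    IsDeRhamBettiForm QBar A.dR tau m φ → IsHodgeTensor (A.per : A.H1 →+ (Fin g → ℂ)) φ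

theorem AllH.two (h : AllH A) : Two A := fun φ _ h2 => h 2 φ h2

/-- The indices. -/
def eqvB {B₀ : Type} (d : B₀ → ℕ) :
    (Σ b : B₀ × Fin 2, Fin (d b.1)) ≃ (Σ b : B₀, Fin (d b)) × Fin 2 where
  toFun i := (⟨i.1.1, i.2⟩, i.1.2)
  invFun i := ⟨(i.1.1, i.2), i.1.2⟩
  left_inv _ := rfl
  right_inv _ := rfl

/-- The centre is in the subalgebra. -/
theorem centre_le (h : AllH A) (hF : A.Full 𝔥) (hRC : RC 𝔥)
    (h0 : ∀ (D : Derivation QBar ℂ ℂ) (lam : ℂ →ₗ[ℚ] ℚ), X0 A.basis tau D lam ∈ 𝔥) :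
    A.CN ≤ 𝔥 := by
  classical
  intro Z₀ hZ₀
  by_contra hcon
  obtain ⟨S, _, P, h1, h2, h3, h4⟩ := exists_proj A
  obtain ⟨q, hq1, hq2⟩ := exists_rel hF hRC h1 h2 h3 h4 hZ₀ hcon
  obtain ⟨N, z, hN, hz⟩ := exists_int q
  choose d R C hRC' hCR using fun a => T.exists_fact (P a) (h1 a)
  let K : ℕ := ∑ a, (z a).natAbs
  let k : S → ℕ := fun a => (z a + K).toNat
  have hk : ∀ a, ((k a : ℕ) : ℤ) = z a + K := by
    intro a
    refine Int.toNat_of_nonneg ?_
    have h5 : (z a).natAbs ≤ K :=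
      Finset.single_le_sum (f := fun a => (z a).natAbs) (fun _ _ => Nat.zero_le _)
        (Finset.mem_univ a)
    have h6 : -((z a).natAbs : ℤ) ≤ z a := by
      rw [Int.natCast_natAbs]
      exact neg_abs_le _
    have h7 : ((z a).natAbs : ℤ) ≤ (K : ℤ) := by exact_mod_cast h5
    linarith
  let R' : ∀ b : (Σ a : S, Fin (k a)) × Fin 2, Matrix (Fin (d b.1.1)) (Fin (2 * g)) ℂ :=
    fun b => R b.1.1
  have hR' : ∀ b, R' b * C b.1.1 = 1 := fun b => hRC' b.1.1
  -- the action
  have hact : ∀ X ∈ A.NA, ∀ v : (Σ b : (Σ a : S, Fin (k a)) × Fin 2, Fin (d b.1.1)) → A.H1,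
      ∑ i, T.qform R' (Function.update v i (X (v i))) =
        (2 * N * ∑ a, (q a : ℂ) * (toC X * P a).trace) * T.qform R' v := by
    intro X hX v
    have h5 : ∀ b : (Σ a : S, Fin (k a)) × Fin 2,
        R' b * toC X = (R b.1.1 * toC X * C b.1.1) * R' b := by
      intro b
      change R b.1.1 * toC X = (R b.1.1 * toC X * C b.1.1) * R b.1.1
      have h6 : R b.1.1 = R b.1.1 * P b.1.1 := by
        rw [← hCR, ← Matrix.mul_assoc, hRC', Matrix.one_mul]
      calc R b.1.1 * toC X = R b.1.1 * P b.1.1 * toC X := by rw [← h6]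
        _ = R b.1.1 * (toC X * P b.1.1) := by rw [Matrix.mul_assoc, h3 _ X hX]
        _ = (R b.1.1 * toC X * C b.1.1) * R b.1.1 := by
            rw [← hCR]
            simp only [Matrix.mul_assoc]
    have h6 := T.sum_dform R' h5 (fun i => T.cst (2 * g) (v i))
    have h7 : ∑ b : (Σ a : S, Fin (k a)) × Fin 2, (R b.1.1 * toC X * C b.1.1).trace =
        2 * N * ∑ a, (q a : ℂ) * (toC X * P a).trace := by
      have e1 : ∀ a, (R a * toC X * C a).trace = (toC X * P a).trace := by
        intro a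
        rw [Matrix.mul_assoc, Matrix.trace_mul_comm, Matrix.mul_assoc, hCR]
      have e2 : ∑ a, (toC X * P a).trace = 0 := by
        rw [← Matrix.trace_sum, ← Finset.mul_sum, h2, mul_one, trace_toC,
          trace_skew (fun u hu => A.om_nondeg hu) (A.NA_skew hX), Rat.cast_zero]
      have e3 : ∀ a, (k a : ℂ) = N * (q a : ℂ) + K := by
        intro a
        have e4 : ((k a : ℤ) : ℚ) = N * q a + K := by
          rw [hk]
          push_cast
          rw [hz]
        have e5 : ((k a : ℕ) : ℚ) = N * q a + K := by exact_mod_cast e4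
        have e6 := congrArg (fun x : ℚ => (x : ℂ)) e5
        push_cast at e6
        exact e6
      rw [Fintype.sum_prod_type, Fintype.sum_sigma]
      simp only [e1, Finset.sum_const, Finset.card_univ, Fintype.card_fin, nsmul_eq_mul]
      have e4 : ∀ a, (k a : ℂ) * (((2 : ℕ) : ℂ) * (toC X * P a).trace) =
          2 * N * ((q a : ℂ) * (toC X * P a).trace) + 2 * K * (toC X * P a).trace := by
        intro a
        rw [e3]
        push_cast
        ring
      rw [Finset.sum_congr rfl fun a _ => e4 a, Finset.sum_add_distrib, ← Finset.mul_sum,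
        ← Finset.mul_sum, e2, mul_zero, add_zero]
    rw [h7] at h6
    rw [T.qform_apply, ← h6]
    refine Finset.sum_congr rfl fun i _ => ?_
    rw [T.qform_apply]
    congr 1
    funext j
    by_cases hj : j = i
    · subst hj
      rw [Function.update_self, Function.update_self]
      exact cst_apply_mulVec X (v j)
    · rw [Function.update_of_ne hj, Function.update_of_ne hj]
  -- the form
  let e : (Σ b : (Σ a : S, Fin (k a)) × Fin 2, Fin (d b.1.1)) ≃
      Fin (Fintype.card (Σ b : (Σ a : S, Fin (k a)), Fin (d b.1))) × Fin 2 :=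
    (eqvB fun b : (Σ a : S, Fin (k a)) => d b.1).trans
      (Equiv.prodCongr (Fintype.equivFin _) (Equiv.refl _))
  let φ := (T.qform R').domDomCongr e
  have hφ : ∀ X ∈ A.NA, ∀ v, ∑ i, φ (Function.update v i (X (v i))) =
      (2 * N * ∑ a, (q a : ℂ) * (toC X * P a).trace) * φ v := by
    intro X hX v
    have h5 := hact X hX (fun i => v (e i))
    change _ = _ * T.qform R' (fun i => v (e i))
    rw [← h5, ← e.sum_comp]
    refine Finset.sum_congr rfl fun i _ => ?_
    change T.qform R' (fun j => Function.update v (e i) (X (v (e i))) (e j)) = _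
    congr 1
    funext j
    by_cases hj : j = i
    · subst hj
      rw [Function.update_self, Function.update_self]
    · rw [Function.update_of_ne hj, Function.update_of_ne (fun h6 => hj (e.injective h6))]
  -- the rational components
  have hkill : ∀ lam : ℂ →ₗ[ℚ] ℚ, ∀ X ∈ 𝔥, Kills X (lam.compMultilinearMap φ) := by
    intro lam X hX v
    have h5 := hφ X (hF.le hX) v
    rw [hq1 X hX, mul_zero, zero_mul] at h5
    change ∑ i, lam (φ (Function.update v i (X (v i)))) = 0
    rw [← map_sum, h5, map_zero]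
  have hkill' : ∀ lam : ℂ →ₗ[ℚ] ℚ, Kills Z₀ (lam.compMultilinearMap φ) := by
    intro lam
    have hdrb : IsDeRhamBettiForm QBar A.dR tau _ (lam.compMultilinearMap φ) := by
      have h5 : IsDeRhamBettiForm QBar (A.basis : Fin g ⊕ Fin g → (A.H1 →ₗ[ℚ] ℂ)) tau _
          (lam.compMultilinearMap φ) :=
        (drb_iff A.basis tau_ne (Module.finBasis ℚ A.H1) _).2 fun D lam' =>
          hkill lam _ (h0 D lam')
      rwa [coe_basis] at h5
    exact hZ₀.1 _ _ (h _ _ hdrb) hdrb
  obtain ⟨v, hv⟩ := T.qform_ne R' hR'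
  have hv' : φ (fun i => v (e.symm i)) = T.qform R' v := by
    change T.qform R' (fun i => v (e.symm (e i))) = _
    simp only [Equiv.symm_apply_apply]
  have h5 : (2 * N * ∑ a, (q a : ℂ) * (toC Z₀ * P a).trace) * φ (fun i => v (e.symm i)) = 0 := by
    rw [← hφ Z₀ hZ₀.1]
    refine (Module.forall_dual_apply_eq_zero_iff ℚ _).1 fun lam => ?_
    have h6 := hkill' lam (fun i => v (e.symm i))
    change ∑ i, lam (φ (Function.update _ i _)) = 0 at h6
    rw [map_sum]
    exact h6
  rw [hv'] at h5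
  have hN' : (N : ℂ) ≠ 0 := Nat.cast_ne_zero.2 hN.ne'
  exact (mul_ne_zero (mul_ne_zero (mul_ne_zero two_ne_zero hN') hq2) hv) h5

/-- **Theorem.** If all de Rham-Betti classes are Hodge classes then the Lie algebra of the Hodge group
is the only subalgebra which contains the logarithmic derivatives of the periods and is closed under
replicas. -/
theorem detX_of_all (h : AllH A) : DetX A := by
  intro 𝔥 hle hbr h0 hRC X hX
  have hF : A.Full 𝔥 := Pool.Agent.R917.full_of_X0 A hle hbr h0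
  obtain ⟨Z, hZ, e, he, h2, h3⟩ := (Pool.Agent.R917.DT.full_NA (A := A)).dec hX
  rw [h2]
  exact 𝔥.add_mem (centre_le h hF hRC h0 ⟨hZ, fun Y hY => (h3 Y hY).symm⟩)
    (der_le_of_two h.two hle hbr h0 he)

end main

end Pool.Agent.NH88.CM

end
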