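import Mathlib

set_option autoImplicit false
set_option linter.unusedSectionVars false

/-!
# Functions with the values 0, 1, -1 in the ideals of the group algebra of a finite abelian group
-/

noncomputable section

namespace Pool.Agent.NH88.CM

open Finset

variable {G : Type} [CommGroup G] [Fintype G]

/-- The characters separate the elements of the group algebra. -/
theorem eq_zero_of_char {a : G → ℂ} (h : ∀ ψ : G →* ℂ, ∑ x, a x * ψ x = 0) : a = 0 := by
  classical
  have h1 : ∀ f : Additive G → ℂ, ∑ x : G, a x * f (Additive.ofMul x) = 0 := by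
    intro f
    have hf : f ∈ Submodule.span ℂ (Set.range (AddChar.complexBasis (Additive G))) := by
      rw [(AddChar.complexBasis (Additive G)).span_eq]
      exact Submodule.mem_top
    induction hf using Submodule.span_induction with
    | mem f hf =>
      obtain ⟨ψ, rfl⟩ := hf
      rw [AddChar.complexBasis_apply]
      let ψ' : G →* ℂ :=
        { toFun := fun x => ψ (Additive.ofMul x)
          map_one' := by rw [ofMul_one, AddChar.map_zero_eq_one]
          map_mul' := fun x y => by rw [ofMul_mul, AddChar.map_add_eq_mul] }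
      exact h ψ'
    | zero => simp
    | add f f' _ _ hf hf' =>
      have e1 : ∑ x : G, a x * (f + f') (Additive.ofMul x) =
          ∑ x : G, a x * f (Additive.ofMul x) + ∑ x : G, a x * f' (Additive.ofMul x) := by
        rw [← sum_add_distrib]
        refine sum_congr rfl fun x _ => ?_
        rw [Pi.add_apply, mul_add]
      rw [e1, hf, hf', add_zero]
    | smul c f _ hf =>
      have e1 : ∑ x : G, a x * (c • f) (Additive.ofMul x) =
          c * ∑ x : G, a x * f (Additive.ofMul x) := by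
        rw [mul_sum]
        refine sum_congr rfl fun x _ => ?_
        rw [Pi.smul_apply, smul_eq_mul]
        ring
      rw [e1, hf, mul_zero]
  funext y
  have h2 := h1 (fun x => if x = Additive.ofMul y then 1 else 0)
  rw [Finset.sum_eq_single y] at h2
  · simpa using h2
  · intro x _ hx
    rw [if_neg (fun h3 => hx (Additive.ofMul.injective h3)), mul_zero]
  · intro h3
    exact absurd (mem_univ _) h3

/-- the value of a character on an element of the group algebra -/
def ev (ψ : G →* ℂ) (a : MonoidAlgebra ℚ G) : ℂ := ∑ x, (a.coeff x : ℂ) * ψ x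

theorem ev_eq_lift (ψ : G →* ℂ) (a : MonoidAlgebra ℚ G) :
    ev ψ a = MonoidAlgebra.lift ℚ ℂ G ψ a := by
  rw [MonoidAlgebra.lift_apply]
  unfold ev
  rw [Finsupp.sum_fintype]
  · refine sum_congr rfl fun x _ => ?_
    rw [Algebra.smul_def]
    rfl
  · intro x
    rw [zero_smul]

theorem ev_mul (ψ : G →* ℂ) (a b : MonoidAlgebra ℚ G) : ev ψ (a * b) = ev ψ a * ev ψ b := by
  rw [ev_eq_lift, ev_eq_lift, ev_eq_lift, map_mul]

theorem eq_of_ev {a b : MonoidAlgebra ℚ G} (h : ∀ ψ : G →* ℂ, ev ψ a = ev ψ b) : a = b := by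
  have h1 : (fun x => (a.coeff x : ℂ) - (b.coeff x : ℂ)) = 0 := eq_zero_of_char fun ψ => by
    have h2 := h ψ
    unfold ev at h2
    rw [← sub_eq_zero, ← sum_sub_distrib] at h2
    rw [← h2]
    refine sum_congr rfl fun x _ => ?_
    ring
  refine MonoidAlgebra.ext (Finsupp.ext fun x => ?_)
  have h2 := congrFun h1 x
  have h3 : (a.coeff x : ℂ) = (b.coeff x : ℂ) := sub_eq_zero.1 h2
  exact_mod_cast h3

/-- A character of a finite commutative group: the values are the powers of a primitive root of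
unity which is a value. -/
theorem exists_gen (χ : G →* ℂ) : ∃ (m : ℕ) (t : G), 0 < m ∧ IsPrimitiveRoot (χ t) m ∧
    ∀ x, ∃ k : ℕ, χ x = χ t ^ k := by
  classical
  let χ' : G →* ℂˣ := χ.toHomUnits
  have hχ : ∀ x, ((χ' x : ℂˣ) : ℂ) = χ x := fun x => rfl
  have : Finite χ'.range := Finite.of_surjective _ χ'.rangeRestrict_surjective
  have hcyc : IsCyclic χ'.range := by
    refine isCyclic_of_injective_ringHom (R := ℂ) ((Units.coeHom ℂ).comp χ'.range.subtype) ?_
    intro a b hab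
    exact Subtype.ext (Units.ext hab)
  obtain ⟨⟨_, t, rfl⟩, ht⟩ := hcyc.exists_generator
  refine ⟨orderOf (χ' t), t, orderOf_pos_iff.2 ?_, ?_, fun x => ?_⟩
  · have h1 : IsOfFinOrder t := isOfFinOrder_of_finite t
    exact MonoidHom.isOfFinOrder χ' h1
  · have h1 := IsPrimitiveRoot.orderOf (χ' t)
    have h2 : IsPrimitiveRoot ((χ' t : ℂˣ) : ℂ) (orderOf (χ' t)) :=
      IsPrimitiveRoot.coe_units_iff.2 h1
    exact h2
  · have h1 := ht ⟨χ' x, x, rfl⟩
    obtain ⟨k, hk⟩ := (mem_powers_iff_mem_zpowers.2 h1)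
    refine ⟨k, ?_⟩
    have h2 := congrArg (fun z : χ'.range => ((z : ℂˣ) : ℂ)) hk
    simp only [SubmonoidClass.coe_pow, Units.val_pow_eq_pow_val] at h2
    exact h2.symm

section main

variable (χ : G →* ℂ)

theorem sum_ker (ψ : G →* ℂ) (h : ¬ ∀ x, χ x = 1 → ψ x = 1) :
    ∑ x ∈ univ.filter (fun x => χ x = 1), ψ x = 0 := by
  classical
  push Not at h
  obtain ⟨y, hy, hy1⟩ := h
  have h1 : ∑ x ∈ univ.filter (fun x => χ x = 1), ψ x =
      ∑ x ∈ univ.filter (fun x => χ x = 1), ψ (y * x) := by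
    refine (Finset.sum_bij (fun x _ => y * x) (fun x hx => ?_) (fun a _ b _ hab => ?_)
      (fun b hb => ?_) (fun x _ => rfl)).symm
    · rw [mem_filter] at hx ⊢
      exact ⟨mem_univ _, by rw [map_mul, hy, hx.2, one_mul]⟩
    · exact mul_left_cancel hab
    · rw [mem_filter] at hb
      refine ⟨y⁻¹ * b, ?_, by rw [mul_inv_cancel_left]⟩
      rw [mem_filter]
      refine ⟨mem_univ _, ?_⟩
      have h2 : χ y * χ (y⁻¹ * b) = 1 := by rw [← map_mul, mul_inv_cancel_left, hb.2]
      rwa [hy, one_mul] at h2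
  have h2 : ∑ x ∈ univ.filter (fun x => χ x = 1), ψ (y * x) =
      ψ y * ∑ x ∈ univ.filter (fun x => χ x = 1), ψ x := by
    rw [mul_sum]
    exact sum_congr rfl fun x _ => map_mul ψ y x
  rw [h2] at h1
  have h3 : (1 - ψ y) * ∑ x ∈ univ.filter (fun x => χ x = 1), ψ x = 0 := by
    rw [sub_mul, one_mul]
    exact sub_eq_zero.2 h1
  rcases mul_eq_zero.1 h3 with h4 | h4
  · exact absurd (sub_eq_zero.1 h4).symm hy1
  · exact h4

variable {χ} {m : ℕ} {t : G}

theorem prim_of (hm : 0 < m) (ht : IsPrimitiveRoot (χ t) m) {ψ : G →* ℂ}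
    (hψ : ∀ x, χ x = 1 → ψ x = 1) (hp : ∀ p ∈ m.primeFactors, ψ (t ^ (m / p)) ≠ 1) :
    IsPrimitiveRoot (ψ t) m := by
  have h1 : ψ t ^ m = 1 := by
    rw [← map_pow]
    exact hψ _ (by rw [map_pow, ht.pow_eq_one])
  have h2 : orderOf (ψ t) = m := by
    refine orderOf_eq_of_pow_and_pow_div_prime hm h1 fun p hp1 hp2 => ?_
    rw [← map_pow]
    exact hp p (Nat.mem_primeFactors.2 ⟨hp1, hp2, hm.ne'⟩)
  rw [← h2]
  exact IsPrimitiveRoot.orderOf _

theorem ev_ne (hm : 0 < m) (ht : IsPrimitiveRoot (χ t) m)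
    (hk : ∀ x, ∃ k : ℕ, χ x = χ t ^ k) {ψ : G →* ℂ}
    (hψ : ∀ x, χ x = 1 → ψ x = 1) (hψt : IsPrimitiveRoot (ψ t) m) {e : MonoidAlgebra ℚ G}
    (he : ev χ e ≠ 0) : ev ψ e ≠ 0 := by
  classical
  choose k hk using hk
  have hψk : ∀ x, ψ x = ψ t ^ k x := by
    intro x
    have h1 : χ (x * (t ^ k x)⁻¹) = 1 := by
      have h2 : χ (x * (t ^ k x)⁻¹) * χ (t ^ k x) = χ x := by
        rw [← map_mul, inv_mul_cancel_right]
      have h3 : χ (t ^ k x) ≠ 0 := by
        rw [map_pow]
        exact pow_ne_zero _ (ht.ne_zero hm.ne')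
      rw [hk x, ← map_pow] at h2
      exact mul_right_cancel₀ h3 (h2.trans (one_mul _).symm)
    have h2 := hψ _ h1
    have h3 : ψ (x * (t ^ k x)⁻¹) * ψ (t ^ k x) = ψ x := by
      rw [← map_mul, inv_mul_cancel_right]
    rw [h2, one_mul, map_pow] at h3
    exact h3.symm
  let P : Polynomial ℚ := ∑ x, Polynomial.C (e.coeff x) * Polynomial.X ^ k x
  have hP : ∀ z : ℂ, Polynomial.aeval z P = ∑ x, (e.coeff x : ℂ) * z ^ k x := by
    intro z
    rw [map_sum]
    refine sum_congr rfl fun x _ => ?_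
    rw [map_mul, Polynomial.aeval_C, map_pow, Polynomial.aeval_X]
    rfl
  have hPχ : Polynomial.aeval (χ t) P = ev χ e := by
    rw [hP]
    exact sum_congr rfl fun x _ => by rw [hk x]
  have hPψ : Polynomial.aeval (ψ t) P = ev ψ e := by
    rw [hP]
    exact sum_congr rfl fun x _ => by rw [hψk x]
  intro h0
  rw [← hPψ] at h0
  have h1 : minpoly ℚ (ψ t) ∣ P := minpoly.dvd ℚ (ψ t) h0
  rw [← Polynomial.cyclotomic_eq_minpoly_rat hψt hm, Polynomial.cyclotomic_eq_minpoly_rat ht hm]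
    at h1
  obtain ⟨Q, hQ⟩ := h1
  apply he
  rw [← hPχ, hQ, map_mul, minpoly.aeval, zero_mul]

/-- the element of the group algebra -/
def gH (χ : G →* ℂ) (m : ℕ) (t : G) : MonoidAlgebra ℚ G :=
  (∑ x ∈ univ.filter (fun x => χ x = 1), MonoidAlgebra.of ℚ G x) *
    ∏ p ∈ m.primeFactors, (1 - MonoidAlgebra.of ℚ G (t ^ (m / p)))

theorem lift_gH (ψ : G →* ℂ) : ev ψ (gH χ m t) =
    (∑ x ∈ univ.filter (fun x => χ x = 1), ψ x) *
      ∏ p ∈ m.primeFactors, (1 - ψ (t ^ (m / p))) := by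
  rw [ev_eq_lift]
  unfold gH
  rw [map_mul, map_sum, map_prod]
  congr 1
  · exact sum_congr rfl fun x _ => MonoidAlgebra.lift_of ψ x
  · refine prod_congr rfl fun p _ => ?_
    rw [map_sub, map_one, MonoidAlgebra.lift_of]

/-- The element is a multiple of the idempotent. -/
theorem gH_mul (hm : 0 < m) (ht : IsPrimitiveRoot (χ t) m)
    (hk : ∀ x, ∃ k : ℕ, χ x = χ t ^ k) {e : MonoidAlgebra ℚ G} (he : e * e = e)
    (he0 : ev χ e ≠ 0) : gH χ m t * e = gH χ m t := by
  refine eq_of_ev fun ψ => ?_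
  rw [ev_mul, lift_gH]
  by_cases h1 : ∀ x, χ x = 1 → ψ x = 1
  · by_cases h2 : ∀ p ∈ m.primeFactors, ψ (t ^ (m / p)) ≠ 1
    · have h3 := ev_ne hm ht hk h1 (prim_of hm ht h1 h2) he0
      have h4 := ev_mul ψ e e
      rw [he] at h4
      have h5 : ev ψ e = 1 := by
        have h6 : ev ψ e * (ev ψ e - 1) = 0 := by
          rw [mul_sub, mul_one, ← h4, sub_self]
        rcases mul_eq_zero.1 h6 with h7 | h7
        · exact absurd h7 h3
        · exact sub_eq_zero.1 h7
      rw [h5, mul_one]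
    · push Not at h2
      obtain ⟨p, hp, h2⟩ := h2
      rw [prod_eq_zero hp (by rw [h2, sub_self]), mul_zero, zero_mul]
  · rw [sum_ker χ ψ h1, zero_mul, zero_mul]

/-- Products of roots of unity of different prime orders are different. -/
theorem inj_roots {ζ : ℂ} (hζ : IsPrimitiveRoot ζ m) (hm : 0 < m) {S S' : Finset ℕ}
    (hS : S ⊆ m.primeFactors) (hS' : S' ⊆ m.primeFactors)
    (h : ∏ p ∈ S, ζ ^ (m / p) = ∏ p ∈ S', ζ ^ (m / p)) : S = S' := by
  classical
  have key : ∀ q ∈ m.primeFactors, ∀ T ⊆ m.primeFactors,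
      (∏ p ∈ T, ζ ^ (m / p)) ^ (∏ p ∈ m.primeFactors.erase q, p) = 1 ↔ q ∉ T := by
    intro q hq T hT
    obtain ⟨M, hM⟩ : ∃ M, M = ∏ p ∈ m.primeFactors.erase q, p := ⟨_, rfl⟩
    rw [← hM]
    have hq' := Nat.mem_primeFactors.1 hq
    have h1 : ∀ p ∈ m.primeFactors, p ≠ q → (ζ ^ (m / p)) ^ M = 1 := by
      intro p hp hpq
      have hp' := Nat.mem_primeFactors.1 hp
      rw [← pow_mul, hζ.pow_eq_one_iff_dvd]
      obtain ⟨M', hM'⟩ : p ∣ M := by
        rw [hM]
        exact dvd_prod_of_mem _ (mem_erase.2 ⟨hpq, hp⟩)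
      rw [hM', ← mul_assoc, Nat.div_mul_cancel hp'.2.1]
      exact Dvd.intro _ rfl
    have h2 : (ζ ^ (m / q)) ^ M ≠ 1 := by
      rw [← pow_mul, Ne, hζ.pow_eq_one_iff_dvd]
      intro h3
      have h4 : m / q * q ∣ m / q * M := by rwa [Nat.div_mul_cancel hq'.2.1]
      have h5 : 0 < m / q := Nat.div_pos (Nat.le_of_dvd hm hq'.2.1) hq'.1.pos
      have h6 := Nat.dvd_of_mul_dvd_mul_left h5 h4
      rw [hM, hq'.1.prime.dvd_finsetProd_iff] at h6
      obtain ⟨p, hp, h7⟩ := h6
      have hp' := mem_erase.1 hp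
      exact hp'.1 ((Nat.prime_dvd_prime_iff_eq hq'.1 (Nat.mem_primeFactors.1 hp'.2).1).1 h7).symm
    rw [← prod_pow]
    by_cases hqT : q ∈ T
    · rw [prod_eq_single q (fun p hp hpq => h1 p (hT hp) hpq) (fun h3 => absurd hqT h3)]
      exact ⟨fun h3 => absurd h3 h2, fun h3 => absurd hqT h3⟩
    · rw [prod_eq_one fun p hp => h1 p (hT hp) (fun h3 => hqT (h3 ▸ hp))]
      exact ⟨fun _ => hqT, fun _ => rfl⟩
  ext q
  by_cases hq : q ∈ m.primeFactors
  · have h1 := key q hq S hS
    have h2 := key q hq S' hS'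
    rw [h] at h1
    have h3 := h1.symm.trans h2
    exact not_iff_not.1 h3
  · exact ⟨fun h1 => absurd (hS h1) hq, fun h1 => absurd (hS' h1) hq⟩

theorem coeff_gH [DecidableEq G] (y : G) : (gH χ m t).coeff y =
    ∑ S ∈ m.primeFactors.powerset, if χ y = ∏ p ∈ S, χ t ^ (m / p) then (-1) ^ S.card else 0 := by
  classical
  have h1 : ∏ p ∈ m.primeFactors, (1 - MonoidAlgebra.of ℚ G (t ^ (m / p))) =
      ∑ S ∈ m.primeFactors.powerset, (-1 : ℚ) ^ S.card •
        MonoidAlgebra.of ℚ G (∏ p ∈ S, t ^ (m / p)) := by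
    have h2 : ∏ p ∈ m.primeFactors, (1 - MonoidAlgebra.of ℚ G (t ^ (m / p))) =
        ∏ p ∈ m.primeFactors, (-MonoidAlgebra.of ℚ G (t ^ (m / p)) + 1) :=
      prod_congr rfl fun p _ => by ring
    rw [h2, prod_add]
    refine sum_congr rfl fun S _ => ?_
    rw [prod_const_one, mul_one, prod_neg, map_prod, Algebra.smul_def, map_pow, map_neg, map_one]
  unfold gH
  rw [h1, sum_mul_sum, sum_comm]
  have h3 : ∀ (a : MonoidAlgebra ℚ G → ℚ), (a = fun b => b.coeff y) →
      ∀ S ∈ m.primeFactors.powerset, a (∑ x ∈ univ.filter (fun x => χ x = 1),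
        MonoidAlgebra.of ℚ G x * (-1 : ℚ) ^ S.card • MonoidAlgebra.of ℚ G (∏ p ∈ S, t ^ (m / p))) =
        if χ y = ∏ p ∈ S, χ t ^ (m / p) then (-1) ^ S.card else 0 := by
    rintro _ rfl S _
    have h4 : ∀ x : G, MonoidAlgebra.of ℚ G x *
        (-1 : ℚ) ^ S.card • MonoidAlgebra.of ℚ G (∏ p ∈ S, t ^ (m / p)) =
        MonoidAlgebra.single (x * ∏ p ∈ S, t ^ (m / p)) ((-1 : ℚ) ^ S.card) := by
      intro x
      rw [MonoidAlgebra.of_apply, MonoidAlgebra.of_apply, MonoidAlgebra.smul_single,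
        MonoidAlgebra.single_mul_single, one_mul, smul_eq_mul, mul_one]
    have h5 : ∀ x : G, (MonoidAlgebra.single (x * ∏ p ∈ S, t ^ (m / p))
        ((-1 : ℚ) ^ S.card)).coeff y = if x = y * (∏ p ∈ S, t ^ (m / p))⁻¹ then (-1) ^ S.card
          else 0 := by
      intro x
      rw [MonoidAlgebra.coeff_single, Finsupp.single_apply]
      by_cases h6 : x * ∏ p ∈ S, t ^ (m / p) = y
      · rw [if_pos h6, if_pos (by rw [← h6, mul_inv_cancel_right])]
      · rw [if_neg h6, if_neg (fun h7 => h6 (by rw [h7, inv_mul_cancel_right]))]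
    have h6 : (∑ x ∈ univ.filter (fun x => χ x = 1),
        MonoidAlgebra.of ℚ G x * (-1 : ℚ) ^ S.card •
          MonoidAlgebra.of ℚ G (∏ p ∈ S, t ^ (m / p))).coeff y =
        ∑ x ∈ univ.filter (fun x => χ x = 1),
          if x = y * (∏ p ∈ S, t ^ (m / p))⁻¹ then (-1 : ℚ) ^ S.card else 0 := by
      rw [MonoidAlgebra.coeff_sum, Finsupp.finsetSum_apply]
      refine sum_congr rfl fun x _ => ?_
      rw [h4, h5]
    change (∑ x ∈ univ.filter (fun x => χ x = 1),
        MonoidAlgebra.of ℚ G x * (-1 : ℚ) ^ S.card •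
          MonoidAlgebra.of ℚ G (∏ p ∈ S, t ^ (m / p))).coeff y = _
    rw [h6, Finset.sum_ite_eq']
    have h7 : χ (∏ p ∈ S, t ^ (m / p)) = ∏ p ∈ S, χ t ^ (m / p) := by
      rw [map_prod]
      exact prod_congr rfl fun p _ => map_pow χ t _
    have h8 : χ (∏ p ∈ S, t ^ (m / p)) ≠ 0 := by
      intro h9
      have h10 := map_mul χ (∏ p ∈ S, t ^ (m / p)) (∏ p ∈ S, t ^ (m / p))⁻¹
      rw [mul_inv_cancel, map_one, h9, zero_mul] at h10
      exact one_ne_zero h10
    have h9 : y * (∏ p ∈ S, t ^ (m / p))⁻¹ ∈ univ.filter (fun x => χ x = 1) ↔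
        χ y = ∏ p ∈ S, χ t ^ (m / p) := by
      rw [mem_filter, ← h7]
      have h10 : χ (y * (∏ p ∈ S, t ^ (m / p))⁻¹) * χ (∏ p ∈ S, t ^ (m / p)) = χ y := by
        rw [← map_mul, inv_mul_cancel_right]
      constructor
      · rintro ⟨_, h11⟩
        rw [← h10, h11, one_mul]
      · intro h11
        refine ⟨mem_univ _, mul_right_cancel₀ h8 ?_⟩
        rw [h10, h11, one_mul]
    by_cases h10 : χ y = ∏ p ∈ S, χ t ^ (m / p)
    · rw [if_pos (h9.2 h10), if_pos h10]
    · rw [if_neg (fun h11 => h10 (h9.1 h11)), if_neg h10]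
  rw [MonoidAlgebra.coeff_sum, Finsupp.finsetSum_apply]
  exact sum_congr rfl fun S hS => h3 _ rfl S hS

theorem gH_val (hm : 0 < m) (ht : IsPrimitiveRoot (χ t) m) (y : G) :
    (gH χ m t).coeff y = 0 ∨ (gH χ m t).coeff y = 1 ∨ (gH χ m t).coeff y = -1 := by
  classical
  rw [coeff_gH]
  by_cases h : ∃ S ∈ m.primeFactors.powerset, χ y = ∏ p ∈ S, χ t ^ (m / p)
  · obtain ⟨S, hS, h1⟩ := h
    right
    rw [sum_eq_single S, if_pos h1]
    · exact neg_one_pow_eq_or ℚ S.card
    · intro S' hS' hne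
      rw [if_neg]
      intro h2
      exact hne (inj_roots ht hm (mem_powerset.1 hS') (mem_powerset.1 hS) (h2.symm.trans h1))
    · intro h2
      exact absurd hS h2
  · left
    refine sum_eq_zero fun S hS => if_neg fun h1 => h ⟨S, hS, h1⟩

theorem gH_one (hm : 0 < m) (ht : IsPrimitiveRoot (χ t) m) : (gH χ m t).coeff 1 = 1 := by
  classical
  rw [coeff_gH, sum_eq_single ∅]
  · rw [map_one, prod_empty, if_pos rfl, card_empty, pow_zero]
  · intro S hS hne
    rw [if_neg]
    intro h2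
    rw [map_one] at h2
    exact hne (inj_roots ht hm (mem_powerset.1 hS) (empty_subset _) (by rw [← h2, prod_empty]))
  · intro h
    exact absurd (empty_mem_powerset _) h

end main

/-- **Lemma.** Every nonzero translation invariant space of rational functions on a finite abelian
group contains a nonzero function with values in `{0, 1, -1}`. -/
theorem exists_sign (V : Submodule ℚ (G → ℚ))
    (hV : ∀ f ∈ V, ∀ s : G, (fun x => f (s⁻¹ * x)) ∈ V) (hne : V ≠ ⊥) :
    ∃ f ∈ V, f ≠ 0 ∧ ∀ x, f x = 0 ∨ f x = 1 ∨ f x = -1 := by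
  classical
  let I : Ideal (MonoidAlgebra ℚ G) :=
    { carrier := {a | (fun x => a.coeff x) ∈ V}
      zero_mem' := by
        change (fun x => (0 : MonoidAlgebra ℚ G).coeff x) ∈ V
        have : (fun x => (0 : MonoidAlgebra ℚ G).coeff x) = (0 : G → ℚ) := rfl
        rw [this]
        exact V.zero_mem
      add_mem' := fun {a b} ha hb => V.add_mem ha hb
      smul_mem' := fun b a ha => by
        change (fun x => (b * a).coeff x) ∈ V
        change (fun x => a.coeff x) ∈ V at ha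
        induction b using MonoidAlgebra.induction_linear with
        | zero =>
          rw [zero_mul]
          exact V.zero_mem
        | add b b' hb hb' =>
          rw [add_mul]
          exact V.add_mem hb hb'
        | single s r =>
          have h1 : (fun x => (MonoidAlgebra.single s r * a).coeff x) =
              r • fun x => a.coeff (s⁻¹ * x) := by
            funext x
            exact MonoidAlgebra.coeff_single_mul_eq_mul_coeff _ (fun y _ => by
              rw [eq_inv_mul_iff_mul_eq])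
          rw [h1]
          exact V.smul_mem r (hV _ ha s) }
  have hI : ∀ a, a ∈ I ↔ (fun x => a.coeff x) ∈ V := fun a => Iff.rfl
  obtain ⟨e, he, hIe⟩ := IsSemisimpleRing.ideal_eq_span_idempotent I
  have heI : e ∈ I := by
    rw [hIe]
    exact Ideal.mem_span_singleton_self e
  have he0 : e ≠ 0 := by
    rintro rfl
    apply hne
    rw [eq_bot_iff]
    intro f hf
    have h1 : MonoidAlgebra.ofCoeff (Finsupp.equivFunOnFinite.symm f) ∈ I := by
      rw [hI]
      exact hf
    rw [hIe, Ideal.mem_span_singleton, zero_dvd_iff] at h1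
    have h2 := congrArg MonoidAlgebra.coeff h1
    rw [MonoidAlgebra.coeff_ofCoeff] at h2
    have h3 : f = 0 := by
      funext x
      exact congrArg (fun u : G →₀ ℚ => u x) h2
    rw [h3]
    exact Submodule.zero_mem _
  obtain ⟨χ, hχ⟩ : ∃ χ : G →* ℂ, ev χ e ≠ 0 := by
    by_contra hcon
    push Not at hcon
    exact he0 (eq_of_ev fun ψ => by rw [hcon ψ]; simp [ev])
  obtain ⟨m, t, hm, ht, hk⟩ := exists_gen χ
  refine ⟨fun x => (gH χ m t).coeff x, ?_, ?_, gH_val hm ht⟩
  · rw [← hI, ← gH_mul hm ht hk he hχ]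
    exact I.mul_mem_left _ heI
  · intro h0
    have h1 := congrFun h0 1
    rw [gH_one hm ht] at h1
    exact one_ne_zero h1

end Pool.Agent.NH88.CM
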