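import Pool.Agent.NH88.CM.Ex
import Pool.Agent.NH88.CM.Tor

set_option autoImplicit false
set_option linter.unusedSectionVars false
set_option linter.unusedVariables false

/-!
# The group of the similitudes which respect a class
-/

open Module Matrix Pool.Agent.Y102 Pool.Agent.R917.OM Pool.Agent.R917.BX Pool.Agent.W516.DR
  Pool.Agent.H204R3.GP Pool.Agent.R917.DT Pool.Agent.Results.MP_5d33ca_ag.OneMotivesMumfordTate

noncomputable section

namespace Pool.Agent.NH88.CM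

/-- The indices. -/
def eB (g : ℕ) : Fin (2 * g) ≃ Betti g 0 0 := (Equiv.sumEmpty _ _).symm

theorem eB_apply {g : ℕ} (j : Fin (2 * g)) : eB g j = Sum.inl j := rfl

/-- The matrix on the homology of the abelian variety. -/
def sub {g : ℕ} (x : Matrix (Betti g 0 0) (Betti g 0 0) ℂ) :
    Matrix (Fin (2 * g)) (Fin (2 * g)) ℂ := x.submatrix (eB g) (eB g)

theorem sub_mul {g : ℕ} (x y : Matrix (Betti g 0 0) (Betti g 0 0) ℂ) :
    sub (x * y) = sub x * sub y :=
  (Matrix.submatrix_mul_equiv x y (eB g) (eB g) (eB g)).symm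

theorem sub_one {g : ℕ} : sub (1 : Matrix (Betti g 0 0) (Betti g 0 0) ℂ) = 1 :=
  Matrix.submatrix_one_equiv (eB g)

variable {g : ℕ} (A : AbVar g) {m : ℕ}
  (φ : MultilinearMap ℚ (fun _ : Fin m × Fin 2 => A.H1) ℚ)

/-- The group of the similitudes which multiply the form by a power of the multiplier. -/
def grp : Subgroup (GL (Betti g 0 0) ℂ) where
  carrier := {x | ∃ ν : ℂ, ν ≠ 0 ∧
    Mul (one2 A.om) (sub (x : Matrix (Betti g 0 0) (Betti g 0 0) ℂ)) ν ∧
      Mul φ (sub (x : Matrix (Betti g 0 0) (Betti g 0 0) ℂ)) (ν ^ m)}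
  one_mem' := by
    refine ⟨1, one_ne_zero, ?_, ?_⟩
    · rw [Units.val_one, sub_one]
      exact Mul.one
    · rw [Units.val_one, sub_one, one_pow]
      exact Mul.one
  mul_mem' := by
    rintro x y ⟨ν, h1, h2, h3⟩ ⟨μ, h4, h5, h6⟩
    refine ⟨ν * μ, mul_ne_zero h1 h4, ?_, ?_⟩
    · rw [Units.val_mul, sub_mul]
      exact h2.mul h5
    · rw [Units.val_mul, sub_mul, mul_pow]
      exact h3.mul h6
  inv_mem' := by
    rintro x ⟨ν, h1, h2, h3⟩
    have h4 : sub ((x⁻¹ : GL (Betti g 0 0) ℂ) : Matrix (Betti g 0 0) (Betti g 0 0) ℂ) *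
        sub (x : Matrix (Betti g 0 0) (Betti g 0 0) ℂ) = 1 := by
      rw [← sub_mul, ← Units.val_mul, inv_mul_cancel, Units.val_one, sub_one]
    refine ⟨ν⁻¹, inv_ne_zero h1, h2.inv h4 (inv_mul_cancel₀ h1), h3.inv h4 ?_⟩
    rw [← mul_pow, inv_mul_cancel₀ h1, one_pow]

/-- The polynomial which gives the value of the form on the rows of a matrix. -/
def pol {m : ℕ} (φ : MultilinearMap ℚ (fun _ : Fin m × Fin 2 => (Fin (2 * g) → ℚ)) ℚ)
    (K : Fin m × Fin 2 → Fin (2 * g)) :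
    MvPolynomial (Betti g 0 0 × Betti g 0 0) ℚ :=
  ex φ fun l i => MvPolynomial.X (eB g (K l), eB g i)

theorem aeval_pol {m : ℕ} (φ : MultilinearMap ℚ (fun _ : Fin m × Fin 2 => (Fin (2 * g) → ℚ)) ℚ)
    (K : Fin m × Fin 2 → Fin (2 * g)) (x : Matrix (Betti g 0 0) (Betti g 0 0) ℂ) :
    MvPolynomial.aeval (fun b : Betti g 0 0 × Betti g 0 0 => x b.1 b.2) (pol φ K) =
      ex φ fun l => sub x (K l) := by
  unfold pol
  have h1 := map_ex (φ := φ) (MvPolynomial.aeval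
    (fun b : Betti g 0 0 × Betti g 0 0 => x b.1 b.2) :
      MvPolynomial (Betti g 0 0 × Betti g 0 0) ℚ →ₐ[ℚ] ℂ).toRingHom
    (fun l i => MvPolynomial.X (eB g (K l), eB g i))
  refine h1.trans ?_
  congr 1
  funext l i
  exact MvPolynomial.aeval_X _ _

theorem exists_co (hg : 0 < g) : ∃ K, co (one2 A.om) K ≠ 0 := by
  by_contra hcon
  push Not at hcon
  have h1 : ∀ u v, A.om u v = 0 := by
    intro u v
    have h2 := ex_rat (φ := one2 A.om) (fun p => if p.2 = 0 then u else v)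
    rw [one2_apply] at h2
    change _ = A.om u v at h2
    rw [← h2]
    unfold ex
    exact Finset.sum_eq_zero fun J _ => by rw [hcon, map_zero, zero_mul]
  have h2 := A.om_nondeg (u := Pi.single ⟨0, by omega⟩ 1) (fun v => h1 _ v)
  have h3 := congrFun h2 ⟨0, by omega⟩
  rw [Pi.single_eq_same] at h3
  exact one_ne_zero h3

theorem grp_algebraic (hg : 0 < g) : IsAlgebraicSubgroup (grp A φ) := by
  obtain ⟨K₀, hK₀⟩ := exists_co A hg
  refine ⟨{p | (∃ K, p = pol (one2 A.om) K * MvPolynomial.C (co (one2 A.om) K₀) -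
      pol (one2 A.om) K₀ * MvPolynomial.C (co (one2 A.om) K)) ∨
    ∃ K, p = pol φ K * MvPolynomial.C (co (one2 A.om) K₀ ^ m) -
      pol (one2 A.om) K₀ ^ m * MvPolynomial.C (co φ K)}, fun x => ?_⟩
  have hC : ∀ q : ℚ, MvPolynomial.aeval (fun b : Betti g 0 0 × Betti g 0 0 =>
      (x : Matrix (Betti g 0 0) (Betti g 0 0) ℂ) b.1 b.2) (MvPolynomial.C q) =
        algebraMap ℚ ℂ q := fun q => MvPolynomial.aeval_C _ _
  have hc0 : algebraMap ℚ ℂ (co (one2 A.om) K₀) ≠ 0 := by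
    rw [map_ne_zero_iff _ (algebraMap ℚ ℂ).injective]
    exact hK₀
  constructor
  · rintro ⟨ν, h1, h2, h3⟩ p (⟨K, rfl⟩ | ⟨K, rfl⟩)
    · rw [map_sub, map_mul, map_mul, hC, hC, aeval_pol, aeval_pol, h2 K, h2 K₀]
      ring
    · rw [map_sub, map_mul, map_mul, MvPolynomial.C_pow, map_pow, map_pow, hC, hC, aeval_pol,
        aeval_pol, h3 K, h2 K₀, mul_pow]
      ring
  · intro h
    let ν : ℂ := (ex (one2 A.om) fun l => sub (x : Matrix (Betti g 0 0) (Betti g 0 0) ℂ) (K₀ l)) /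
      algebraMap ℚ ℂ (co (one2 A.om) K₀)
    have hν : (ex (one2 A.om) fun l => sub (x : Matrix (Betti g 0 0) (Betti g 0 0) ℂ) (K₀ l)) =
        ν * algebraMap ℚ ℂ (co (one2 A.om) K₀) := (div_mul_cancel₀ _ hc0).symm
    have h2 : Mul (one2 A.om) (sub (x : Matrix (Betti g 0 0) (Betti g 0 0) ℂ)) ν := by
      intro K
      have h3 := h _ (Or.inl ⟨K, rfl⟩)
      rw [map_sub, map_mul, map_mul, hC, hC, aeval_pol, aeval_pol, hν] at h3
      refine mul_right_cancel₀ hc0 ?_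
      linear_combination h3
    have h3 : Mul φ (sub (x : Matrix (Betti g 0 0) (Betti g 0 0) ℂ)) (ν ^ m) := by
      intro K
      have h3 := h _ (Or.inr ⟨K, rfl⟩)
      rw [map_sub, map_mul, map_mul, MvPolynomial.C_pow, map_pow, map_pow, hC, hC, aeval_pol,
        aeval_pol, hν] at h3
      refine mul_right_cancel₀ (pow_ne_zero m hc0) ?_
      linear_combination h3
    refine ⟨ν, fun h0 => ?_, h2, h3⟩
    rw [h0] at h2
    have h4 := ex_of_rows (one2 A.om) h2
      (fun l => sub ((x⁻¹ : GL (Betti g 0 0) ℂ) : Matrix (Betti g 0 0) (Betti g 0 0) ℂ) (K₀ l))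
    have h5 : (fun l => sub ((x⁻¹ : GL (Betti g 0 0) ℂ) : Matrix (Betti g 0 0) (Betti g 0 0) ℂ)
        (K₀ l) ᵥ* sub (x : Matrix (Betti g 0 0) (Betti g 0 0) ℂ)) =
        fun l => (1 : Matrix (Fin (2 * g)) (Fin (2 * g)) ℂ) (K₀ l) := by
      have h6 : sub ((x⁻¹ : GL (Betti g 0 0) ℂ) : Matrix (Betti g 0 0) (Betti g 0 0) ℂ) *
          sub (x : Matrix (Betti g 0 0) (Betti g 0 0) ℂ) = 1 := by
        rw [← sub_mul, ← Units.val_mul, inv_mul_cancel, Units.val_one, sub_one]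
      rw [← h6]
      rfl
    rw [h5, zero_mul, Mul.one (φ := one2 A.om) K₀, one_mul] at h4
    exact hc0 h4

end Pool.Agent.NH88.CM

end
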