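import Pool.Agent.NH88.CM.ConvA

set_option autoImplicit false
set_option linter.unusedSectionVars false
set_option linter.unusedVariables false

/-!
# The torsor of the group of similitudes which respect a de Rham-Betti class
-/

open Module Matrix Pool.Agent.Y102 Pool.Agent.R917.OM Pool.Agent.R917.BX Pool.Agent.W516.DR
  Pool.Agent.H204R3.GP Pool.Agent.R917.DT Pool.Agent.Results.MP_5d33ca_ag.OneMotivesMumfordTate

noncomputable section

namespace Pool.Agent.NH88.CM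

section coordinates

variable {n : ℕ} {κ ρ : Type} [Fintype κ] [DecidableEq κ] [Fintype ρ] [DecidableEq ρ]

theorem ex_smul (φ : MultilinearMap ℚ (fun _ : κ => (Fin n → ℚ)) ℚ) (z : ℂ)
    (x : κ → Fin n → ℂ) : ex φ (fun l i => z * x l i) = z ^ Fintype.card κ * ex φ x := by
  unfold ex
  rw [Finset.mul_sum]
  refine Finset.sum_congr rfl fun J _ => ?_
  rw [Finset.prod_mul_distrib, Finset.prod_const, Finset.card_univ]
  ring

/-- The inversion. -/
theorem sum_inv {D : Matrix ρ (Fin n) ℂ} {c : Matrix (Fin n) ρ ℂ} (h : D * c = 1)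
    (a : (κ → ρ) → ℂ) (J : κ → ρ) :
    ∑ K : κ → Fin n, (∏ l, D (J l) (K l)) * ∑ J', a J' * ∏ l, c (K l) (J' l) = a J := by
  have h1 : ∀ J' : κ → ρ, ∑ K : κ → Fin n, (∏ l, D (J l) (K l)) * ∏ l, c (K l) (J' l) =
      if J = J' then 1 else 0 := by
    intro J'
    have h2 : ∀ l, ∑ i, D (J l) i * c i (J' l) = if J l = J' l then 1 else 0 := by
      intro l
      have h3 := congrFun (congrFun h (J l)) (J' l)
      rw [Matrix.mul_apply, Matrix.one_apply] at h3
      exact h3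
    have h4 : ∏ l, ∑ i, D (J l) i * c i (J' l) =
        ∑ K : κ → Fin n, (∏ l, D (J l) (K l)) * ∏ l, c (K l) (J' l) := by
      rw [Finset.prod_univ_sum, Fintype.piFinset_univ]
      exact Finset.sum_congr rfl fun K _ => Finset.prod_mul_distrib
    rw [← h4]
    simp only [h2]
    by_cases hJ : J = J'
    · subst hJ
      simp
    · rw [if_neg hJ]
      obtain ⟨l, hl⟩ : ∃ l, J l ≠ J' l := by
        by_contra hc
        push Not at hc
        exact hJ (funext hc)
      exact Finset.prod_eq_zero (Finset.mem_univ l) (if_neg hl)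
  simp only [Finset.mul_sum]
  rw [Finset.sum_comm]
  have h5 : ∀ J' : κ → ρ, ∑ K : κ → Fin n, (∏ l, D (J l) (K l)) * (a J' * ∏ l, c (K l) (J' l)) =
      a J' * if J = J' then 1 else 0 := by
    intro J'
    rw [← h1, Finset.mul_sum]
    refine Finset.sum_congr rfl fun K _ => ?_
    ring
  simp only [h5]
  simp

end coordinates

variable {g : ℕ} (A : AbVar g)

/-- The matrix of the periods. -/
def cM : Matrix (Fin (2 * g)) (Fin g ⊕ Fin g) ℂ := Matrix.of fun j k => A.dR k (Pi.single j 1)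

theorem cM_inv : ∃ D : Matrix (Fin g ⊕ Fin g) (Fin (2 * g)) ℂ, cM A * D = 1 ∧ D * cM A = 1 := by
  let δ : Fin (2 * g) → (A.H1 →ₗ[ℚ] ℂ) := fun j =>
    (Algebra.linearMap ℚ ℂ) ∘ₗ (LinearMap.proj j : (Fin (2 * g) → ℚ) →ₗ[ℚ] ℚ)
  let D : Matrix (Fin g ⊕ Fin g) (Fin (2 * g)) ℂ := Matrix.of fun k j => A.basis.repr (δ j) k
  have h1 : cM A * D = 1 := by
    ext i j
    rw [Matrix.mul_apply, Matrix.one_apply]
    have h2 := congrArg (fun f : A.H1 →ₗ[ℚ] ℂ => f (Pi.single i 1)) (A.basis.sum_repr (δ j))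
    beta_reduce at h2
    rw [LinearMap.sum_apply] at h2
    have h3 : δ j (Pi.single i 1) = if i = j then 1 else 0 := by
      change algebraMap ℚ ℂ ((Pi.single i 1 : Fin (2 * g) → ℚ) j) = _
      by_cases hij : i = j
      · subst hij
        rw [Pi.single_eq_same, map_one, if_pos rfl]
      · rw [Pi.single_eq_of_ne (Ne.symm hij), map_zero, if_neg hij]
    rw [← h3, ← h2]
    refine Finset.sum_congr rfl fun k _ => ?_
    rw [LinearMap.smul_apply, smul_eq_mul, mul_comm, AbVar.coe_basis]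
    rfl
  refine ⟨D, h1, ?_⟩
  refine (Matrix.mul_eq_one_comm_of_card_eq _ _ _ ?_).1 h1
  rw [Fintype.card_fin, Fintype.card_sum, Fintype.card_fin]
  omega

theorem drb_coord {m : ℕ} {φ : MultilinearMap ℚ (fun _ : Fin m × Fin 2 => A.H1) ℚ}
    (hφ : IsDeRhamBettiForm QBar A.dR tau m φ) : ∃ a : (Fin m × Fin 2 → Fin g ⊕ Fin g) → QBar,
      ∀ K, tau ^ m * algebraMap ℚ ℂ (co φ K) =
        ∑ J, algebraMap QBar ℂ (a J) * ∏ l, cM A (K l) (J l) := by
  obtain ⟨a, ha⟩ := hφ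
  exact ⟨a, fun K => ha fun l => Pi.single (K l) 1⟩


/-- The unknowns. -/
abbrev Unk (g : ℕ) : Type := ((Fin g ⊕ Fin g) × Fin (2 * g)) ⊕ (Fin (2 * g) × (Fin g ⊕ Fin g))

/-- The equations for a class. -/
theorem eq_iff {R : Type} [CommRing R] [Algebra ℚ R] [Algebra QBar R] {m : ℕ}
    (φ : MultilinearMap ℚ (fun _ : Fin m × Fin 2 => (Fin (2 * g) → ℚ)) ℚ)
    (J : Fin m × Fin 2 → Fin g ⊕ Fin g) (b : QBar) (z : Unk g → R) :
    MvPolynomial.aeval z (ex φ (fun l i => (MvPolynomial.X (Sum.inl (J l, i)) :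
      MvPolynomial (Unk g) QBar)) - MvPolynomial.C b) = 0 ↔
      ex φ (fun l i => z (Sum.inl (J l, i))) = algebraMap QBar R b := by
  have h1 := map_ex (φ := φ) (MvPolynomial.aeval z : MvPolynomial (Unk g) QBar →ₐ[QBar] R).toRingHom
    (fun l i => (MvPolynomial.X (Sum.inl (J l, i)) : MvPolynomial (Unk g) QBar))
  have h2 : (MvPolynomial.aeval z) (ex φ (fun l i => (MvPolynomial.X (Sum.inl (J l, i)) :
      MvPolynomial (Unk g) QBar))) = ex φ (fun l i => z (Sum.inl (J l, i))) := by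
    refine h1.trans ?_
    congr 1
    funext l i
    exact MvPolynomial.aeval_X _ _
  rw [map_sub, h2, MvPolynomial.aeval_C, sub_eq_zero]

/-- The solution over the complex numbers. -/
theorem ex_sol {D : Matrix (Fin g ⊕ Fin g) (Fin (2 * g)) ℂ} (hD : D * cM A = 1) {ρ : ℂ}
    (hρ : ρ * ρ = tau) {m : ℕ} (φ : MultilinearMap ℚ (fun _ : Fin m × Fin 2 => A.H1) ℚ)
    {a : (Fin m × Fin 2 → Fin g ⊕ Fin g) → QBar}
    (ha : ∀ K, tau ^ m * algebraMap ℚ ℂ (co φ K) =
        ∑ J, algebraMap QBar ℂ (a J) * ∏ l, cM A (K l) (J l)) (J : Fin m × Fin 2 → Fin g ⊕ Fin g) :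
    ex φ (fun l i => ρ * D (J l) i) = algebraMap QBar ℂ (a J) := by
  rw [ex_smul φ ρ (fun l i => D (J l) i), ← sum_inv hD (fun J => algebraMap QBar ℂ (a J)) J]
  have h1 : ρ ^ Fintype.card (Fin m × Fin 2) = tau ^ m := by
    rw [Fintype.card_prod, Fintype.card_fin, Fintype.card_fin, mul_comm, pow_mul, pow_two, hρ]
  rw [h1]
  unfold ex
  rw [Finset.mul_sum]
  refine Finset.sum_congr rfl fun K _ => ?_
  rw [← ha]
  ring

/-- The indices for the de Rham side. -/
def eD (g : ℕ) : (Fin g ⊕ Fin g) ≃ DeRham g 0 0 := (Equiv.sumEmpty _ _).symm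

theorem period_sub (A : AbVarG g) (u : Fin 0 → Fin g → ℂ) (v : Fin 0 → Fin g → ℂ)
    (ℓ : Fin 0 → Fin 0 → ℂ) :
    (periodMatrix A u v ℓ).submatrix (eB g) (eD g) = cM A.toAbVar := by
  ext j k
  rcases k with k | k
  · exact (per_eb A j k).symm
  · exact (eta_eb A j k).symm

/-- The group of the similitudes which respect a de Rham-Betti class has a torsor over the field of
algebraic numbers which contains the periods. -/
theorem contains_periods (A : AbVarG g) {m : ℕ}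
    {φ : MultilinearMap ℚ (fun _ : Fin m × Fin 2 => A.H1) ℚ}
    (hφ : IsDeRhamBettiForm QBar A.dR tau m φ) (u : Fin 0 → Fin g → ℂ) (v : Fin 0 → Fin g → ℂ)
    (ℓ : Fin 0 → Fin 0 → ℂ) : ContainsPeriods A u v ℓ (grp A.toAbVar φ) := by
  classical
  obtain ⟨D, hD1, hD2⟩ := cM_inv A.toAbVar
  obtain ⟨a, ha⟩ := drb_coord A.toAbVar hφ
  obtain ⟨b, hb⟩ := drb_coord A.toAbVar (one2_drb _ A.dR tau A.om_drb)
  obtain ⟨ρ, hρ⟩ : ∃ ρ : ℂ, ρ * ρ = tau := by
    obtain ⟨ρ, hρ⟩ := IsAlgClosed.exists_pow_nat_eq (tau : ℂ) (n := 2) two_pos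
    exact ⟨ρ, by rw [← hρ, pow_two]⟩
  have hρ0 : ρ ≠ 0 := by
    intro h
    rw [h, mul_zero] at hρ
    exact AbVar.tau_ne hρ.symm
  let S : Set (MvPolynomial (Unk g) QBar) := {p |
    (∃ J, p = ex (one2 A.om) (fun l i => MvPolynomial.X (Sum.inl (J l, i))) -
      MvPolynomial.C (b J)) ∨
    (∃ J, p = ex φ (fun l i => MvPolynomial.X (Sum.inl (J l, i))) - MvPolynomial.C (a J)) ∨
    (∃ r s, p = (∑ i, MvPolynomial.X (Sum.inl (r, i)) * MvPolynomial.X (Sum.inr (i, s))) -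
      MvPolynomial.C (if r = s then 1 else 0)) ∨
    ∃ i j, p = (∑ r, MvPolynomial.X (Sum.inr (i, r)) * MvPolynomial.X (Sum.inl (r, j))) -
      MvPolynomial.C (if i = j then 1 else 0)}
  obtain ⟨w, hw⟩ := exists_qbar S (z := Sum.elim (fun p => ρ * D p.1 p.2)
      (fun p => ρ⁻¹ * cM A.toAbVar p.1 p.2)) (by
    rintro p (⟨J, rfl⟩ | ⟨J, rfl⟩ | ⟨r, s, rfl⟩ | ⟨i, j, rfl⟩)
    · rw [eq_iff]
      exact ex_sol A.toAbVar hD2 hρ _ hb J
    · rw [eq_iff]
      exact ex_sol A.toAbVar hD2 hρ _ ha J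
    · rw [map_sub, map_sum, MvPolynomial.aeval_C]
      simp only [map_mul, MvPolynomial.aeval_X, Sum.elim_inl, Sum.elim_inr]
      have h1 := congrFun (congrFun hD2 r) s
      rw [Matrix.mul_apply, Matrix.one_apply] at h1
      have h2 : ∑ i, ρ * D r i * (ρ⁻¹ * cM A.toAbVar i s) = ∑ i, D r i * cM A.toAbVar i s := by
        refine Finset.sum_congr rfl fun i _ => ?_
        field_simp
      rw [h2, h1]
      split_ifs <;> simp
    · rw [map_sub, map_sum, MvPolynomial.aeval_C]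
      simp only [map_mul, MvPolynomial.aeval_X, Sum.elim_inl, Sum.elim_inr]
      have h1 := congrFun (congrFun hD1 i) j
      rw [Matrix.mul_apply, Matrix.one_apply] at h1
      have h2 : ∑ r, ρ⁻¹ * cM A.toAbVar i r * (ρ * D r j) = ∑ r, cM A.toAbVar i r * D r j := by
        refine Finset.sum_congr rfl fun i _ => ?_
        field_simp
      rw [h2, h1]
      split_ifs <;> simp)
  -- the algebraic solution
  let T : Matrix (Fin g ⊕ Fin g) (Fin (2 * g)) ℂ :=
    Matrix.of fun r i => algebraMap QBar ℂ (w (Sum.inl (r, i)))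
  let T' : Matrix (Fin (2 * g)) (Fin g ⊕ Fin g) ℂ :=
    Matrix.of fun i r => algebraMap QBar ℂ (w (Sum.inr (i, r)))
  have hT1 : T * T' = 1 := by
    ext r s
    have h1 := hw _ (Or.inr (Or.inr (Or.inl ⟨r, s, rfl⟩)))
    rw [map_sub, map_sum, MvPolynomial.aeval_C, sub_eq_zero] at h1
    simp only [map_mul, MvPolynomial.aeval_X] at h1
    have h2 := congrArg (algebraMap QBar ℂ) h1
    rw [map_sum] at h2
    rw [Matrix.mul_apply, Matrix.one_apply]
    simp only [map_mul] at h2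
    refine h2.trans ?_
    split_ifs <;> simp
  have hT2 : T' * T = 1 := by
    ext r s
    have h1 := hw _ (Or.inr (Or.inr (Or.inr ⟨r, s, rfl⟩)))
    rw [map_sub, map_sum, MvPolynomial.aeval_C, sub_eq_zero] at h1
    simp only [map_mul, MvPolynomial.aeval_X] at h1
    have h2 := congrArg (algebraMap QBar ℂ) h1
    rw [map_sum] at h2
    rw [Matrix.mul_apply, Matrix.one_apply]
    simp only [map_mul] at h2
    refine h2.trans ?_
    split_ifs <;> simp
  -- the similitude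
  have hmul : ∀ {m' : ℕ} (ψ : MultilinearMap ℚ (fun _ : Fin m' × Fin 2 => A.H1) ℚ)
      {a' : (Fin m' × Fin 2 → Fin g ⊕ Fin g) → QBar},
      (∀ K, tau ^ m' * algebraMap ℚ ℂ (co ψ K) =
        ∑ J, algebraMap QBar ℂ (a' J) * ∏ l, cM A.toAbVar (K l) (J l)) →
      (∀ J, ex ψ (fun l => T (J l)) = algebraMap QBar ℂ (a' J)) →
      Mul ψ (cM A.toAbVar * T) (tau ^ m') := by
    intro m' ψ a' h1 h2 K
    have h3 := ex_sum ψ (fun l r => cM A.toAbVar (K l) r) T
    have h4 : (fun l => (cM A.toAbVar * T) (K l)) =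
        fun l i => ∑ r, cM A.toAbVar (K l) r * T r i := rfl
    rw [h4, h3, h1]
    refine Finset.sum_congr rfl fun J _ => ?_
    rw [h2, mul_comm]
  have hsol : ∀ {m' : ℕ} (ψ : MultilinearMap ℚ (fun _ : Fin m' × Fin 2 => A.H1) ℚ)
      (J : Fin m' × Fin 2 → Fin g ⊕ Fin g) (q : QBar),
      ex ψ (fun l i => w (Sum.inl (J l, i))) = algebraMap QBar QBar q →
      ex ψ (fun l => T (J l)) = algebraMap QBar ℂ q := by
    intro m' ψ J q h
    have h1 := congrArg (algebraMap QBar ℂ) h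
    rw [map_ex] at h1
    exact h1
  have hx : periodMatrix A u v ℓ * T.submatrix (eD g).symm (eB g).symm =
      (cM A.toAbVar * T).submatrix (eB g).symm (eB g).symm := by
    rw [← Matrix.submatrix_mul_equiv (cM A.toAbVar) T (eB g).symm (eD g).symm (eB g).symm,
      ← period_sub A u v ℓ, Matrix.submatrix_submatrix]
    congr 1
    ext i j
    simp
  have hinv : ∀ {M N : Matrix (Fin (2 * g)) (Fin (2 * g)) ℂ}, M * N = 1 →
      M.submatrix (eB g).symm (eB g).symm * N.submatrix (eB g).symm (eB g).symm = 1 := by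
    intro M N h
    rw [Matrix.submatrix_mul_equiv, h, Matrix.submatrix_one_equiv]
  have h12 : (cM A.toAbVar * T) * (T' * D) = 1 := by
    rw [Matrix.mul_assoc, ← Matrix.mul_assoc T, hT1, Matrix.one_mul, hD1]
  have h21 : (T' * D) * (cM A.toAbVar * T) = 1 := by
    rw [Matrix.mul_assoc, ← Matrix.mul_assoc D, hD2, Matrix.one_mul, hT2]
  let x : GL (Betti g 0 0) ℂ := ⟨(cM A.toAbVar * T).submatrix (eB g).symm (eB g).symm,
    (T' * D).submatrix (eB g).symm (eB g).symm, hinv h12, hinv h21⟩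
  have hsx : sub (x : Matrix (Betti g 0 0) (Betti g 0 0) ℂ) = cM A.toAbVar * T := by
    ext i j
    simp [x, sub]
  refine ⟨T.submatrix (eD g).symm (eB g).symm, fun i j => QBar.alg _, x, ⟨tau, AbVar.tau_ne, ?_, ?_⟩,
    hx.symm⟩
  · rw [hsx, ← pow_one tau]
    exact hmul _ hb fun J => hsol _ J _ ((eq_iff _ _ _ _).1 (hw _ (Or.inl ⟨J, rfl⟩)))
  · rw [hsx]
    exact hmul _ ha fun J => hsol _ J _ ((eq_iff _ _ _ _).1 (hw _ (Or.inr (Or.inl ⟨J, rfl⟩))))

end Pool.Agent.NH88.CM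

end
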