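import Pool.Agent.NH88.CM.ConvB

set_option autoImplicit false
set_option linter.unusedSectionVars false
set_option linter.unusedVariables false

/-!
# The Deligne torus of an abelian variety, and the converse
-/

open Module Matrix Pool.Agent.Y102 Pool.Agent.R917.OM Pool.Agent.R917.BX Pool.Agent.W516.DR
  Pool.Agent.H204R3.GP Pool.Agent.R917.DT Pool.Agent.Results.MP_5d33ca_ag.OneMotivesMumfordTate

noncomputable section

namespace Pool.Agent.NH88.CM

variable {g : ℕ} (A : AbVar g)

/-- The multiplication by `z` on the tangent space, in the basis of the lattice. -/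
def Mz (z : ℂ) : Matrix (Fin (2 * g)) (Fin (2 * g)) ℝ :=
  Matrix.of fun j r => A.lam.repr (z • A.lam j) r

/-- The complex matrix. -/
def MzC (z : ℂ) : Matrix (Fin (2 * g)) (Fin (2 * g)) ℂ := (Mz A z).map Complex.ofRealHom

theorem smul_lam (z : ℂ) (j : Fin (2 * g)) : z • A.lam j = ∑ r, Mz A z j r • A.lam r :=
  (A.lam.sum_repr (z • A.lam j)).symm

theorem MzC_sum (z : ℂ) (j : Fin (2 * g)) (k : Fin g) :
    ∑ r, MzC A z j r * A.lam r k = z * A.lam j k := by
  have h1 := congrFun (smul_lam A z j) k
  rw [Finset.sum_apply] at h1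
  rw [Pi.smul_apply, smul_eq_mul] at h1
  rw [h1]
  refine Finset.sum_congr rfl fun r _ => ?_
  rw [Pi.smul_apply, Complex.real_smul]
  rfl

theorem MzC_sum' (z : ℂ) (j : Fin (2 * g)) (k : Fin g) :
    ∑ r, MzC A z j r * (starRingEnd ℂ) (A.lam r k) = (starRingEnd ℂ) z * (starRingEnd ℂ) (A.lam j k) := by
  have h1 := congrArg (starRingEnd ℂ) (MzC_sum A z j k)
  rw [map_sum, map_mul] at h1
  rw [← h1]
  refine Finset.sum_congr rfl fun r _ => ?_
  rw [map_mul]
  congr 1
  exact (Complex.conj_ofReal _).symm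

theorem Mz_mul (z w : ℂ) : Mz A z * Mz A w = Mz A (z * w) := by
  ext j s
  rw [Matrix.mul_apply]
  change _ = A.lam.repr ((z * w) • A.lam j) s
  rw [mul_comm z w, mul_smul, smul_lam A z j, Finset.smul_sum, map_sum, Finsupp.finsetSum_apply]
  refine Finset.sum_congr rfl fun r _ => ?_
  rw [smul_comm, map_smul, Finsupp.smul_apply, smul_eq_mul]
  rfl

theorem Mz_one : Mz A 1 = 1 := by
  ext j s
  change A.lam.repr ((1 : ℂ) • A.lam j) s = _
  rw [one_smul, Basis.repr_self, Matrix.one_apply, Finsupp.single_apply]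

theorem MzC_mul (z w : ℂ) : MzC A z * MzC A w = MzC A (z * w) := by
  unfold MzC
  rw [← Mz_mul, Matrix.map_mul]

theorem MzC_one : MzC A 1 = 1 := by
  unfold MzC
  rw [Mz_one]
  exact Matrix.map_one _ (map_zero _) (map_one _)

/-- Independence of the holomorphic and antiholomorphic coordinates. -/
theorem indep {y : Fin (2 * g) → ℂ} (h1 : ∀ k, ∑ j, y j * A.lam j k = 0)
    (h2 : ∀ k, ∑ j, y j * (starRingEnd ℂ) (A.lam j k) = 0) : y = 0 := by
  have h3 : ∀ k, ∑ j, (starRingEnd ℂ) (y j) * A.lam j k = 0 := by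
    intro k
    have h4 := congrArg (starRingEnd ℂ) (h2 k)
    rw [map_sum, map_zero] at h4
    rw [← h4]
    refine Finset.sum_congr rfl fun j _ => ?_
    rw [map_mul, Complex.conj_conj]
  have hli := A.lam.linearIndependent
  rw [Fintype.linearIndependent_iff] at hli
  have hre : ∀ j, (y j).re = 0 := by
    refine hli (fun j => (y j).re) ?_
    funext k
    rw [Finset.sum_apply, Pi.zero_apply]
    have h4 : ∑ j, ((fun j => (y j).re) j • A.lam j) k =
        (∑ j, y j * A.lam j k + ∑ j, (starRingEnd ℂ) (y j) * A.lam j k) / 2 := by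
      rw [← Finset.sum_add_distrib, Finset.sum_div]
      refine Finset.sum_congr rfl fun j _ => ?_
      rw [Pi.smul_apply, Complex.real_smul, ← add_mul, Complex.add_conj]
      push_cast
      ring
    rw [h4, h1, h3, add_zero, zero_div]
  have him : ∀ j, (y j).im = 0 := by
    refine hli (fun j => (y j).im) ?_
    funext k
    rw [Finset.sum_apply, Pi.zero_apply]
    have h4 : ∑ j, ((fun j => (y j).im) j • A.lam j) k =
        (∑ j, y j * A.lam j k - ∑ j, (starRingEnd ℂ) (y j) * A.lam j k) / (2 * Complex.I) := by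
      rw [← Finset.sum_sub_distrib, Finset.sum_div]
      refine Finset.sum_congr rfl fun j _ => ?_
      rw [Pi.smul_apply, Complex.real_smul, ← _root_.sub_mul, Complex.sub_conj]
      push_cast
      field_simp
    rw [h4, h1, h3, sub_zero, zero_div]
  funext j
  exact Complex.ext (hre j) (him j)

section vectors

variable {A}

theorem vecMul_sub (x : Betti g 0 0 → ℂ) (M : Matrix (Fin (2 * g)) (Fin (2 * g)) ℂ)
    (r : Fin (2 * g)) :
    (x ᵥ* M.submatrix (eB g).symm (eB g).symm) (Sum.inl r) = ∑ j, x (Sum.inl j) * M j r := by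
  change ∑ i : Betti g 0 0, x i * M ((eB g).symm i) ((eB g).symm (Sum.inl r)) = _
  rw [← (eB g).sum_comp]
  refine Finset.sum_congr rfl fun j _ => ?_
  rw [Equiv.symm_apply_apply]
  rfl

theorem ext_inl {x y : Betti g 0 0 → ℂ} (h : ∀ j, x (Sum.inl j) = y (Sum.inl j)) : x = y := by
  funext i
  rcases i with j | l | l
  · exact h j
  · exact l.elim0
  · exact l.elim0

end vectors

section deligne

variable (A : AbVarG g) {u : Fin 0 → Fin g → ℂ} {v : Fin 0 → Fin g → ℂ} {ℓ : Fin 0 → Fin 0 → ℂ}

theorem F0_iff (x : Betti g 0 0 → ℂ) :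
    F0 A u v ℓ x ↔ ∀ k, ∑ j, x (Sum.inl j) * A.lam j k = 0 := by
  unfold F0
  have h1 : ∀ k : Fin g, ∑ r, x r * periodMatrix A u v ℓ r (Sum.inl (Sum.inl k)) =
      ∑ j, x (Sum.inl j) * A.lam j k := by
    intro k
    rw [← (eB g).sum_comp]
    rfl
  constructor
  · rintro ⟨h2, _⟩ k
    rw [← h1]
    exact h2 k
  · intro h2
    exact ⟨fun k => by rw [h1]; exact h2 k, fun l => l.elim0⟩

/-- The matrix of the element `z` of the Deligne torus. -/
theorem isDeligne (z : ℂ) :
    IsDeligne A u v ℓ z ((MzC A.toAbVar z).submatrix (eB g).symm (eB g).symm) := by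
  have key : ∀ x, F0 A u v ℓ x → x ᵥ* (MzC A.toAbVar z).submatrix (eB g).symm (eB g).symm =
      (starRingEnd ℂ) z • x := by
    intro x hx
    rw [F0_iff] at hx
    refine ext_inl fun r => ?_
    rw [← sub_eq_zero]
    have h1 : (fun r => (x ᵥ* (MzC A.toAbVar z).submatrix (eB g).symm (eB g).symm) (Sum.inl r) -
        ((starRingEnd ℂ) z • x) (Sum.inl r)) = 0 := by
      refine indep A.toAbVar (fun k => ?_) fun k => ?_
      · simp only [vecMul_sub, Pi.smul_apply, smul_eq_mul, _root_.sub_mul, Finset.sum_sub_distrib,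
          Finset.sum_mul]
        rw [Finset.sum_comm]
        have h2 : ∀ j, ∑ r, x (Sum.inl j) * MzC A.toAbVar z j r * A.lam r k =
            z * (x (Sum.inl j) * A.lam j k) := by
          intro j
          simp only [mul_assoc]
          rw [← Finset.mul_sum, MzC_sum]
          ring
        rw [Finset.sum_congr rfl fun j _ => h2 j, ← Finset.mul_sum, hx, mul_zero, zero_sub]
        simp only [mul_assoc]
        rw [← Finset.mul_sum, hx, mul_zero, neg_zero]
      · simp only [vecMul_sub, Pi.smul_apply, smul_eq_mul, _root_.sub_mul, Finset.sum_sub_distrib,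
          Finset.sum_mul]
        rw [Finset.sum_comm, ← Finset.sum_sub_distrib]
        refine Finset.sum_eq_zero fun j _ => ?_
        simp only [mul_assoc]
        rw [← Finset.mul_sum, MzC_sum']
        ring
    exact congrFun h1 r
  have hW2 : ∀ w : Betti g 0 0 → ℂ, W2 w → w = 0 := fun w hw => ext_inl hw.1
  refine ⟨fun x y w hx hy hw hxy => ?_, fun x hx _ => key x hx, fun x hx _ => ?_, fun x hx => ?_⟩
  · rw [hW2 w hw, add_zero] at hxy
    have h1 : x = 0 := by
      have h2 : (fun j => x (Sum.inl j)) = 0 := by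
        refine indep A.toAbVar ((F0_iff A x).1 hx) fun k => ?_
        have h3 := congrArg (starRingEnd ℂ) ((F0_iff A y).1 hy k)
        rw [map_sum, map_zero] at h3
        rw [← h3]
        refine Finset.sum_congr rfl fun j _ => ?_
        rw [map_mul, hxy]
        rfl
      exact ext_inl fun j => congrFun h2 j
    rw [h1, Matrix.zero_vecMul]
  · have h1 := key x hx
    refine ext_inl fun r => ?_
    have h2 := congrArg (starRingEnd ℂ) (congrFun h1 (Sum.inl r))
    rw [vecMul_sub, map_sum, Pi.smul_apply, smul_eq_mul, map_mul, Complex.conj_conj] at h2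
    rw [vecMul_sub, Pi.smul_apply, smul_eq_mul]
    change _ = z * (starRingEnd ℂ) (x (Sum.inl r))
    rw [← h2]
    refine Finset.sum_congr rfl fun j _ => ?_
    rw [map_mul]
    congr 1
    exact (Complex.conj_ofReal _).symm
  · rw [hW2 x hx, Matrix.zero_vecMul, smul_zero]

/-- Uniqueness. -/
theorem isDeligne_unique {z : ℂ} {N : Matrix (Betti g 0 0) (Betti g 0 0) ℂ}
    (h : IsDeligne A u v ℓ z N) : N = (MzC A.toAbVar z).submatrix (eB g).symm (eB g).symm := by
  have h0 := isDeligne A (u := u) (v := v) (ℓ := ℓ) z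
  have key : ∀ a, F0 A u v ℓ a → (a + bar a) ᵥ* N =
      (a + bar a) ᵥ* (MzC A.toAbVar z).submatrix (eB g).symm (eB g).symm := by
    intro a ha
    have hW1 : W1 a := fun i => i.elim0
    rw [Matrix.add_vecMul, Matrix.add_vecMul, h.zero_neg a ha hW1, h.neg_zero a ha hW1,
      h0.zero_neg a ha hW1, h0.neg_zero a ha hW1]
  ext i r
  obtain ⟨j, rfl⟩ := (eB g).surjective i
  let a : Betti g 0 0 → ℂ := fun b => ((if b = Sum.inl j then 1 else 0) +
    Complex.I * (MzC A.toAbVar Complex.I) j ((eB g).symm b)) / 2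
  have hbar : a + bar a = Pi.single (eB g j) 1 := by
    funext b
    rw [Pi.add_apply]
    change a b + (starRingEnd ℂ) (a b) = _
    have h1 : (starRingEnd ℂ) (a b) = ((if b = Sum.inl j then 1 else 0) -
        Complex.I * (MzC A.toAbVar Complex.I) j ((eB g).symm b)) / 2 := by
      have h2 : (starRingEnd ℂ) ((MzC A.toAbVar Complex.I) j ((eB g).symm b)) =
          (MzC A.toAbVar Complex.I) j ((eB g).symm b) := Complex.conj_ofReal _
      change (starRingEnd ℂ) (((if b = Sum.inl j then 1 else 0) +
        Complex.I * (MzC A.toAbVar Complex.I) j ((eB g).symm b)) / 2) = _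
      rw [map_div₀, map_add, map_mul, h2, Complex.conj_I]
      have h3 : (starRingEnd ℂ) (2 : ℂ) = 2 := Complex.conj_ofNat 2
      rw [h3]
      split_ifs
      · rw [map_one]
        ring
      · rw [map_zero]
        ring
    rw [h1, Pi.single_apply, eB_apply]
    change ((if b = Sum.inl j then 1 else 0) +
      Complex.I * (MzC A.toAbVar Complex.I) j ((eB g).symm b)) / 2 + _ = _
    ring
  have ha : F0 A u v ℓ a := by
    rw [F0_iff]
    intro k
    have h1 : ∀ q, a (Sum.inl q) * A.lam q k = ((if q = j then A.lam q k else 0) +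
        Complex.I * (MzC A.toAbVar Complex.I j q * A.lam q k)) / 2 := by
      intro q
      change ((if (Sum.inl q : Betti g 0 0) = Sum.inl j then 1 else 0) +
        Complex.I * (MzC A.toAbVar Complex.I) j ((eB g).symm (eB g q))) / 2 * _ = _
      rw [Equiv.symm_apply_apply]
      by_cases hq : q = j
      · rw [if_pos hq, if_pos (by rw [hq])]
        ring
      · rw [if_neg hq, if_neg (fun h5 => hq (Sum.inl_injective h5))]
        ring
    rw [Finset.sum_congr rfl fun q _ => h1 q, ← Finset.sum_div, Finset.sum_add_distrib,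
      ← Finset.mul_sum, MzC_sum, Finset.sum_ite_eq' Finset.univ j, if_pos (Finset.mem_univ j),
      ← mul_assoc, Complex.I_mul_I]
    ring
  have h1 := congrFun (key a ha) r
  rw [hbar, Matrix.single_one_vecMul, Matrix.single_one_vecMul] at h1
  exact h1

end deligne

end Pool.Agent.NH88.CM

end
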