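import Pool.Agent.NH88.CM.ConvC

set_option autoImplicit false
set_option linter.unusedSectionVars false
set_option linter.unusedVariables false

/-!
# The converse: the torsors determine the de Rham-Betti classes
-/

open Module Matrix Pool.Agent.Y102 Pool.Agent.R917.OM Pool.Agent.R917.BX Pool.Agent.W516.DR
  Pool.Agent.H204R3.GP Pool.Agent.R917.DT Pool.Agent.Results.MP_5d33ca_ag.OneMotivesMumfordTate

noncomputable section

namespace Pool.Agent.NH88.CM

variable {g : ℕ} (A : AbVar g)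

theorem per_single (j : Fin (2 * g)) : A.per (Pi.single j 1) = A.lam j := by
  unfold AbVar.per
  rw [Fintype.linearCombination_apply_single, one_smul]

/-- The real extension. -/
theorem exists_real {m : ℕ} (φ : MultilinearMap ℚ (fun _ : Fin m × Fin 2 => A.H1) ℚ) :
    ∃ Ψ : MultilinearMap ℝ (fun _ : Fin m × Fin 2 => (Fin g → ℂ)) ℝ,
      ∀ v : Fin m × Fin 2 → A.H1, Ψ (fun l => A.per (v l)) = φ v := by
  refine ⟨∑ J : Fin m × Fin 2 → Fin (2 * g), (co φ J : ℝ) •
    (MultilinearMap.mkPiAlgebra ℝ (Fin m × Fin 2) ℝ).compLinearMap (fun l => A.lam.coord (J l)),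
    fun v => ?_⟩
  have h1 : ∀ (w : A.H1) j, A.lam.coord j (A.per w) = (w j : ℝ) := by
    intro w j
    unfold AbVar.per
    rw [Fintype.linearCombination_apply, map_sum]
    have h2 : ∀ i, A.lam.coord j (w i • A.lam i) = if i = j then (w i : ℝ) else 0 := by
      intro i
      have h3 : w i • A.lam i = (w i : ℝ) • A.lam i := by
        funext k
        rw [Pi.smul_apply, Pi.smul_apply, Complex.real_smul, Algebra.smul_def]
        congr 1
      rw [h3, map_smul, Basis.coord_apply, Basis.repr_self, Finsupp.single_apply, smul_eq_mul]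
      split_ifs
      · rw [mul_one]
      · rw [mul_zero]
    rw [Finset.sum_congr rfl fun i _ => h2 i, Finset.sum_ite_eq' Finset.univ j,
      if_pos (Finset.mem_univ j)]
  rw [_root_.sum_apply, ← ex_rat (φ := φ) v]
  unfold ex
  push_cast
  refine Finset.sum_congr rfl fun J _ => ?_
  change (co φ J : ℝ) * (MultilinearMap.mkPiAlgebra ℝ (Fin m × Fin 2) ℝ)
    (fun l => A.lam.coord (J l) (A.per (v l))) = _
  rw [MultilinearMap.mkPiAlgebra_apply]
  simp only [h1]
  rfl

/-- The extension on the multiples of the basis vectors. -/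
theorem real_rows {m : ℕ} {φ : MultilinearMap ℚ (fun _ : Fin m × Fin 2 => A.H1) ℚ}
    {Ψ : MultilinearMap ℝ (fun _ : Fin m × Fin 2 => (Fin g → ℂ)) ℝ}
    (hΨ : ∀ v : Fin m × Fin 2 → A.H1, Ψ (fun l => A.per (v l)) = φ v) (z : ℂ)
    (K : Fin m × Fin 2 → Fin (2 * g)) :
    ((Ψ (fun l => z • A.lam (K l)) : ℝ) : ℂ) = ex φ fun l => MzC A z (K l) := by
  have h1 : (fun l => z • A.lam (K l)) = fun l => ∑ r, Mz A z (K l) r • A.lam r :=
    funext fun l => smul_lam A z (K l)
  rw [h1, MultilinearMap.map_sum]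
  unfold ex
  push_cast
  refine Finset.sum_congr rfl fun J _ => ?_
  rw [MultilinearMap.map_smul_univ]
  have h2 : Ψ (fun l => A.lam (J l)) = (co φ J : ℝ) := by
    have h3 := hΨ (fun l => Pi.single (J l) 1)
    simp only [per_single] at h3
    exact h3
  rw [h2, smul_eq_mul]
  push_cast
  rw [mul_comm]
  rfl

/-- Hodge classes are invariant. -/
theorem mul_of_hodge {m : ℕ} {φ : MultilinearMap ℚ (fun _ : Fin m × Fin 2 => A.H1) ℚ}
    (h : IsHodgeTensor (A.per : A.H1 →+ (Fin g → ℂ)) φ) {z : ℂ} (hz : ‖z‖ = 1) :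
    Mul φ (MzC A z) 1 := by
  obtain ⟨Ψ, hΨ, hinv⟩ := h
  intro K
  rw [← real_rows A hΨ, hinv z hz, one_mul]
  have h3 := hΨ (fun l => Pi.single (K l) 1)
  have h4 : (fun l => (A.per : A.H1 →+ (Fin g → ℂ)) (Pi.single (K l) 1)) =
      fun l => A.lam (K l) := funext fun l => per_single A (K l)
  rw [h4] at h3
  rw [h3]
  exact Complex.ofReal_ratCast _

/-- Invariant classes are Hodge classes. -/
theorem hodge_of_mul {m : ℕ} {φ : MultilinearMap ℚ (fun _ : Fin m × Fin 2 => A.H1) ℚ}
    (h : ∀ z : ℂ, ‖z‖ = 1 → Mul φ (MzC A z) 1) :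
    IsHodgeTensor (A.per : A.H1 →+ (Fin g → ℂ)) φ := by
  obtain ⟨Ψ, hΨ⟩ := exists_real A φ
  refine ⟨Ψ, hΨ, fun z hz u => ?_⟩
  let mz : (Fin g → ℂ) →ₗ[ℝ] (Fin g → ℂ) :=
    { toFun := fun x => z • x
      map_add' := fun _ _ => smul_add _ _ _
      map_smul' := fun _ _ => smul_comm _ _ _ }
  have h1 : Ψ.compLinearMap (fun _ => mz) = Ψ := by
    refine Basis.ext_multilinear (fun _ => A.lam) fun K => ?_
    rw [MultilinearMap.compLinearMap_apply]
    change Ψ (fun l => z • A.lam (K l)) = _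
    have h2 := real_rows A hΨ z K
    rw [h z hz K, one_mul] at h2
    have h3 := hΨ (fun l => Pi.single (K l) 1)
    simp only [per_single] at h3
    rw [h3]
    have h4 : ((Ψ (fun l => z • A.lam (K l)) : ℝ) : ℂ) = (((co φ K : ℚ) : ℝ) : ℂ) := by
      rw [h2]
      exact (Complex.ofReal_ratCast _).symm
    exact Complex.ofReal_injective h4
  exact congrArg (fun F : MultilinearMap ℝ (fun _ : Fin m × Fin 2 => (Fin g → ℂ)) ℝ => F u) h1

/-- The invertible matrix. -/
def gz {z : ℂ} (hz : z ≠ 0) : GL (Betti g 0 0) ℂ where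
  val := (MzC A z).submatrix (eB g).symm (eB g).symm
  inv := (MzC A z⁻¹).submatrix (eB g).symm (eB g).symm
  val_inv := by
    rw [Matrix.submatrix_mul_equiv, MzC_mul, mul_inv_cancel₀ hz, MzC_one,
      Matrix.submatrix_one_equiv]
  inv_val := by
    rw [Matrix.submatrix_mul_equiv, MzC_mul, inv_mul_cancel₀ hz, MzC_one,
      Matrix.submatrix_one_equiv]

/-- **Theorem.** If the torsors of the abelian variety are the expected ones then the de Rham-Betti
classes are Hodge classes. -/
theorem allH_of_torsor (A : AbVarG g) (u : Fin 0 → Fin g → ℂ) (v : Fin 0 → Fin g → ℂ)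
    (ℓ : Fin 0 → Fin 0 → ℂ) (h : ∀ G : Subgroup (GL (Betti g 0 0) ℂ), IsAlgebraicSubgroup G →
      ContainsPeriods A u v ℓ G → mumfordTate A u v ℓ ≤ G) : AllH A.toAbVar := by
  intro m φ hφ
  rcases Nat.eq_zero_or_pos g with hg | hg
  · subst hg
    refine hodge_of_kills _ A.isRationalStructure φ fun Z _ w => ?_
    refine Finset.sum_eq_zero fun k _ => ?_
    refine φ.map_coord_zero k ?_
    rw [Function.update_self]
    funext i
    exact i.elim0
  · refine hodge_of_mul A.toAbVar fun z hz => ?_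
    have hz0 : z ≠ 0 := by
      intro h0
      rw [h0, norm_zero] at hz
      exact zero_ne_one hz
    have h1 := h (grp A.toAbVar φ) (grp_algebraic A.toAbVar φ hg) (contains_periods A hφ u v ℓ)
    have h2 : gz A.toAbVar hz0 ∈ mumfordTate A u v ℓ := by
      unfold mumfordTate
      rw [Subgroup.mem_sInf]
      rintro G ⟨_, hG⟩
      obtain ⟨x, hx, hxz⟩ := hG z hz0
      have h3 : x = gz A.toAbVar hz0 := Units.ext (isDeligne_unique A hxz)
      rwa [← h3]
    obtain ⟨ν, hν, h3, h4⟩ := h1 h2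
    have h5 : sub ((gz A.toAbVar hz0 : GL (Betti g 0 0) ℂ) :
        Matrix (Betti g 0 0) (Betti g 0 0) ℂ) = MzC A.toAbVar z := by
      ext i j
      change (MzC A.toAbVar z) ((eB g).symm (eB g i)) ((eB g).symm (eB g j)) = _
      rw [Equiv.symm_apply_apply, Equiv.symm_apply_apply]
    rw [h5] at h3 h4
    have h6 := mul_of_hodge A.toAbVar (one2_hodge _ _ A.isHodge_om) hz
    obtain ⟨K₀, hK₀⟩ := exists_co A.toAbVar hg
    have h7 : ν = 1 := by
      have h8 := (h3 K₀).symm.trans (h6 K₀)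
      refine mul_right_cancel₀ ?_ h8
      rw [map_ne_zero_iff _ (algebraMap ℚ ℂ).injective]
      exact hK₀
    rw [h7, one_pow] at h4
    exact h4

end Pool.Agent.NH88.CM

end
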