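import Pool.Agent.R917.DT.Na

set_option autoImplicit false
set_option linter.unusedSectionVars false
set_option linter.unusedVariables false

/-!
# Determinants as multilinear forms, and simultaneous diagonalization
-/

open Module Matrix

noncomputable section

namespace Pool.Agent.NH88.CM.T

section tr

variable {ι : Type} [Fintype ι] [DecidableEq ι]

/-- The derivative of the determinant. -/
theorem sum_det_updateRow (V Y : Matrix ι ι ℂ) :
    ∑ i, (V.updateRow i ((V * Y) i)).det = Y.trace * V.det := by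
  have h1 : ∀ i, (V.updateRow i ((V * Y) i)).det = ∑ j, V.adjugate j i * (V * Y) i j := by
    intro i
    rw [← Matrix.cramer_transpose_apply, Matrix.cramer_eq_adjugate_mulVec,
      ← Matrix.adjugate_transpose]
    rfl
  rw [Finset.sum_congr rfl fun i _ => h1 i]
  have h2 : ∑ i, ∑ j, V.adjugate j i * (V * Y) i j = (V.adjugate * (V * Y)).trace := by
    rw [Matrix.trace, Finset.sum_comm]
    refine Finset.sum_congr rfl fun j _ => ?_
    rw [Matrix.diag_apply, Matrix.mul_apply]
  rw [h2, ← Matrix.mul_assoc, Matrix.adjugate_mul, Matrix.smul_mul, Matrix.one_mul,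
    Matrix.trace_smul, smul_eq_mul, mul_comm]

end tr

/-- Idempotents are factored. -/
theorem exists_fact {n : ℕ} (P : Matrix (Fin n) (Fin n) ℂ) (hP : P * P = P) :
    ∃ (d : ℕ) (R : Matrix (Fin d) (Fin n) ℂ) (C : Matrix (Fin n) (Fin d) ℂ),
      R * C = 1 ∧ C * R = P := by
  classical
  let f : (Fin n → ℂ) →ₗ[ℂ] (Fin n → ℂ) := Matrix.toLin' P
  have hf : ∀ v, f (f v) = f v := by
    intro v
    change Matrix.toLin' P (Matrix.toLin' P v) = Matrix.toLin' P v
    rw [← Matrix.toLin'_mul_apply, hP]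
  let b := Module.finBasis ℂ (LinearMap.range f)
  let ρ : (Fin n → ℂ) →ₗ[ℂ] (Fin (finrank ℂ (LinearMap.range f)) → ℂ) :=
    (b.equivFun : LinearMap.range f →ₗ[ℂ] _) ∘ₗ f.rangeRestrict
  let γ : (Fin (finrank ℂ (LinearMap.range f)) → ℂ) →ₗ[ℂ] (Fin n → ℂ) :=
    (LinearMap.range f).subtype ∘ₗ (b.equivFun.symm : _ →ₗ[ℂ] LinearMap.range f)
  have h1 : ρ ∘ₗ γ = LinearMap.id := by
    refine LinearMap.ext fun x => ?_
    change b.equivFun (f.rangeRestrict ((b.equivFun.symm x : LinearMap.range f) : Fin n → ℂ)) = x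
    have h2 : f.rangeRestrict ((b.equivFun.symm x : LinearMap.range f) : Fin n → ℂ) =
        b.equivFun.symm x := by
      apply Subtype.ext
      obtain ⟨y, hy⟩ := (b.equivFun.symm x).2
      change f ((b.equivFun.symm x : LinearMap.range f) : Fin n → ℂ) = _
      rw [← hy, hf]
    rw [h2, LinearEquiv.apply_symm_apply]
  have h2 : γ ∘ₗ ρ = f := by
    refine LinearMap.ext fun x => ?_
    change ((b.equivFun.symm (b.equivFun (f.rangeRestrict x)) : LinearMap.range f) : Fin n → ℂ) = _
    rw [LinearEquiv.symm_apply_apply]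
    rfl
  refine ⟨_, LinearMap.toMatrix' ρ, LinearMap.toMatrix' γ, ?_, ?_⟩
  · rw [← LinearMap.toMatrix'_comp, h1, LinearMap.toMatrix'_id]
  · rw [← LinearMap.toMatrix'_comp, h2]
    exact LinearMap.toMatrix'_toLin' P

/-- Simultaneous diagonalization. -/
theorem exists_joint {n : ℕ} (L : List (Matrix (Fin n) (Fin n) ℂ))
    (hd : ∀ z ∈ L, ∃ s : Finset ℂ, Polynomial.aeval z (Lagrange.nodal s id) = 0)
    (hc : ∀ z ∈ L, ∀ w ∈ L, z * w = w * z) :
    ∃ (S : Type) (_ : Fintype S) (P : S → Matrix (Fin n) (Fin n) ℂ),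
      (∀ a, P a * P a = P a) ∧ ∑ a, P a = 1 ∧
      (∀ a Y, (∀ z ∈ L, z * Y = Y * z) → P a * Y = Y * P a) ∧
      ∀ z ∈ L, ∀ a, ∃ t : ℂ, z * P a = t • P a := by
  classical
  induction L with
  | nil =>
    refine ⟨Unit, inferInstance, fun _ => 1, fun _ => by rw [mul_one], ?_,
      fun _ Y _ => by rw [one_mul, mul_one], fun z hz => absurd hz List.not_mem_nil⟩
    simp
  | cons z L ih =>
    obtain ⟨S, _, P, h1, h2, h3, h4⟩ := ih (fun w hw => hd w (List.mem_cons_of_mem _ hw))
      (fun w hw w' hw' => hc w (List.mem_cons_of_mem _ hw) w' (List.mem_cons_of_mem _ hw'))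
    obtain ⟨s₀, hs₀⟩ := hd z List.mem_cons_self
    -- the set is not empty
    obtain ⟨s, hs, hne⟩ : ∃ s : Finset ℂ, Polynomial.aeval z (Lagrange.nodal s id) = 0 ∧
        s.Nonempty := by
      rcases s₀.eq_empty_or_nonempty with h | h
      · refine ⟨{0}, ?_, Finset.singleton_nonempty _⟩
        rw [h, Lagrange.nodal_empty, map_one] at hs₀
        rw [← one_mul (Polynomial.aeval z (Lagrange.nodal {0} id)), hs₀, zero_mul]
      · exact ⟨s₀, hs₀, h⟩
    let Q : s → Matrix (Fin n) (Fin n) ℂ := fun b =>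
      Polynomial.aeval z (Lagrange.basis s id (b : ℂ))
    have hQ1 : ∑ b, Q b = 1 := by
      change ∑ b : s, Polynomial.aeval z (Lagrange.basis s id (b : ℂ)) = 1
      rw [← map_sum, Finset.sum_coe_sort s (fun a => Lagrange.basis s id a),
        Lagrange.sum_basis Function.injective_id.injOn hne, map_one]
    have hzQ : ∀ b, z * Q b = (b : ℂ) • Q b := fun b =>
      Pool.Agent.R917.DT.lagrange_eig' hs b.2
    have hQQ : ∀ b, Q b * Q b = Q b := fun b => by
      have h5 := Pool.Agent.R917.DT.aeval_mul_eig' (hzQ b) (Lagrange.basis s id (b : ℂ))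
      change Q b * Q b = _ at h5
      rw [h5]
      have h6 : (Lagrange.basis s id (b : ℂ)).eval (b : ℂ) = 1 :=
        Lagrange.eval_basis_self (v := id) Function.injective_id.injOn b.2
      rw [h6, one_smul]
    have hQc : ∀ b Y, z * Y = Y * z → Q b * Y = Y * Q b := by
      intro b Y hY
      have h5 : ∀ q : Polynomial ℂ, Polynomial.aeval z q * Y = Y * Polynomial.aeval z q := by
        intro q
        induction q using Polynomial.induction_on with
        | C b => rw [Polynomial.aeval_C, Algebra.commutes]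
        | add p q hp hq => rw [map_add, add_mul, mul_add, hp, hq]
        | monomial n b ih =>
          rw [pow_succ, ← mul_assoc, map_mul, Polynomial.aeval_X, mul_assoc, hY, ← mul_assoc, ih,
            mul_assoc]
      exact h5 _
    have hzP : ∀ a, P a * z = z * P a := fun a => h3 a z fun w hw =>
      hc w (List.mem_cons_of_mem _ hw) z List.mem_cons_self
    have hPQ : ∀ a b, Q b * P a = P a * Q b := fun a b => hQc b _ (hzP a).symm
    refine ⟨S × s, inferInstance, fun p => P p.1 * Q p.2, fun p => ?_, ?_, fun p Y hY => ?_,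
      fun w hw p => ?_⟩
    · calc P p.1 * Q p.2 * (P p.1 * Q p.2) = P p.1 * (Q p.2 * P p.1) * Q p.2 := by
            simp only [mul_assoc]
        _ = P p.1 * P p.1 * (Q p.2 * Q p.2) := by
            rw [hPQ]
            simp only [mul_assoc]
        _ = P p.1 * Q p.2 := by rw [h1, hQQ]
    · rw [Fintype.sum_prod_type]
      simp only [← Finset.mul_sum, hQ1, mul_one]
      exact h2
    · beta_reduce
      rw [mul_assoc, hQc p.2 Y (hY z List.mem_cons_self), ← mul_assoc,
        h3 p.1 Y (fun w hw => hY w (List.mem_cons_of_mem _ hw)), mul_assoc]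
    · rcases List.mem_cons.1 hw with rfl | hw
      · refine ⟨p.2, ?_⟩
        beta_reduce
        rw [← mul_assoc, ← hzP, mul_assoc, hzQ, mul_smul_comm]
      · obtain ⟨t, ht⟩ := h4 w hw p.1
        refine ⟨t, ?_⟩
        beta_reduce
        rw [← mul_assoc, ht, smul_mul_assoc]

section form

variable {n : ℕ} {B : Type} [Fintype B] [DecidableEq B] {d : B → ℕ}
  (R : ∀ b, Matrix (Fin (d b)) (Fin n) ℂ)

/-- The rows of the block diagonal matrix. -/
def row (i : Σ b, Fin (d b)) : (Fin n → ℂ) →ₗ[ℂ] ((Σ b, Fin (d b)) → ℂ) where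
  toFun w j := if i.1 = j.1 then (R j.1 *ᵥ w) j.2 else 0
  map_add' w w' := by
    funext j
    rw [Pi.add_apply]
    split_ifs
    · rw [Matrix.mulVec_add]
      rfl
    · rw [add_zero]
  map_smul' c w := by
    funext j
    rw [Pi.smul_apply]
    split_ifs
    · rw [Matrix.mulVec_smul]
      rfl
    · rw [smul_zero]

/-- The determinant of the block diagonal matrix, a multilinear form. -/
def dform : MultilinearMap ℂ (fun _ : (Σ b, Fin (d b)) => (Fin n → ℂ)) ℂ :=
  (detRowAlternating : ((Σ b, Fin (d b)) → ℂ) [⋀^(Σ b, Fin (d b))]→ₗ[ℂ] ℂ).toMultilinearMap.compLinearMap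
    (fun i => row R i)

theorem dform_apply (v : (Σ b, Fin (d b)) → Fin n → ℂ) :
    dform R v = (Matrix.of fun i => row R i (v i)).det := rfl

theorem row_mulVec {X : Matrix (Fin n) (Fin n) ℂ} {Y : ∀ b, Matrix (Fin (d b)) (Fin (d b)) ℂ}
    (h : ∀ b, R b * X = Y b * R b) (i : Σ b, Fin (d b)) (w : Fin n → ℂ) :
    row R i (X *ᵥ w) = (row R i w) ᵥ* (blockDiagonal' fun b => (Y b)ᵀ) := by
  funext j
  obtain ⟨c, l⟩ := j
  change (if i.1 = c then (R c *ᵥ (X *ᵥ w)) l else 0) =
    ∑ k : (Σ b, Fin (d b)), row R i w k * blockDiagonal' (fun b => (Y b)ᵀ) k ⟨c, l⟩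
  rw [Fintype.sum_sigma, Finset.sum_eq_single c]
  · by_cases hi : i.1 = c
    · rw [if_pos hi, Matrix.mulVec_mulVec, h, ← Matrix.mulVec_mulVec]
      change ∑ k, Y c l k * (R c *ᵥ w) k = _
      refine Finset.sum_congr rfl fun k _ => ?_
      rw [blockDiagonal'_apply_eq, Matrix.transpose_apply]
      change _ = (if i.1 = c then (R c *ᵥ w) k else 0) * _
      rw [if_pos hi, mul_comm]
    · rw [if_neg hi]
      symm
      refine Finset.sum_eq_zero fun k _ => ?_
      change (if i.1 = c then (R c *ᵥ w) k else 0) * _ = 0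
      rw [if_neg hi, zero_mul]
  · intro b _ hb
    refine Finset.sum_eq_zero fun k _ => ?_
    rw [blockDiagonal'_apply_ne _ _ _ hb, mul_zero]
  · intro hc
    exact absurd (Finset.mem_univ c) hc

/-- The action of an endomorphism on the determinant. -/
theorem sum_dform {X : Matrix (Fin n) (Fin n) ℂ} {Y : ∀ b, Matrix (Fin (d b)) (Fin (d b)) ℂ}
    (h : ∀ b, R b * X = Y b * R b) (v : (Σ b, Fin (d b)) → Fin n → ℂ) :
    ∑ i, dform R (Function.update v i (X *ᵥ v i)) = (∑ b, (Y b).trace) * dform R v := by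
  have h1 := sum_det_updateRow (Matrix.of fun i => row R i (v i))
    (blockDiagonal' fun b => (Y b)ᵀ)
  rw [trace_blockDiagonal'] at h1
  simp only [Matrix.trace_transpose] at h1
  rw [dform_apply, ← h1]
  refine Finset.sum_congr rfl fun i _ => ?_
  rw [dform_apply]
  congr 1
  ext k l
  rw [Matrix.of_apply]
  by_cases hk : k = i
  · subst hk
    rw [Function.update_self, Matrix.updateRow_self, row_mulVec R h]
    rfl
  · rw [Function.update_of_ne hk, Matrix.updateRow_ne hk]
    rfl

/-- The determinant is not zero. -/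
theorem dform_ne {C : ∀ b, Matrix (Fin n) (Fin (d b)) ℂ} (h : ∀ b, R b * C b = 1) :
    dform R (fun i k => C i.1 k i.2) = 1 := by
  rw [dform_apply]
  have h1 : (Matrix.of fun i : (Σ b, Fin (d b)) => row R i (fun k => C i.1 k i.2)) = 1 := by
    ext ⟨b, k⟩ ⟨c, l⟩
    rw [Matrix.of_apply]
    change (if b = c then (R c *ᵥ (fun q => C b q k)) l else 0) = _
    by_cases hb : b = c
    · subst hb
      rw [if_pos rfl]
      have h2 := congrFun (congrFun (h b) l) k
      rw [Matrix.mul_apply] at h2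
      change ∑ q, R b l q * C b q k = _
      rw [h2, Matrix.one_apply, Matrix.one_apply]
      by_cases hk : l = k
      · subst hk
        rw [if_pos rfl, if_pos rfl]
      · rw [if_neg hk, if_neg]
        intro h3
        exact hk (eq_of_heq (Sigma.mk.inj h3).2).symm
    · rw [if_neg hb, Matrix.one_apply, if_neg]
      intro h3
      exact hb (Sigma.mk.inj h3).1
  rw [h1, Matrix.det_one]

/-- Vectors with rational coordinates. -/
def cst (n : ℕ) : (Fin n → ℚ) →ₗ[ℚ] (Fin n → ℂ) where
  toFun v i := (v i : ℂ)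
  map_add' v w := by
    funext i
    exact Rat.cast_add _ _
  map_smul' c v := by
    funext i
    change ((c * v i : ℚ) : ℂ) = c • (v i : ℂ)
    rw [Rat.cast_mul, Algebra.smul_def]
    rfl

/-- The restriction to the rational vectors. -/
def qform : MultilinearMap ℚ (fun _ : (Σ b, Fin (d b)) => (Fin n → ℚ)) ℂ :=
  ((dform R).restrictScalars ℚ).compLinearMap (fun _ => cst n)

theorem qform_apply (v : (Σ b, Fin (d b)) → Fin n → ℚ) :
    qform R v = dform R (fun i => cst n (v i)) := rfl

/-- The restriction is not zero. -/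
theorem qform_ne {C : ∀ b, Matrix (Fin n) (Fin (d b)) ℂ} (h : ∀ b, R b * C b = 1) :
    ∃ v, qform R v ≠ 0 := by
  by_contra hcon
  push Not at hcon
  have h1 : dform R = 0 := by
    refine Basis.ext_multilinear (fun _ => Pi.basisFun ℂ (Fin n)) fun f => ?_
    have h2 := hcon (fun i => Pi.single (f i) 1)
    rw [qform_apply] at h2
    rw [_root_.zero_apply, ← h2]
    congr 1
    funext i
    rw [Pi.basisFun_apply]
    funext k
    change _ = ((Pi.single (f i) (1 : ℚ) : Fin n → ℚ) k : ℂ)
    by_cases hk : k = f i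
    · rw [hk, Pi.single_eq_same, Pi.single_eq_same, Rat.cast_one]
    · rw [Pi.single_eq_of_ne hk, Pi.single_eq_of_ne hk, Rat.cast_zero]
  have h2 := dform_ne R h
  rw [h1, _root_.zero_apply] at h2
  exact one_ne_zero h2.symm

end form

end Pool.Agent.NH88.CM.T

end
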