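import Pool.Agent.R917.DT.Na

set_option autoImplicit false
set_option linter.unusedSectionVars false
set_option linter.unusedVariables false

/-!
# Multilinear forms in coordinates, and points over the field of algebraic numbers
-/

open Module Matrix

noncomputable section

namespace Pool.Agent.NH88.CM

open Pool.Agent.Y102

/-- Systems of polynomial equations with a complex solution have a solution in algebraic numbers. -/
theorem exists_qbar {σ : Type} [Finite σ] (S : Set (MvPolynomial σ QBar)) {z : σ → ℂ}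
    (hz : ∀ p ∈ S, MvPolynomial.aeval z p = 0) :
    ∃ w : σ → QBar, ∀ p ∈ S, MvPolynomial.aeval w p = 0 := by
  have h1 : Ideal.span S ≠ ⊤ := by
    intro h
    have h2 : Ideal.span S ≤ RingHom.ker (MvPolynomial.aeval z : MvPolynomial σ QBar →ₐ[QBar] ℂ) :=
      Ideal.span_le.2 fun p hp => hz p hp
    have h3 : (1 : MvPolynomial σ QBar) ∈ RingHom.ker
        (MvPolynomial.aeval z : MvPolynomial σ QBar →ₐ[QBar] ℂ) := h2 (by
      rw [h]
      exact Submodule.mem_top)
    rw [RingHom.mem_ker, map_one] at h3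
    exact one_ne_zero h3
  by_contra hcon
  push Not at hcon
  have h4 : MvPolynomial.zeroLocus QBar (Ideal.span S) = ∅ := by
    ext w
    simp only [Set.mem_empty_iff_false, iff_false]
    intro hw
    obtain ⟨p, hp, hpw⟩ := hcon w
    exact hpw (MvPolynomial.mem_zeroLocus_iff.1 hw p (Ideal.subset_span hp))
  have h5 := MvPolynomial.vanishingIdeal_zeroLocus_eq_radical (k := QBar) (K := QBar)
    (Ideal.span S)
  rw [h4, MvPolynomial.vanishingIdeal_empty] at h5
  exact h1 (Ideal.radical_eq_top.1 h5.symm)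

variable {n : ℕ} {κ : Type} [Fintype κ] [DecidableEq κ]

/-- The coefficients of a form. -/
def co (φ : MultilinearMap ℚ (fun _ : κ => (Fin n → ℚ)) ℚ) (J : κ → Fin n) : ℚ :=
  φ fun l => Pi.single (J l) 1

/-- The values of the form on vectors with coordinates in an algebra. -/
def ex {R : Type} [CommRing R] [Algebra ℚ R] (φ : MultilinearMap ℚ (fun _ : κ => (Fin n → ℚ)) ℚ)
    (x : κ → Fin n → R) : R :=
  ∑ J : κ → Fin n, algebraMap ℚ R (co φ J) * ∏ l, x l (J l)

variable {R : Type} [CommRing R] [Algebra ℚ R] (φ : MultilinearMap ℚ (fun _ : κ => (Fin n → ℚ)) ℚ)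

theorem ex_single (K : κ → Fin n) : ex φ (fun l => Pi.single (K l) (1 : R)) =
    algebraMap ℚ R (co φ K) := by
  unfold ex
  rw [Finset.sum_eq_single K]
  · simp
  · intro J _ hJ
    obtain ⟨l, hl⟩ : ∃ l, J l ≠ K l := by
      by_contra hc
      push Not at hc
      exact hJ (funext hc)
    rw [Finset.prod_eq_zero (Finset.mem_univ l), mul_zero]
    beta_reduce
    exact Pi.single_eq_of_ne hl _
  · intro h
    exact absurd (Finset.mem_univ _) h

/-- Linear substitutions. -/
theorem ex_sum {ρ : Type} [Fintype ρ] (y : κ → ρ → R) (M : ρ → Fin n → R) :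
    ex φ (fun l i => ∑ r, y l r * M r i) = ∑ K : κ → ρ, (∏ l, y l (K l)) * ex φ (fun l => M (K l)) := by
  unfold ex
  have h1 : ∀ J : κ → Fin n, ∏ l, ∑ r, y l r * M r (J l) =
      ∑ K : κ → ρ, (∏ l, y l (K l)) * ∏ l, M (K l) (J l) := by
    intro J
    rw [Finset.prod_univ_sum, Fintype.piFinset_univ]
    refine Finset.sum_congr rfl fun K _ => ?_
    rw [Finset.prod_mul_distrib]
  simp only [h1, Finset.mul_sum]
  rw [Finset.sum_comm]
  refine Finset.sum_congr rfl fun K _ => Finset.sum_congr rfl fun J _ => ?_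
  ring

/-- Multiples of the form. -/
theorem ex_of_rows {M : Matrix (Fin n) (Fin n) R} {c : R}
    (h : ∀ K, ex φ (fun l => M (K l)) = c * algebraMap ℚ R (co φ K)) (x : κ → Fin n → R) :
    ex φ (fun l => x l ᵥ* M) = c * ex φ x := by
  have h1 := ex_sum φ x M
  have h2 : (fun l => x l ᵥ* M) = fun l i => ∑ r, x l r * M r i := rfl
  rw [h2, h1]
  unfold ex at h ⊢
  rw [Finset.mul_sum]
  refine Finset.sum_congr rfl fun K _ => ?_
  rw [h]
  ring

/-- The form is multiplied by `c` under `M`. -/
def Mul (M : Matrix (Fin n) (Fin n) R) (c : R) : Prop :=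
  ∀ K, ex φ (fun l => M (K l)) = c * algebraMap ℚ R (co φ K)

variable {φ}

theorem Mul.one : Mul φ (1 : Matrix (Fin n) (Fin n) R) 1 := by
  intro K
  rw [one_mul, ← ex_single]
  congr 1
  funext l i
  rw [Matrix.one_apply, Pi.single_apply]
  by_cases h : K l = i
  · rw [if_pos h, if_pos h.symm]
  · rw [if_neg h, if_neg (Ne.symm h)]

theorem Mul.mul {M N : Matrix (Fin n) (Fin n) R} {c d : R} (hM : Mul φ M c) (hN : Mul φ N d) :
    Mul φ (M * N) (c * d) := by
  intro K
  have h1 : (fun l => (M * N) (K l)) = fun l => M (K l) ᵥ* N := rfl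
  rw [h1, ex_of_rows φ hN, hM K]
  ring

theorem Mul.inv {M N : Matrix (Fin n) (Fin n) R} {c d : R} (hM : Mul φ M c) (h : N * M = 1)
    (hc : d * c = 1) : Mul φ N d := by
  intro K
  have h1 := ex_of_rows φ hM (fun l => N (K l))
  have h2 : (fun l => N (K l) ᵥ* M) = fun l => (1 : Matrix (Fin n) (Fin n) R) (K l) := by
    rw [← h]
    rfl
  rw [h2, Mul.one (φ := φ) K, one_mul] at h1
  rw [h1, ← mul_assoc, hc, one_mul]

/-- Algebra maps. -/
theorem map_ex {R' : Type} [CommRing R'] [Algebra ℚ R'] (f : R →+* R') (x : κ → Fin n → R) :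
    f (ex φ x) = ex φ (fun l i => f (x l i)) := by
  unfold ex
  rw [map_sum]
  refine Finset.sum_congr rfl fun J _ => ?_
  rw [map_mul, map_prod]
  congr 1
  exact congrArg (fun u : ℚ →+* R' => u (co φ J))
    (RingHom.ext_rat (f.comp (algebraMap ℚ R)) (algebraMap ℚ R'))

/-- The values on rational vectors. -/
theorem ex_rat (v : κ → Fin n → ℚ) : ex φ v = φ v := by
  have h1 : v = fun l => ∑ i, v l i • (Pi.single i 1 : Fin n → ℚ) := by
    funext l
    funext j
    rw [Finset.sum_apply]
    simp [Pi.single_apply]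
  conv_rhs => rw [h1]
  rw [MultilinearMap.map_sum]
  unfold ex
  refine Finset.sum_congr rfl fun J _ => ?_
  rw [MultilinearMap.map_smul_univ, smul_eq_mul, mul_comm]
  rfl

end Pool.Agent.NH88.CM

end
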