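import Pool.Agent.NH88.CM.Prod

set_option autoImplicit false
set_option linter.unusedSectionVars false
set_option linter.unusedVariables false

/-!
# Abelian varieties with rigid derived algebra
-/

open Module Function TensorProduct Matrix

noncomputable section

namespace Pool.Agent.NH88.CM

open Pool.Agent.Y102 Pool.Agent.W516.DR Pool.Agent.H204R3.GP Pool.Agent.W516.KC
  Pool.Agent.H204R3.SP Pool.Agent.TH119.MX Pool.Agent.R917.OM Pool.Agent.Y102.AbVar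
  Pool.Agent.R917.EC Pool.Agent.R917.DT Pool.Agent.NH25.PK Pool.Agent.R918.Sp

open Pool.Agent.Y102.SP (CE soE)

variable {g g₁ g₂ : ℕ} {A : AbVar g} {B : AbVar g₁} {C : AbVar g₂}
  {f : B.H1 →ₗ[ℚ] A.H1} {p : A.H1 →ₗ[ℚ] B.H1} {f' : C.H1 →ₗ[ℚ] A.H1} {p' : A.H1 →ₗ[ℚ] C.H1}
  {𝔥 : Submodule ℚ (Module.End ℚ A.H1)}

/-- The derived algebra is rigid. -/
def Rgd (B : AbVar g) : Prop :=
  ∀ 𝔥 : Submodule ℚ (Module.End ℚ B.H1), B.Full 𝔥 → der B.NA ≤ 𝔥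

/-- The derived algebras have no common quotients. -/
def Dsj (B : AbVar g₁) (C : AbVar g₂) : Prop :=
  ∀ 𝔰 : Submodule ℚ (Module.End ℚ B.H1 × Module.End ℚ C.H1),
    (∀ Z ∈ 𝔰, Z.1 ∈ der B.NA ∧ Z.2 ∈ der C.NA) → (∀ Z ∈ 𝔰, ∀ W ∈ 𝔰, Z * W - W * Z ∈ 𝔰) →
    (∀ X ∈ der B.NA, ∃ Y, (X, Y) ∈ 𝔰) → (∀ Y ∈ der C.NA, ∃ X, (X, Y) ∈ 𝔰) →
    ∀ X ∈ der B.NA, (X, 0) ∈ 𝔰

theorem der_mono {W : Type} [AddCommGroup W] [Module ℚ W] {S T : Submodule ℚ (Module.End ℚ W)}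
    (h : S ≤ T) : der S ≤ der T := by
  unfold der
  refine Submodule.span_mono ?_
  rintro _ ⟨X, hX, Y, hY, rfl⟩
  exact ⟨X, h hX, Y, h hY, rfl⟩

/-- The image of the derived algebra. -/
theorem der_map {a b : ℕ} {A : AbVar a} {B : AbVar b} {f : B.H1 →ₗ[ℚ] A.H1}
    {p : A.H1 →ₗ[ℚ] B.H1} (h : Fac B A f p) {𝔥 : Submodule ℚ (Module.End ℚ A.H1)}
    (hle : 𝔥 ≤ A.NA) : (der 𝔥).map (rs f p) = der (𝔥.map (rs f p)) := by
  unfold der
  rw [Submodule.map_span]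
  congr 1
  ext Z
  constructor
  · rintro ⟨_, ⟨X, hX, Y, hY, rfl⟩, rfl⟩
    refine ⟨_, ⟨X, hX, rfl⟩, _, ⟨Y, hY, rfl⟩, ?_⟩
    rw [map_sub, h.rs_mul (hle hY), h.rs_mul (hle hX)]
  · rintro ⟨_, ⟨X, hX, rfl⟩, _, ⟨Y, hY, rfl⟩, rfl⟩
    refine ⟨_, ⟨X, hX, Y, hY, rfl⟩, ?_⟩
    rw [map_sub, h.rs_mul (hle hY), h.rs_mul (hle hX)]

theorem der_le_der_of_rgd {a : ℕ} {B : AbVar a} (hB : Rgd B)
    {𝔥 : Submodule ℚ (Module.End ℚ B.H1)} (hF : B.Full 𝔥) : der B.NA ≤ der 𝔥 := by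
  have h1 := hB _ hF
  refine (Pool.Agent.R917.DT.full_NA (A := B)).perfect.trans ?_
  exact der_mono h1

/-- The bracket of two elements in a product. -/
theorem br_prd (h : Prd A B C f p f' p') {X Y : Module.End ℚ A.H1} (hX : X ∈ A.NA)
    (hY : Y ∈ A.NA) :
    X * Y - Y * X = f.comp ((rs f p X * rs f p Y - rs f p Y * rs f p X).comp p) +
      f'.comp ((rs f' p' X * rs f' p' Y - rs f' p' Y * rs f' p' X).comp p') := by
  have h1 := prd_dec h (A.NA_bracket hX hY)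
  rwa [map_sub, h.b.rs_mul hY, h.b.rs_mul hX, map_sub, h.c.rs_mul hY, h.c.rs_mul hX] at h1

/-- If the two derived algebras are contained in the subalgebra, then so is the derived algebra of
the product. -/
theorem rgd_of (h : Prd A B C f p f' p')
    (h1 : ∀ X ∈ der B.NA, f.comp (X.comp p) ∈ 𝔥) (h2 : ∀ Y ∈ der C.NA, f'.comp (Y.comp p') ∈ 𝔥) :
    der A.NA ≤ 𝔥 := by
  conv_lhs => unfold der
  rw [Submodule.span_le]
  rintro _ ⟨X, hX, Y, hY, rfl⟩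
  rw [br_prd h hX hY]
  refine 𝔥.add_mem (h1 _ ?_) (h2 _ ?_)
  · exact Submodule.subset_span ⟨_, h.b.rs_NA hX, _, h.b.rs_NA hY, rfl⟩
  · exact Submodule.subset_span ⟨_, h.c.rs_NA hX, _, h.c.rs_NA hY, rfl⟩

/-- **Products of rigid abelian varieties without common quotients.** -/
theorem rgd_prd (h : Prd A B C f p f' p') (hB : Rgd B) (hC : Rgd C) (hd : Dsj B C) : Rgd A := by
  intro 𝔥 hF
  have e1 := der_le_der_of_rgd hB (im_full h.b hF)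
  have e2 := der_le_der_of_rgd hC (im_full h.c hF)
  rw [← der_map h.b hF.le] at e1
  rw [← der_map h.c hF.le] at e2
  have i1 : ∀ Z ∈ der 𝔥, rs f p Z ∈ der B.NA := fun Z hZ => by
    have h1 : (der 𝔥).map (rs f p) ≤ der B.NA := by
      rw [der_map h.b hF.le]
      exact der_mono (im_full h.b hF).le
    exact h1 ⟨Z, hZ, rfl⟩
  have i2 : ∀ Z ∈ der 𝔥, rs f' p' Z ∈ der C.NA := fun Z hZ => by
    have h1 : (der 𝔥).map (rs f' p') ≤ der C.NA := by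
      rw [der_map h.c hF.le]
      exact der_mono (im_full h.c hF).le
    exact h1 ⟨Z, hZ, rfl⟩
  let 𝔰 : Submodule ℚ (Module.End ℚ B.H1 × Module.End ℚ C.H1) :=
    (der 𝔥).map ((rs f p).prod (rs f' p'))
  have hS : ∀ X ∈ der B.NA, (X, (0 : Module.End ℚ C.H1)) ∈ 𝔰 := by
    refine hd 𝔰 ?_ ?_ ?_ ?_
    · rintro _ ⟨Z, hZ, rfl⟩
      exact ⟨i1 Z hZ, i2 Z hZ⟩
    · rintro _ ⟨Z, hZ, rfl⟩ _ ⟨W, hW, rfl⟩
      have hZ' := hF.le (hF.der_le hZ)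
      have hW' := hF.le (hF.der_le hW)
      refine ⟨Z * W - W * Z, ?_, ?_⟩
      · exact Submodule.subset_span ⟨Z, hF.der_le hZ, W, hF.der_le hW, rfl⟩
      · refine Prod.ext ?_ ?_
        · change rs f p (Z * W - W * Z) = rs f p Z * rs f p W - rs f p W * rs f p Z
          rw [map_sub, h.b.rs_mul hW', h.b.rs_mul hZ']
        · change rs f' p' (Z * W - W * Z) = rs f' p' Z * rs f' p' W - rs f' p' W * rs f' p' Z
          rw [map_sub, h.c.rs_mul hW', h.c.rs_mul hZ']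
    · intro X hX
      obtain ⟨Z, hZ, rfl⟩ := e1 hX
      exact ⟨rs f' p' Z, Z, hZ, rfl⟩
    · intro Y hY
      obtain ⟨Z, hZ, rfl⟩ := e2 hY
      exact ⟨rs f p Z, Z, hZ, rfl⟩
  have hS' : ∀ Y ∈ der C.NA, ((0 : Module.End ℚ B.H1), Y) ∈ 𝔰 := by
    intro Y hY
    obtain ⟨Z, hZ, rfl⟩ := e2 hY
    have h1 := 𝔰.sub_mem (x := (rs f p Z, rs f' p' Z)) (y := (rs f p Z, 0)) ⟨Z, hZ, rfl⟩
      (hS _ (i1 Z hZ))
    rwa [Prod.mk_sub_mk, sub_self, sub_zero] at h1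
  refine rgd_of h (fun X hX => ?_) fun Y hY => ?_
  · obtain ⟨Z, hZ, hZX⟩ := hS X hX
    have h1 := congrArg Prod.fst hZX
    have h2 := congrArg Prod.snd hZX
    change rs f p Z = X at h1
    change rs f' p' Z = 0 at h2
    have h3 := prd_dec h (hF.le (hF.der_le hZ))
    rw [h1, h2, LinearMap.zero_comp, LinearMap.comp_zero, add_zero] at h3
    rw [← h3]
    exact hF.der_le hZ
  · obtain ⟨Z, hZ, hZX⟩ := hS' Y hY
    have h1 := congrArg Prod.fst hZX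
    have h2 := congrArg Prod.snd hZX
    change rs f p Z = 0 at h1
    change rs f' p' Z = Y at h2
    have h3 := prd_dec h (hF.le (hF.der_le hZ))
    rw [h1, h2, LinearMap.zero_comp, LinearMap.comp_zero, zero_add] at h3
    rw [← h3]
    exact hF.der_le hZ

/-- **Products with Kuga-Satake varieties.** -/
theorem rgd_sum (h : Prd A B C f p f' p') (hR : Rgd B) (hS : Small B) {m : ℕ}
    {d r : Fin m → ℕ} {P : ∀ i, Matrix (Fin (d i)) (Fin (2 * g₂)) ℂ}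
    {Q : ∀ i, Matrix (Fin (2 * g₂)) (Fin (d i)) ℂ}
    {E : ∀ i, Fin (r i) → Matrix (Fin (d i)) (Fin (d i)) ℂ} (hB : Blk P Q E)
    (hr : ∀ i, 6 ≤ r i) (hl : cx C.NA = soB (Pm P) (Qm Q) (Em E)) : Rgd A := by
  intro 𝔥 hF
  have h1 : ∀ Y ∈ C.NA, f'.comp (Y.comp p') ∈ 𝔥 := fun Y hY => mem_spin h hF hS hB hr hl hY
  refine rgd_of h (fun X hX => ?_) fun Y hY => h1 Y ((Pool.Agent.R917.DT.full_NA (A := C)).der_le hY)
  obtain ⟨Z, hZ, rfl⟩ := hR _ (im_full h.b hF) hX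
  have h2 := prd_dec h (hF.le hZ)
  have h3 := 𝔥.sub_mem hZ (h1 _ (h.c.rs_NA (hF.le hZ)))
  rwa [sub_eq_iff_eq_add.2 h2] at h3

end Pool.Agent.NH88.CM

end
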