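import Mathlib

set_option autoImplicit false
set_option linter.unusedSectionVars false

/-!
# Linear combinations of orthogonal projectors
-/

noncomputable section

namespace Pool.Agent.NH88.CM

open Finset

variable {R : Type} [Ring R] [Algebra ℂ R] {I : Type} [Fintype I]

theorem smul_inj' {q : R} (hq : q ≠ 0) {a b : ℂ} (hab : a • q = b • q) : a = b := by
  have h2 : (a - b) • q = 0 := by rw [sub_smul, hab, sub_self]
  rcases smul_eq_zero.1 h2 with h3 | h3
  · exact sub_eq_zero.1 h3
  · exact absurd h3 hq

/-- Orthogonal projectors with the sum one. -/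
structure Prj (P : I → R) : Prop where
  idem : ∀ i, P i * P i = P i
  orth : ∀ i j, i ≠ j → P i * P j = 0
  sum : ∑ i, P i = 1

/-- A linear combination of projectors. -/
def wt (P : I → R) (a : I → ℂ) : R := ∑ i, a i • P i

variable {P : I → R} (h : Prj P)
include h

theorem Prj.wt_mul (a : I → ℂ) (j : I) : wt P a * P j = a j • P j := by
  classical
  unfold wt
  rw [sum_mul, sum_eq_single j]
  · rw [smul_mul_assoc, h.idem]
  · intro i _ hij
    rw [smul_mul_assoc, h.orth i j hij, smul_zero]
  · intro hj
    exact absurd (mem_univ _) hj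

theorem Prj.wt_inj {a b : I → ℂ} (hab : wt P a = wt P b) {j : I} (hj : P j ≠ 0) : a j = b j := by
  have h1 := h.wt_mul a j
  rw [hab, h.wt_mul b j] at h1
  have h2 : (b j - a j) • P j = 0 := by rw [sub_smul, h1, sub_self]
  rcases smul_eq_zero.1 h2 with h3 | h3
  · exact (sub_eq_zero.1 h3).symm
  · exact absurd h3 hj

theorem Prj.aeval_mul {M : R} {j : I} {z : ℂ} (hM : M * P j = z • P j) (Q : Polynomial ℂ) :
    Polynomial.aeval M Q * P j = Q.eval z • P j := by
  induction Q using Polynomial.induction_on with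
  | C b =>
    rw [Polynomial.aeval_C, Polynomial.eval_C, Algebra.algebraMap_eq_smul_one, smul_mul_assoc,
      one_mul]
  | add p q hp hq => rw [map_add, add_mul, hp, hq, Polynomial.eval_add, add_smul]
  | monomial n b ih =>
    rw [pow_succ, ← mul_assoc, map_mul, Polynomial.aeval_X, mul_assoc, hM, mul_smul_comm, ih,
      smul_smul]
    congr 1
    simp only [Polynomial.eval_mul, Polynomial.eval_X]
    ring

theorem Prj.aeval_wt (a : I → ℂ) (Q : Polynomial ℂ) :
    Polynomial.aeval (wt P a) Q = wt P fun i => Q.eval (a i) := by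
  have h1 : Polynomial.aeval (wt P a) Q = ∑ i, Polynomial.aeval (wt P a) Q * P i := by
    rw [← mul_sum, h.sum, mul_one]
  rw [h1]
  exact sum_congr rfl fun i _ => h.aeval_mul (h.wt_mul a i) Q

omit h

theorem wt_add (a b : I → ℂ) : wt P (fun i => a i + b i) = wt P a + wt P b := by
  unfold wt
  rw [← sum_add_distrib]
  exact sum_congr rfl fun i _ => add_smul _ _ _

theorem wt_smul (z : ℂ) (a : I → ℂ) : wt P (fun i => z * a i) = z • wt P a := by
  unfold wt
  rw [smul_sum]
  exact sum_congr rfl fun i _ => mul_smul _ _ _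

theorem wt_zero : wt P (fun _ => 0) = 0 := by
  unfold wt
  exact sum_eq_zero fun i _ => zero_smul _ _

theorem map_wt {S : Type} [Ring S] [Algebra ℂ S] (φ : R →ₐ[ℂ] S) (a : I → ℂ) :
    φ (wt P a) = wt (fun i => φ (P i)) a := by
  unfold wt
  rw [map_sum]
  exact sum_congr rfl fun i _ => map_smul _ _ _

end Pool.Agent.NH88.CM
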