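import Pool.Agent.NH88.CM.GCore
import Pool.Agent.NH88.CM.Rgd
import Pool.Agent.NH88.CM.Wt
import Pool.Agent.H977R3.CM.Aut

set_option autoImplicit false
set_option linter.unusedSectionVars false
set_option linter.unusedVariables false

/-!
# Abelian varieties with rigid derived algebra and a centre given by a number field
-/

open Module Function TensorProduct Matrix

noncomputable section

namespace Pool.Agent.NH88.CM.G

open Pool.Agent.Y102 Pool.Agent.W516.DR Pool.Agent.H204R3.GP Pool.Agent.W516.KC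
  Pool.Agent.H204R3.SP Pool.Agent.TH119.MX Pool.Agent.R917.OM Pool.Agent.Y102.AbVar
  Pool.Agent.R917.EC Pool.Agent.R917.DT

open Pool.Agent.R918 (eqv matE_eqv)

open Pool.Agent.NH88.CM (Rgd Dsj)

section tern

variable {E : Type} [Field E] [NumberField E] {c : E ≃+* E}

/-- Abelian fields. -/
theorem tern_of_abelian [IsGalois ℚ E] (h : ∀ s t : E ≃ₐ[ℚ] E, s * t = t * s) : Tern E c := by
  classical
  intro V _ hstab hne
  obtain ⟨s₀⟩ : Nonempty (E →+* ℂ) := by
    rw [← Fintype.card_pos_iff, NumberField.Embeddings.card]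
    exact Module.finrank_pos
  let ι : (E ≃ₐ[ℚ] E) → (E →+* ℂ) := fun t => s₀.comp (t : E →+* E)
  have hinj : Function.Injective ι := by
    intro t t' htt
    refine AlgEquiv.ext fun x => s₀.injective ?_
    exact congrArg (fun u : E →+* ℂ => u x) htt
  have hbij : Function.Bijective ι := by
    refine (Fintype.bijective_iff_injective_and_card ι).2 ⟨hinj, ?_⟩
    rw [NumberField.Embeddings.card, ← IsGalois.card_aut_eq_finrank, Nat.card_eq_fintype_card]
  let e : (E ≃ₐ[ℚ] E) ≃ (E →+* ℂ) := Equiv.ofBijective ι hbij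
  let _ : CommGroup (E ≃ₐ[ℚ] E) := { (inferInstance : Group (E ≃ₐ[ℚ] E)) with mul_comm := h }
  obtain ⟨f, ⟨f₁, hf₁, rfl⟩, hf0, hval⟩ := exists_sign (G := (E ≃ₐ[ℚ] E))
    (V.map (LinearMap.funLeft ℚ ℚ e)) (by
      rintro _ ⟨f, hf, rfl⟩ t
      obtain ⟨τ, hτ⟩ := Pool.Agent.H977R3.CM.exists_aut s₀ ((t⁻¹ : E ≃ₐ[ℚ] E) : E ≃+* E)
      refine ⟨_, hstab f hf τ, ?_⟩
      funext x
      change f ((τ : ℂ →+* ℂ).comp (s₀.comp (x : E →+* E))) =
        f (s₀.comp ((t⁻¹ * x : E ≃ₐ[ℚ] E) : E →+* E))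
      congr 1
      refine RingHom.ext fun y => ?_
      exact hτ (x y)) (by
      intro h0
      refine hne ?_
      rw [eq_bot_iff]
      intro f hf
      have h1 : LinearMap.funLeft ℚ ℚ e f ∈ V.map (LinearMap.funLeft ℚ ℚ e) := ⟨f, hf, rfl⟩
      rw [h0, Submodule.mem_bot] at h1
      rw [Submodule.mem_bot]
      funext s
      obtain ⟨t, rfl⟩ := e.surjective s
      exact congrFun h1 t)
  refine ⟨f₁, hf₁, fun h0 => hf0 (by rw [h0, map_zero]), fun s => ?_⟩
  obtain ⟨t, rfl⟩ := e.surjective s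
  exact hval t

/-- Fields for which the space of the odd functions is irreducible. -/
theorem tern_of_irreducible (hc : ∀ s : E →+* ℂ, br c s ≠ s) (hcc : ∀ x, c (c x) = x)
    (h : ∀ V : Submodule ℚ ((E →+* ℂ) → ℚ), (∀ f ∈ V, ∀ s, f (br c s) = -f s) →
      (∀ f ∈ V, ∀ τ : ℂ ≃+* ℂ, (fun s => f ((τ : ℂ →+* ℂ).comp s)) ∈ V) → V ≠ ⊥ →
      ∀ f : (E →+* ℂ) → ℚ, (∀ s, f (br c s) = -f s) → f ∈ V) : Tern E c := by
  classical
  intro V h1 h2 h3
  obtain ⟨s₀⟩ : Nonempty (E →+* ℂ) := by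
    rw [← Fintype.card_pos_iff, NumberField.Embeddings.card]
    exact Module.finrank_pos
  have hbb : ∀ s : E →+* ℂ, br c (br c s) = s := fun s => RingHom.ext fun x => by
    change s (c (c x)) = s x
    rw [hcc]
  refine ⟨fun s => if s = s₀ then 1 else if s = br c s₀ then -1 else 0, h V h1 h2 h3 _ fun s => ?_,
    fun h0 => ?_, fun s => ?_⟩
  · by_cases h4 : s = s₀
    · subst h4
      beta_reduce
      rw [if_neg (hc s), if_pos rfl, if_pos rfl]
    · by_cases h5 : s = br c s₀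
      · subst h5
        rw [hbb, if_pos rfl, if_neg h4, if_pos rfl, neg_neg]
      · beta_reduce
        rw [if_neg h4, if_neg h5, if_neg (fun h6 => h5 (by rw [← h6, hbb])),
          if_neg (fun h6 => h4 (by rw [← hbb s, h6, hbb])), neg_zero]
  · have h4 := congrFun h0 s₀
    beta_reduce at h4
    rw [if_pos rfl] at h4
    exact one_ne_zero h4
  · beta_reduce
    split_ifs
    · exact Or.inr (Or.inl rfl)
    · exact Or.inr (Or.inr rfl)
    · exact Or.inl rfl

end tern

/-- The weights of a function on the embeddings. -/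
def ws {S : Type} (y : S → ℂ) : Finset S → ℂ := fun Φ => ∑ s ∈ Φ, y s

theorem ws_add {S : Type} (y y' : S → ℂ) (Φ : Finset S) : ws (y + y') Φ = ws y Φ + ws y' Φ :=
  Finset.sum_add_distrib

theorem ws_smul {S : Type} (z : ℂ) (y : S → ℂ) (Φ : Finset S) : ws (z • y) Φ = z * ws y Φ :=
  (Finset.mul_sum _ _ _).symm

variable {g : ℕ} {A : AbVar g} {E : Type} [Field E] [NumberField E]
  {c : E ≃+* E} {lam : Module.End ℚ A.H1 →ₗ[ℚ] E}
  {v : Finset (E →+* ℂ) → (Fin (2 * g) → ℂ)}

/-- The Lie algebra of the Hodge group modulo its derived algebra is the space of the odd elements of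
the field `E`, and its characters given by the CM types occur in the homology. -/
structure CenD (A : AbVar g) (c : E ≃+* E) (lam : Module.End ℚ A.H1 →ₗ[ℚ] E)
    (v : Finset (E →+* ℂ) → (Fin (2 * g) → ℂ)) : Prop where
  tern : Tern E c
  inv : ∀ x, c (c x) = x
  odd : ∀ X ∈ A.NA, c (lam X) = -lam X
  surj : ∀ x, c x = -x → ∃ X ∈ A.NA, lam X = x
  ker : ∀ X ∈ A.NA, lam X = 0 → X ∈ der A.NA
  nz : ∀ Φ, IsType (br c) Φ → v Φ ≠ 0
  eig : ∀ Φ, IsType (br c) Φ → ∀ X ∈ A.NA, toC X *ᵥ v Φ = ws (cj E (lam X)) Φ • v Φ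

theorem smul_inj_vec {n : ℕ} {v : Fin n → ℂ} (hv : v ≠ 0) {a b : ℂ} (h : a • v = b • v) : a = b := by
  have h1 : (a - b) • v = 0 := by rw [sub_smul, h, sub_self]
  exact sub_eq_zero.1 ((smul_eq_zero.1 h1).resolve_right hv)

theorem aeval_vec {n : ℕ} {M : Matrix (Fin n) (Fin n) ℂ} {v : Fin n → ℂ} {z : ℂ}
    (h : M *ᵥ v = z • v) (Q : Polynomial ℂ) : Polynomial.aeval M Q *ᵥ v = Q.eval z • v := by
  induction Q using Polynomial.induction_on with
  | C b =>
    rw [Polynomial.aeval_C, Polynomial.eval_C, Algebra.algebraMap_eq_smul_one, Matrix.smul_mulVec,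
      Matrix.one_mulVec]
  | add p q hp hq => rw [map_add, Matrix.add_mulVec, hp, hq, Polynomial.eval_add, add_smul]
  | monomial n b ih =>
    rw [pow_succ, ← mul_assoc, map_mul, Polynomial.aeval_X, ← Matrix.mulVec_mulVec, h,
      Matrix.mulVec_smul, ih, smul_smul]
    congr 1
    simp only [Polynomial.eval_mul, Polynomial.eval_X]
    ring

variable (h : CenD A c lam v)
include h

/-- Characters which agree on a full subalgebra are equal. -/
theorem CenD.same {𝔥 : Submodule ℚ (Module.End ℚ A.H1)} (hF : A.Full 𝔥)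
    {Φ Ψ : Finset (E →+* ℂ)} (hΦ : IsType (br c) Φ) (hΨ : IsType (br c) Ψ)
    (hw : ∀ x ∈ 𝔥.map lam, ws (cj E x) Φ = ws (cj E x) Ψ) {x : E} (hx : c x = -x) :
    ws (cj E x) Φ = ws (cj E x) Ψ := by
  have hbc : ∀ (X : Module.End ℚ A.H1) (u : Fin (2 * g) → ℂ),
      (X.baseChange ℂ : Module.End ℂ (ℂ ⊗[ℚ] A.H1)) (eqv (2 * g) u) =
        eqv (2 * g) (toC X *ᵥ u) := by
    intro X u
    rw [← matE_toC]
    exact matE_eqv (2 * g) (toC X) u
  obtain ⟨X, hX, rfl⟩ := h.surj x hx
  have h1 := hF.cx_adjoin _ (bc_mem hX)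
  have key : ∀ T ∈ Algebra.adjoin ℂ (cx 𝔥 : Set (Module.End ℂ (ℂ ⊗[ℚ] A.H1))),
      ∃ z : ℂ, T (eqv (2 * g) (v Φ)) = z • eqv (2 * g) (v Φ) ∧
        T (eqv (2 * g) (v Ψ)) = z • eqv (2 * g) (v Ψ) := by
    intro T hT
    induction hT using Algebra.adjoin_induction with
    | mem T hT =>
      have hT' : T ∈ cx 𝔥 := hT
      induction hT' using Submodule.span_induction with
      | mem T hT' =>
        obtain ⟨Y, hY, rfl⟩ := hT'
        refine ⟨ws (cj E (lam Y)) Φ, ?_, ?_⟩
        · change (Y.baseChange ℂ : Module.End ℂ (ℂ ⊗[ℚ] A.H1)) _ = _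
          rw [hbc, h.eig Φ hΦ Y (hF.le hY), map_smul]
        · change (Y.baseChange ℂ : Module.End ℂ (ℂ ⊗[ℚ] A.H1)) _ = _
          rw [hbc, h.eig Ψ hΨ Y (hF.le hY), map_smul, hw _ ⟨Y, hY, rfl⟩]
      | zero =>
        exact ⟨0, by rw [LinearMap.zero_apply, zero_smul], by rw [LinearMap.zero_apply, zero_smul]⟩
      | add a b ha' hb' ha hb =>
        obtain ⟨z, e1, e2⟩ := ha ha'
        obtain ⟨z', e1', e2'⟩ := hb hb'
        exact ⟨z + z', by rw [LinearMap.add_apply, e1, e1', add_smul],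
          by rw [LinearMap.add_apply, e2, e2', add_smul]⟩
      | smul z a ha' ha =>
        obtain ⟨z', e1, e2⟩ := ha ha'
        exact ⟨z * z', by rw [LinearMap.smul_apply, e1, smul_smul],
          by rw [LinearMap.smul_apply, e2, smul_smul]⟩
    | algebraMap z =>
      refine ⟨z, ?_, ?_⟩
      · rw [Module.algebraMap_end_apply]
      · rw [Module.algebraMap_end_apply]
    | add a b _ _ ha hb =>
      obtain ⟨z, e1, e2⟩ := ha
      obtain ⟨z', e1', e2'⟩ := hb
      exact ⟨z + z', by rw [LinearMap.add_apply, e1, e1', add_smul],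
        by rw [LinearMap.add_apply, e2, e2', add_smul]⟩
    | mul a b _ _ ha hb =>
      obtain ⟨z, e1, e2⟩ := ha
      obtain ⟨z', e1', e2'⟩ := hb
      exact ⟨z' * z, by rw [Module.End.mul_apply, e1', map_smul, e1, smul_smul],
        by rw [Module.End.mul_apply, e2', map_smul, e2, smul_smul]⟩
  obtain ⟨z, e1, e2⟩ := key _ h1
  have e3 : ∀ {Φ : Finset (E →+* ℂ)}, IsType (br c) Φ →
      (X.baseChange ℂ : Module.End ℂ (ℂ ⊗[ℚ] A.H1)) (eqv (2 * g) (v Φ)) =
        z • eqv (2 * g) (v Φ) → ws (cj E (lam X)) Φ = z := by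
    intro Φ hΦ e
    rw [hbc, h.eig Φ hΦ X hX, ← map_smul] at e
    exact smul_inj_vec (h.nz Φ hΦ) ((eqv (2 * g)).injective e)
  rw [e3 hΦ e1, e3 hΨ e2]

/-- A full subalgebra which is closed under replicas and contains the derived algebra is
everything. -/
theorem CenD.le_of_der {𝔥 : Submodule ℚ (Module.End ℚ A.H1)} (hF : A.Full 𝔥) (hRC : RC 𝔥)
    (hder : der A.NA ≤ 𝔥) : A.NA ≤ 𝔥 := by
  classical
  have hU : ∀ x ∈ 𝔥.map lam, c x = -x := by
    rintro _ ⟨X, hX, rfl⟩
    exact h.odd X (hF.le hX)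
  have hU' : ∀ x ∈ 𝔥.map lam, ∀ s, cj E x (br c s) = -cj E x s := fun x hx s =>
    odd_cj (hU x hx) s
  suffices key : ∀ x : E, c x = -x → x ∈ 𝔥.map lam by
    intro X hX
    obtain ⟨Z, hZ, hZX⟩ := key (lam X) (h.odd X hX)
    have h1 : X - Z ∈ der A.NA := h.ker _ (A.NA.sub_mem hX (hF.le hZ)) (by
      rw [map_sub, hZX, sub_self])
    have h2 := 𝔥.add_mem (hder h1) hZ
    rwa [sub_add_cancel] at h2
  by_cases hc : ∀ x, c x = x
  · intro x hx
    rw [hc] at hx
    have h1 : x = 0 := by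
      have h2 : (2 : E) * x = 0 := by
        rw [two_mul]
        nth_rewrite 2 [hx]
        exact add_neg_cancel x
      exact (mul_eq_zero.1 h2).resolve_left two_ne_zero
    rw [h1]
    exact Submodule.zero_mem _
  have hne : ∀ s : E →+* ℂ, br c s ≠ s := by
    intro s h0
    refine hc fun x => s.injective ?_
    exact congrArg (fun u : E →+* ℂ => u x) h0
  have hbb : ∀ s : E →+* ℂ, br c (br c s) = s := fun s => RingHom.ext fun x => by
    change s (c (c x)) = s x
    rw [h.inv]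
  -- there are no relations
  have hrel : rel (br c) (cj E) (𝔥.map lam) = ⊥ := by
    by_contra hcon
    obtain ⟨f, hf, hf0, hval⟩ := h.tern (rel (br c) (cj E) (𝔥.map lam))
      (fun f hf => hf.1) (fun f hf τ => rel_aut hf τ) hcon
    refine hf0 ?_
    obtain ⟨Φ, Ψ, hΦ, hΨ, h1⟩ := exists_types hne hbb hf.1 hval
    refine eq_zero_of_odd h.inv hf.1 fun x hx => ?_
    rw [← h1]
    refine sub_eq_zero.2 (h.same hF hΦ hΨ (fun y hy => ?_) hx)
    have h2 := h1 (cj E y)
    rw [hf.2 y hy] at h2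
    exact sub_eq_zero.1 h2
  -- the span of the subalgebra
  have hsp : ∀ T ∈ Submodule.span ℂ {Y | ∃ Z ∈ 𝔥, Y = toC Z}, ∃ y ∈ ospan (cj E) (𝔥.map lam),
      ∀ Φ, IsType (br c) Φ → T *ᵥ v Φ = ws y Φ • v Φ := by
    intro T hT
    induction hT using Submodule.span_induction with
    | mem T hT =>
      obtain ⟨Z, hZ, rfl⟩ := hT
      exact ⟨cj E (lam Z), Submodule.subset_span ⟨lam Z, ⟨Z, hZ, rfl⟩, rfl⟩,
        fun Φ hΦ => h.eig Φ hΦ Z (hF.le hZ)⟩
    | zero =>
      refine ⟨0, Submodule.zero_mem _, fun Φ _ => ?_⟩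
      have h2 : ws (0 : (E →+* ℂ) → ℂ) Φ = 0 := Finset.sum_eq_zero fun s _ => rfl
      rw [h2, zero_smul, Matrix.zero_mulVec]
    | add a b _ _ ha hb =>
      obtain ⟨y, hy, e1⟩ := ha
      obtain ⟨y', hy', e2⟩ := hb
      refine ⟨y + y', Submodule.add_mem _ hy hy', fun Φ hΦ => ?_⟩
      rw [Matrix.add_mulVec, e1 Φ hΦ, e2 Φ hΦ, ws_add, add_smul]
    | smul z a _ ha =>
      obtain ⟨y, hy, e1⟩ := ha
      refine ⟨z • y, Submodule.smul_mem _ z hy, fun Φ hΦ => ?_⟩
      rw [Matrix.smul_mulVec, e1 Φ hΦ, ws_smul, smul_smul]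
  -- additive maps
  have hσ : ∀ x ∈ 𝔥.map lam, ∀ σ : ℂ →+ ℂ,
      (fun s => σ (cj E x s)) ∈ ospan (cj E) (𝔥.map lam) := by
    rintro _ ⟨X, hX, rfl⟩ σ
    obtain ⟨Z, hZ, e, he, h2, h3⟩ := hF.dec hX
    have hZc : ∀ Y ∈ A.NA, Z * Y = Y * Z := fun Y hY =>
      (hF.comm Z (fun W hW => (h3 W hW).symm) Y hY).symm
    -- the derived algebra is in the kernel
    have hlam : cj E (lam X) = cj E (lam Z) := by
      have he' : ∀ Φ, IsType (br c) Φ → ws (cj E (lam e)) Φ = 0 := by
        intro Φ hΦ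
        have h4 : toC e *ᵥ v Φ = 0 := by
          clear h2
          unfold der at he
          induction he using Submodule.span_induction with
          | mem e he =>
            obtain ⟨P, hP, Q, hQ, rfl⟩ := he
            have h5 : toC (P * Q - Q * P) = toC P * toC Q - toC Q * toC P := by
              rw [← Pool.Agent.R917.toC_mul, ← Pool.Agent.R917.toC_mul]
              ext i j
              simp [toC]
            rw [h5, Matrix.sub_mulVec, ← Matrix.mulVec_mulVec, ← Matrix.mulVec_mulVec,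
              h.eig Φ hΦ Q (hF.le hQ), h.eig Φ hΦ P (hF.le hP), Matrix.mulVec_smul,
              Matrix.mulVec_smul, h.eig Φ hΦ Q (hF.le hQ), h.eig Φ hΦ P (hF.le hP), smul_smul,
              smul_smul, mul_comm (ws (cj E (lam Q)) Φ) (ws (cj E (lam P)) Φ), sub_self]
          | zero =>
            have h5 : toC (0 : Module.End ℚ A.H1) = 0 := by
              ext i j
              simp [toC]
            rw [h5, Matrix.zero_mulVec]
          | add a b _ _ ha hb =>
            have h5 : toC (a + b) = toC a + toC b := by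
              ext i j
              simp [toC]
            rw [h5, Matrix.add_mulVec, ha, hb, add_zero]
          | smul q a _ ha =>
            have h5 : toC (q • a) = (q : ℂ) • toC a := by
              ext i j
              simp [toC]
            rw [h5, Matrix.smul_mulVec, ha, smul_zero]
        rw [h.eig Φ hΦ e (hF.le (hF.der_le he))] at h4
        exact (smul_eq_zero.1 h4).resolve_right (h.nz Φ hΦ)
      have h5 : cj E (lam e) = 0 := by
        refine eq_zero_of_types hne hbb (fun s => ?_) he'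
        exact odd_cj (h.odd e (hF.le (hF.der_le he))) s
      rw [h2, map_add, map_add, h5, add_zero]
    rw [hlam]
    obtain ⟨s, _, hs⟩ := imag_roots (hF.le hZ) hZc
    have hs' : Polynomial.aeval (toC Z) (∏ a ∈ s, (Polynomial.X - Polynomial.C a)) = 0 := by
      rw [rm_eq, aeval_transpose] at hs
      exact Matrix.transpose_eq_zero.1 hs
    obtain ⟨Q, hQ⟩ : ∃ Q : Polynomial ℂ, ∀ a ∈ s, Q.eval a = σ a :=
      ⟨Lagrange.interpolate s id (fun x => σ x), fun x hx =>
        Lagrange.eval_interpolate_at_node (fun x => σ x) (Function.injective_id.injOn) hx⟩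
    have h1 := rc_iff.1 hRC Z hZ s σ Q hs' hQ
    obtain ⟨y, hy, h4⟩ := hsp _ h1
    have hmem : ∀ Φ, IsType (br c) Φ → ws (cj E (lam Z)) Φ ∈ s := by
      intro Φ hΦ
      have h5 := aeval_vec (h.eig Φ hΦ Z (hF.le hZ)) (∏ a ∈ s, (Polynomial.X - Polynomial.C a))
      rw [hs', Matrix.zero_mulVec] at h5
      have h6 := (smul_eq_zero.1 h5.symm).resolve_right (h.nz Φ hΦ)
      rw [Polynomial.eval_prod, Finset.prod_eq_zero_iff] at h6
      obtain ⟨a, ha, h7⟩ := h6
      rw [Polynomial.eval_sub, Polynomial.eval_X, Polynomial.eval_C, sub_eq_zero] at h7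
      rw [h7]
      exact ha
    have h3 : (fun s => σ (cj E (lam Z) s)) - y = 0 := by
      refine eq_zero_of_types hne hbb (fun s => ?_) fun Φ hΦ => ?_
      · rw [Pi.sub_apply, Pi.sub_apply, odd_of_mem_ospan hU' hy,
          odd_cj (h.odd Z (hF.le hZ)), map_neg]
        ring
      · have h6 := h4 Φ hΦ
        rw [aeval_vec (h.eig Φ hΦ Z (hF.le hZ)) Q] at h6
        have h7 := smul_inj_vec (h.nz Φ hΦ) h6
        rw [hQ _ (hmem Φ hΦ)] at h7
        have h5 : ∑ s ∈ Φ, ((fun s => σ (cj E (lam Z) s)) - y) s =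
            σ (ws (cj E (lam Z)) Φ) - ws y Φ := by
          unfold ws
          rw [map_sum, ← Finset.sum_sub_distrib]
          rfl
        rw [h5, h7, sub_self]
    rw [sub_eq_zero.1 h3]
    exact hy
  intro x hx
  exact mem_of_ospan (mem_ospan hbb hU' hrel hσ (y := cj E x) (fun s => odd_cj hx s))

/-- **Theorem.** Abelian varieties with rigid derived algebra and abelian centre are determined. -/
theorem CenD.det (hR : Rgd A) : Det A := fun 𝔥 hF hRC => h.le_of_der hF hRC (hR 𝔥 hF)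

end Pool.Agent.NH88.CM.G

end
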