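import Pool.Agent.NH88.CM.GCen

set_option autoImplicit false
set_option linter.unusedSectionVars false
set_option linter.unusedVariables false

/-!
# Abelian varieties with all CM types of an abelian field, and products
-/

open Module Function TensorProduct Matrix

noncomputable section

namespace Pool.Agent.NH88.CM.G

open Pool.Agent.Y102 Pool.Agent.W516.DR Pool.Agent.H204R3.GP Pool.Agent.W516.KC
  Pool.Agent.H204R3.SP Pool.Agent.TH119.MX Pool.Agent.R917.OM Pool.Agent.Y102.AbVar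
  Pool.Agent.R917.EC Pool.Agent.R917.DT Pool.Agent.NH25.PK

open Pool.Agent.NH88.CM (Rgd Dsj Prj wt wt_zero im_RC_of prd_symm der_map der_mono rgd_prd
  der_le_der_of_rgd)

section comm

variable {g : ℕ} {D : AbVar g}

theorem der_eq_bot (hc : ∀ X ∈ D.NA, ∀ Y ∈ D.NA, X * Y = Y * X) {X : Module.End ℚ D.H1}
    (hX : X ∈ der D.NA) : X = 0 := by
  unfold der at hX
  induction hX using Submodule.span_induction with
  | mem X hX =>
    obtain ⟨P, hP, Q, hQ, rfl⟩ := hX
    rw [hc P hP Q hQ, sub_self]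
  | zero => rfl
  | add a b _ _ ha hb => rw [ha, hb, add_zero]
  | smul z a _ ha => rw [ha, smul_zero]

theorem rgd_comm (hc : ∀ X ∈ D.NA, ∀ Y ∈ D.NA, X * Y = Y * X) : Rgd D := by
  intro 𝔥 _ X hX
  rw [der_eq_bot hc hX]
  exact 𝔥.zero_mem

end comm

section allTypes

variable {g : ℕ} {D : AbVar g} {E : Type} [Field E] [NumberField E]
  {c : E ≃+* E} {P : Finset (E →+* ℂ) → Matrix (Fin (2 * g)) (Fin (2 * g)) ℂ}
  {W : E →ₗ[ℚ] Module.End ℚ D.H1}

/-- The Lie algebra is the space of the odd elements of the field `E`, which act on the image of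
`P Φ` by the sum of the conjugates given by `Φ`. -/
structure AllT (D : AbVar g) (c : E ≃+* E)
    (P : Finset (E →+* ℂ) → Matrix (Fin (2 * g)) (Fin (2 * g)) ℂ)
    (W : E →ₗ[ℚ] Module.End ℚ D.H1) : Prop where
  tern : Tern E c
  inv : ∀ x, c (c x) = x
  prj : Prj P
  nz : ∀ Φ, P Φ ≠ 0 ↔ IsType (br c) Φ
  lie : ∀ X, X ∈ D.NA ↔ ∃ x, c x = -x ∧ X = W x
  act : ∀ x, c x = -x → toC (W x) = wt P (ws (cj E x))

variable (h : AllT D c P W)
include h

theorem AllT.commute : ∀ X ∈ D.NA, ∀ Y ∈ D.NA, X * Y = Y * X := by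
  intro X hX Y hY
  obtain ⟨x, hx, rfl⟩ := (h.lie X).1 hX
  obtain ⟨y, hy, rfl⟩ := (h.lie Y).1 hY
  apply rm_inj'
  rw [rm_mul, rm_mul, rm_eq, rm_eq, ← Matrix.transpose_mul, ← Matrix.transpose_mul, h.act x hx,
    h.act y hy]
  congr 1
  have h1 : ∀ a b : Finset (E →+* ℂ) → ℂ, wt P a * wt P b = wt P fun i => a i * b i := by
    intro a b
    have h2 : wt P a * wt P b = ∑ i, wt P a * (b i • P i) := by
      rw [← Finset.mul_sum]
      rfl
    rw [h2]
    refine Finset.sum_congr rfl fun i _ => ?_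
    rw [mul_smul_comm, h.prj.wt_mul, smul_smul, mul_comm (b i) (a i)]
  rw [h1, h1]
  congr 1
  funext i
  exact mul_comm _ _

/-- An element of the field is determined by its action. -/
theorem AllT.inj (hc : ¬ ∀ x, c x = x) {x : E} (hx : c x = -x) (h0 : W x = 0) : x = 0 := by
  have h1 := h.act x hx
  have h2 : toC (0 : Module.End ℚ D.H1) = 0 := by
    ext i j
    simp [toC]
  rw [h0, h2, ← wt_zero (P := P)] at h1
  have hne : ∀ s : E →+* ℂ, br c s ≠ s := by
    intro s h0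
    refine hc fun x => s.injective ?_
    exact congrArg (fun u : E →+* ℂ => u x) h0
  have hbb : ∀ s : E →+* ℂ, br c (br c s) = s := fun s => RingHom.ext fun x => by
    change s (c (c x)) = s x
    rw [h.inv]
  have h3 : cj E x = 0 := by
    refine eq_zero_of_types hne hbb (fun s => odd_cj hx s) fun Φ hΦ => ?_
    exact (h.prj.wt_inj h1 ((h.nz Φ).2 hΦ)).symm
  obtain ⟨s₀⟩ : Nonempty (E →+* ℂ) := by
    rw [← Fintype.card_pos_iff, NumberField.Embeddings.card]
    exact Module.finrank_pos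
  exact s₀.injective ((congrFun h3 s₀).trans (map_zero s₀).symm)

theorem AllT.cen : ∃ (lam : Module.End ℚ D.H1 →ₗ[ℚ] E)
    (v : Finset (E →+* ℂ) → (Fin (2 * g) → ℂ)), CenD D c lam v := by
  classical
  -- the vectors
  have hv : ∀ Φ, ∃ v : Fin (2 * g) → ℂ, IsType (br c) Φ → v ≠ 0 ∧ P Φ *ᵥ v = v := by
    intro Φ
    by_cases hΦ : IsType (br c) Φ
    · have h1 := (h.nz Φ).2 hΦ
      obtain ⟨u, hu⟩ : ∃ u, P Φ *ᵥ u ≠ 0 := by
        by_contra hcon
        push Not at hcon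
        refine h1 (Matrix.ext fun i j => ?_)
        have h2 := congrFun (hcon (Pi.single j 1)) i
        rwa [Matrix.mulVec_single_one] at h2
      exact ⟨P Φ *ᵥ u, fun _ => ⟨hu, by rw [Matrix.mulVec_mulVec, h.prj.idem]⟩⟩
    · exact ⟨0, fun h1 => absurd h1 hΦ⟩
  choose v hv using hv
  have key : ∀ lam : Module.End ℚ D.H1 →ₗ[ℚ] E, (∀ x, c x = -x → lam (W x) = x) →
      CenD D c lam v := by
    intro lam hlam
    refine ⟨h.tern, h.inv, fun X hX => ?_, fun x hx => ?_, fun X hX h0 => ?_, fun Φ hΦ =>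
      (hv Φ hΦ).1, fun Φ hΦ X hX => ?_⟩
    · obtain ⟨x, hx, rfl⟩ := (h.lie X).1 hX
      rw [hlam x hx, hx]
    · exact ⟨W x, (h.lie _).2 ⟨x, hx, rfl⟩, hlam x hx⟩
    · obtain ⟨x, hx, rfl⟩ := (h.lie X).1 hX
      rw [hlam x hx] at h0
      rw [h0, map_zero]
      exact Submodule.zero_mem _
    · obtain ⟨x, hx, rfl⟩ := (h.lie X).1 hX
      rw [hlam x hx, h.act x hx]
      conv_lhs => rw [← (hv Φ hΦ).2]
      rw [Matrix.mulVec_mulVec, h.prj.wt_mul, Matrix.smul_mulVec, (hv Φ hΦ).2]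
  -- the linear map
  by_cases hc : ∀ x, c x = x
  · refine ⟨0, v, key 0 fun x hx => ?_⟩
    rw [hc] at hx
    have h2 : (2 : E) * x = 0 := by
      rw [two_mul]
      nth_rewrite 2 [hx]
      exact add_neg_cancel x
    rw [(mul_eq_zero.1 h2).resolve_left two_ne_zero, map_zero]
    rfl
  · let O : Submodule ℚ E :=
      { carrier := {x | c x = -x}
        zero_mem' := by
          change c 0 = -0
          rw [map_zero, neg_zero]
        add_mem' := by
          intro x y hx hy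
          change c (x + y) = -(x + y)
          rw [map_add, show c x = -x from hx, show c y = -y from hy, neg_add]
        smul_mem' := by
          intro q x hx
          change c (q • x) = -(q • x)
          have h1 : c (q • x) = q • c x := by
            rw [Algebra.smul_def, map_mul, Algebra.smul_def]
            congr 1
            rw [eq_ratCast, map_ratCast]
          rw [h1, show c x = -x from hx, smul_neg] }
    have hinj : Function.Injective (W.comp O.subtype) := by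
      rw [injective_iff_map_eq_zero]
      rintro ⟨x, hx⟩ h0
      exact Subtype.ext (h.inj hc hx h0)
    obtain ⟨μ, hμ⟩ := LinearMap.exists_leftInverse_of_injective _ (LinearMap.ker_eq_bot.2 hinj)
    refine ⟨O.subtype.comp μ, v, key _ fun x hx => ?_⟩
    have h1 := congrArg (fun T : O →ₗ[ℚ] O => T ⟨x, hx⟩) hμ
    exact congrArg Subtype.val h1

end allTypes

section product

variable {g g₁ g₂ : ℕ} {A : AbVar g} {B : AbVar g₁} {D : AbVar g₂}
  {f : B.H1 →ₗ[ℚ] A.H1} {p : A.H1 →ₗ[ℚ] B.H1} {f' : D.H1 →ₗ[ℚ] A.H1} {p' : A.H1 →ₗ[ℚ] D.H1}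

/-- The image in a commutative determined factor is everything. -/
theorem map_top (h : Prd A B D f p f' p') (hc : ∀ X ∈ D.NA, ∀ Y ∈ D.NA, X * Y = Y * X)
    (hD : Det D) {𝔥 : Submodule ℚ (Module.End ℚ A.H1)} (hF : A.Full 𝔥) (hRC : RC 𝔥) :
    D.NA ≤ 𝔥.map (rs f' p') := by
  have him : 𝔥.map (rs f' p') = (𝔥 ⊓ A.CN).map (rs f' p') := by
    refine le_antisymm ?_ (Submodule.map_mono inf_le_left)
    rintro _ ⟨X, hX, rfl⟩
    obtain ⟨Z, hZ', e, he, h2, h3⟩ := hF.dec hX
    refine ⟨Z, ⟨hZ', hF.le hZ', fun Y hY => hF.comm Z (fun W hW => (h3 W hW).symm) Y hY⟩, ?_⟩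
    have h4 : rs f' p' e = 0 := by
      have h5 : rs f' p' e ∈ der (𝔥.map (rs f' p')) := by
        rw [← der_map h.c hF.le]
        exact ⟨e, he, rfl⟩
      exact der_eq_bot hc (der_mono (im_full h.c hF).le h5)
    rw [h2, map_add, h4, add_zero]
  have h1 := im_full h.c hF
  refine hD _ h1 ?_
  rw [him]
  refine im_RC_of (prd_symm h) (inf_le_left.trans hF.le) (RC_inf_CN hRC) fun X hX => ?_
  obtain ⟨s, _, hs⟩ := imag_roots hX.2.1 fun Y hY => (hX.2.2 Y hY).symm
  refine ⟨s, ?_⟩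
  rw [h.b.aeval_rs hX.2.1, hs, Matrix.mul_zero, Matrix.zero_mul]

theorem toC_zero' {a : ℕ} {A : AbVar a} : toC (0 : Module.End ℚ A.H1) = 0 := by
  ext i j
  simp [toC]

/-- **Products** of a rigid abelian variety and an abelian variety with complex multiplication. -/
theorem cen_prod {E : Type} [Field E] [NumberField E]
    {c : E ≃+* E} {lam : Module.End ℚ D.H1 →ₗ[ℚ] E}
    {v : Finset (E →+* ℂ) → (Fin (2 * g₂) → ℂ)} (h : Prd A B D f p f' p')
    (hc : ∀ X ∈ D.NA, ∀ Y ∈ D.NA, X * Y = Y * X) (hB : Rgd B) (hD : CenD D c lam v)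
    (hZ : ∀ X ∈ A.NA, rs f' p' X = 0 → rs f p X ∈ der B.NA) :
    Rgd A ∧ CenD A c (lam ∘ₗ rs f' p') (fun Φ => (rq f')ᵀ *ᵥ v Φ) := by
  have hdet : Det D := hD.det (rgd_comm hc)
  have hR : Rgd A := by
    refine rgd_prd h hB (rgd_comm hc) fun 𝔰 h1 _ h3 _ X hX => ?_
    obtain ⟨Y, hY⟩ := h3 X hX
    have h5 : Y = 0 := der_eq_bot hc (h1 _ hY).2
    rwa [h5] at hY
  refine ⟨hR, hD.tern, hD.inv, fun X hX => hD.odd _ (h.c.rs_NA hX), fun x hx => ?_,
    fun X hX h0 => ?_, fun Φ hΦ h0' => ?_, fun Φ hΦ X hX => ?_⟩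
  · obtain ⟨Y, hY, rfl⟩ := hD.surj x hx
    obtain ⟨X, hX, rfl⟩ := map_top h hc hdet Pool.Agent.R917.DT.full_NA NA_RC hY
    exact ⟨X, hX, rfl⟩
  · have h1 : rs f' p' X = 0 := der_eq_bot hc (hD.ker _ (h.c.rs_NA hX) h0)
    have h2 := hZ X hX h1
    have h3 := der_le_der_of_rgd hB (im_full h.b (Pool.Agent.R917.DT.full_NA (A := A))) h2
    rw [← der_map h.b (le_refl _)] at h3
    obtain ⟨W, hW, hWX⟩ := h3
    have hWA := (Pool.Agent.R917.DT.full_NA (A := A)).der_le hW
    have h4 : rs f' p' W = 0 := by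
      refine der_eq_bot hc (X := rs f' p' W) ?_
      have h5 : rs f' p' W ∈ der (A.NA.map (rs f' p')) := by
        rw [← der_map h.c (le_refl _)]
        exact ⟨W, hW, rfl⟩
      exact der_mono (im_full h.c (Pool.Agent.R917.DT.full_NA (A := A))).le h5
    have h5 : X = W := by
      rw [prd_dec h hX, prd_dec h hWA, h1, h4, hWX]
    rw [h5]
    exact hW
  · refine hD.nz Φ hΦ ?_
    have h0 : (rq f')ᵀ *ᵥ v Φ = 0 := h0'
    have h1 : (rq p')ᵀ *ᵥ ((rq f')ᵀ *ᵥ v Φ) = v Φ := by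
      rw [Matrix.mulVec_mulVec, ← Matrix.transpose_mul, h.c.rq_one, Matrix.transpose_one,
        Matrix.one_mulVec]
    rw [← h1, h0, Matrix.mulVec_zero]
  · have h1 := congrArg Matrix.transpose (h.c.rm_inter hX)
    rw [Matrix.transpose_mul, Matrix.transpose_mul, rm_eq, rm_eq, Matrix.transpose_transpose,
      Matrix.transpose_transpose] at h1
    change toC X *ᵥ ((rq f')ᵀ *ᵥ v Φ) = _
    rw [Matrix.mulVec_mulVec, ← h1, ← Matrix.mulVec_mulVec, hD.eig Φ hΦ _ (h.c.rs_NA hX),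
      Matrix.mulVec_smul]
    rfl

end product

end Pool.Agent.NH88.CM.G

end
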