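import Pool.Agent.NH88.CM.Comb

set_option autoImplicit false
set_option linter.unusedSectionVars false
set_option linter.unusedVariables false

/-!
# Types in a finite set with an involution, and relations
-/

noncomputable section

namespace Pool.Agent.NH88.CM.G

open Finset

variable {S : Type} [Fintype S] {bar : S → S}

/-- `Φ` contains exactly one of the elements `s`, `bar s`. -/
def IsType (bar : S → S) (Φ : Finset S) : Prop := ∀ s, s ∈ Φ ↔ bar s ∉ Φ

/-- Partial types can be extended. -/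
theorem exists_type (h1 : ∀ s, bar s ≠ s) (h2 : ∀ s, bar (bar s) = s) {Φ₀ : Finset S}
    (h : ∀ s ∈ Φ₀, bar s ∉ Φ₀) : ∃ Φ, Φ₀ ⊆ Φ ∧ IsType bar Φ := by
  classical
  obtain ⟨Φ, hΦ, hmax⟩ := Finset.exists_max_image
    ((univ : Finset (Finset S)).filter (fun Φ => Φ₀ ⊆ Φ ∧ ∀ s ∈ Φ, bar s ∉ Φ)) (fun Φ => Φ.card)
    ⟨Φ₀, by
      rw [mem_filter]
      exact ⟨mem_univ _, Subset.refl _, h⟩⟩
  rw [mem_filter] at hΦ
  obtain ⟨_, h3, h4⟩ := hΦ
  refine ⟨Φ, h3, fun s => ⟨fun hs => h4 s hs, fun hs => ?_⟩⟩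
  by_contra hs'
  have h5 := hmax (insert s Φ) (by
    rw [mem_filter]
    refine ⟨mem_univ _, h3.trans (subset_insert _ _), fun t ht => ?_⟩
    rw [mem_insert] at ht ⊢
    push Not
    rcases ht with rfl | ht
    · exact ⟨h1 t, hs⟩
    · refine ⟨fun h6 => hs ?_, h4 t ht⟩
      rw [← h6, h2]
      exact ht)
  rw [card_insert_of_notMem hs'] at h5
  omega

/-- Functions with the values `0, 1, -1` are differences of types. -/
theorem exists_types (h1 : ∀ s, bar s ≠ s) (h2 : ∀ s, bar (bar s) = s) {f : S → ℚ}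
    (hodd : ∀ s, f (bar s) = -f s) (hval : ∀ s, f s = 0 ∨ f s = 1 ∨ f s = -1) :
    ∃ Φ Ψ, IsType bar Φ ∧ IsType bar Ψ ∧
      ∀ y : S → ℂ, ∑ s ∈ Φ, y s - ∑ s ∈ Ψ, y s = ∑ s, (f s : ℂ) * y s := by
  classical
  obtain ⟨Φ, hΦ₀, hΦ⟩ := exists_type h1 h2 (Φ₀ := univ.filter fun s => f s = 1) (by
    intro s hs
    rw [mem_filter] at hs ⊢
    push Not
    intro _
    rw [hodd, hs.2]
    norm_num)
  have e1 : ∀ s, f s = 1 → s ∈ Φ := fun s hs => hΦ₀ (mem_filter.2 ⟨mem_univ _, hs⟩)
  have e2 : ∀ s, f s = -1 → s ∉ Φ := fun s hs => by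
    have h3 := (hΦ (bar s)).1 (e1 _ (by rw [hodd, hs, neg_neg]))
    rwa [h2] at h3
  refine ⟨Φ, (Φ.filter fun s => f s ≠ 1) ∪ univ.filter (fun s => f s = -1), hΦ, ?_, ?_⟩
  · intro s
    simp only [mem_union, mem_filter, mem_univ, true_and]
    rw [hodd]
    rcases hval s with h3 | h3 | h3
    · rw [h3]
      have h4 := hΦ s
      norm_num
      exact h4
    · rw [h3]
      norm_num
    · rw [h3]
      have h4 := e2 s h3
      norm_num
  · intro y
    have key : ∀ s, ((if s ∈ Φ then y s else 0) -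
        if s ∈ (Φ.filter fun s => f s ≠ 1) ∪ univ.filter (fun s => f s = -1) then y s else 0) =
        (f s : ℂ) * y s := by
      intro s
      simp only [mem_union, mem_filter, mem_univ, true_and]
      rcases hval s with h3 | h3 | h3
      · rw [h3]
        by_cases h4 : s ∈ Φ
        · simp [h4]
        · simp [h4]
      · rw [h3]
        have h4 := e1 s h3
        norm_num [h4]
      · rw [h3]
        have h4 := e2 s h3
        norm_num [h4]
    rw [← sum_congr rfl fun s _ => key s, sum_sub_distrib, sum_ite_mem, sum_ite_mem, univ_inter,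
      univ_inter]

/-- The sums over the types determine an odd function. -/
theorem eq_zero_of_types (h1 : ∀ s, bar s ≠ s) (h2 : ∀ s, bar (bar s) = s) {y : S → ℂ}
    (hodd : ∀ s, y (bar s) = -y s) (h : ∀ Φ, IsType bar Φ → ∑ s ∈ Φ, y s = 0) : y = 0 := by
  classical
  funext s
  have hne : bar s ≠ s := h1 s
  obtain ⟨Φ, Ψ, hΦ, hΨ, h3⟩ := exists_types h1 h2
    (f := fun t => if t = s then 1 else if t = bar s then -1 else 0) (by
      intro t
      by_cases h4 : t = s
      · subst h4
        rw [if_neg hne, if_pos rfl, if_pos rfl]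
      · by_cases h5 : t = bar s
        · subst h5
          rw [h2, if_pos rfl, if_neg h4, if_pos rfl, neg_neg]
        · rw [if_neg h4, if_neg h5, if_neg (fun h6 => h5 (by rw [← h6, h2])),
            if_neg (fun h6 => h4 (by rw [← h2 t, h6, h2])), neg_zero]) (by
      intro t
      split_ifs
      · exact Or.inr (Or.inl rfl)
      · exact Or.inr (Or.inr rfl)
      · exact Or.inl rfl)
  have h4 := h3 y
  rw [h Φ hΦ, h Ψ hΨ, sub_zero] at h4
  have h5 : ∀ t, ((if t = s then (1 : ℚ) else if t = bar s then -1 else 0 : ℚ) : ℂ) * y t =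
      (if t = s then y s else 0) + (if t = bar s then y s else 0) := by
    intro t
    by_cases h6 : t = s
    · subst h6
      rw [if_pos rfl, if_pos rfl, if_neg (fun h7 => hne h7.symm)]
      simp
    · by_cases h7 : t = bar s
      · subst h7
        rw [if_neg h6, if_pos rfl, if_neg h6, if_pos rfl, hodd]
        simp
      · rw [if_neg h6, if_neg h7, if_neg h6, if_neg h7]
        simp
  rw [sum_congr rfl fun t _ => h5 t, sum_add_distrib, sum_ite_eq' univ s, sum_ite_eq' univ (bar s),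
    if_pos (mem_univ _), if_pos (mem_univ _)] at h4
  have h6 : y s = 0 := by
    have h7 : (2 : ℂ) * y s = 0 := by rw [two_mul]; exact h4.symm
    exact (mul_eq_zero.1 h7).resolve_left two_ne_zero
  exact h6

section relations

variable {W : Type} [AddCommGroup W] [Module ℚ W] (bar) (ev : W →ₗ[ℚ] (S → ℂ))
  (U : Submodule ℚ W)

/-- The relations. -/
def rel : Submodule ℚ (S → ℚ) where
  carrier := {f | (∀ s, f (bar s) = -f s) ∧ ∀ x ∈ U, ∑ s, (f s : ℂ) * ev x s = 0}
  zero_mem' := ⟨fun s => by simp, fun x _ => by simp⟩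
  add_mem' := fun {f f'} hf hf' => ⟨fun s => by
      rw [Pi.add_apply, Pi.add_apply, hf.1, hf'.1, neg_add], fun x hx => by
      have h1 : ∑ s, (((f + f') s : ℚ) : ℂ) * ev x s =
          ∑ s, (f s : ℂ) * ev x s + ∑ s, (f' s : ℂ) * ev x s := by
        rw [← sum_add_distrib]
        refine sum_congr rfl fun s _ => ?_
        rw [Pi.add_apply, Rat.cast_add, add_mul]
      rw [h1, hf.2 x hx, hf'.2 x hx, add_zero]⟩
  smul_mem' := fun a f hf => ⟨fun s => by
      rw [Pi.smul_apply, Pi.smul_apply, hf.1, smul_neg], fun x hx => by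
      have h1 : ∑ s, (((a • f) s : ℚ) : ℂ) * ev x s = (a : ℂ) * ∑ s, (f s : ℂ) * ev x s := by
        rw [mul_sum]
        refine sum_congr rfl fun s _ => ?_
        rw [Pi.smul_apply, smul_eq_mul, Rat.cast_mul, mul_assoc]
      rw [h1, hf.2 x hx, mul_zero]⟩

variable {bar ev U}

theorem exists_functional {z : ℂ} (hz : z ≠ 0) : ∃ τ : ℂ →ₗ[ℚ] ℚ, τ z ≠ 0 := by
  by_contra hcon
  push Not at hcon
  exact hz ((Module.forall_dual_apply_eq_zero_iff ℚ z).1 hcon)

/-- Complex relations which are preserved by all additive maps. -/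
theorem complex_rel (h : rel bar ev U = ⊥) {b : S → ℂ} (hb : ∀ s, b (bar s) = -b s)
    (hrel : ∀ x ∈ U, ∀ σ : ℂ →+ ℂ, ∑ s, b s * σ (ev x s) = 0) : b = 0 := by
  funext s₀
  by_contra hne
  obtain ⟨τ, hτ⟩ := exists_functional (z := b s₀) hne
  have h1 : (fun s => τ (b s)) ∈ rel bar ev U := by
    refine ⟨fun s => ?_, fun x hx => ?_⟩
    · change τ (b (bar s)) = -τ (b s)
      rw [hb, map_neg]
    · change ∑ s, ((τ (b s) : ℚ) : ℂ) * ev x s = 0
      rw [← Module.forall_dual_apply_eq_zero_iff ℚ]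
      intro μ
      have h2 := hrel x hx ((algebraMap ℚ ℂ).toAddMonoidHom.comp μ.toAddMonoidHom)
      have h3 := congrArg τ h2
      rw [map_sum, map_zero] at h3
      rw [map_sum, ← h3]
      refine sum_congr rfl fun s _ => ?_
      have e1 : ((τ (b s) : ℚ) : ℂ) * ev x s = τ (b s) • ev x s := by
        rw [Algebra.smul_def]
        rfl
      have e2 : b s * ((algebraMap ℚ ℂ).toAddMonoidHom.comp μ.toAddMonoidHom) (ev x s) =
          μ (ev x s) • b s := by
        rw [Algebra.smul_def, mul_comm]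
        rfl
      rw [e1, e2, map_smul, map_smul, smul_eq_mul, smul_eq_mul, mul_comm]
  rw [h, Submodule.mem_bot] at h1
  exact hτ (congrFun h1 s₀)

variable (ev) in
/-- The complex span of the values. -/
def ospan (U : Submodule ℚ W) : Submodule ℂ (S → ℂ) :=
  Submodule.span ℂ {y | ∃ x ∈ U, y = ev x}

/-- If there are no relations, and the span is stable under additive maps, then it contains all odd
functions. -/
theorem mem_ospan (hinv : ∀ s, bar (bar s) = s)
    (hU : ∀ x ∈ U, ∀ s, ev x (bar s) = -ev x s) (h : rel bar ev U = ⊥)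
    (hσ : ∀ x ∈ U, ∀ σ : ℂ →+ ℂ, (fun s => σ (ev x s)) ∈ ospan ev U)
    {y : S → ℂ} (hy : ∀ s, y (bar s) = -y s) : y ∈ ospan ev U := by
  classical
  by_contra hcon
  obtain ⟨ℓ, h1, h2⟩ := Submodule.exists_le_ker_of_notMem hcon
  let a : S → ℂ := fun s => ℓ (Pi.single s 1)
  have hℓ : ∀ z, ℓ z = ∑ s, a s * z s := by
    intro z
    have e1 : z = ∑ s, z s • (Pi.single s 1 : S → ℂ) := by
      funext t
      rw [Finset.sum_apply]
      simp [Pi.single_apply]
    conv_lhs => rw [e1, map_sum]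
    refine sum_congr rfl fun s _ => ?_
    rw [map_smul, smul_eq_mul, mul_comm]
  let β : S ≃ S := ⟨bar, bar, hinv, hinv⟩
  have hodd : ∀ z : S → ℂ, (∀ s, z (bar s) = -z s) →
      ∑ s, (a s - a (bar s)) * z s = 2 * ℓ z := by
    intro z hz
    have e2 : ∑ s, a (bar s) * z s = -∑ s, a s * z s := by
      rw [← sum_neg_distrib]
      refine Fintype.sum_equiv β _ _ fun s => ?_
      change a (bar s) * z s = -(a (bar s) * z (bar s))
      rw [hz, mul_neg, neg_neg]
    rw [hℓ]
    calc ∑ s, (a s - a (bar s)) * z s = ∑ s, (a s * z s - a (bar s) * z s) :=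
          sum_congr rfl fun s _ => sub_mul _ _ _
      _ = ∑ s, a s * z s - ∑ s, a (bar s) * z s := sum_sub_distrib _ _
      _ = 2 * ∑ s, a s * z s := by rw [e2]; ring
  have hb := complex_rel (b := fun s => a s - a (bar s)) h (fun s => by
    rw [hinv]
    ring) (fun x hx σ => by
    have e3 := hodd (fun s => σ (ev x s)) (fun s => by
      rw [hU x hx, map_neg])
    change ∑ s, (a s - a (bar s)) * σ (ev x s) = 0
    change ∑ s, (a s - a (bar s)) * σ (ev x s) = _ at e3
    rw [e3]
    have e4 : ℓ (fun s => σ (ev x s)) = 0 := h2 (hσ x hx σ)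
    rw [e4, mul_zero])
  have e5 := hodd y hy
  have e6 : ∀ s, a s - a (bar s) = 0 := fun s => congrFun hb s
  rw [sum_eq_zero fun s _ => by rw [e6, zero_mul]] at e5
  exact h1 ((mul_eq_zero.1 e5.symm).resolve_left two_ne_zero)

/-- The elements of the complex span are odd. -/
theorem odd_of_mem_ospan (hU : ∀ x ∈ U, ∀ s, ev x (bar s) = -ev x s) {y : S → ℂ}
    (hy : y ∈ ospan ev U) (s : S) : y (bar s) = -y s := by
  unfold ospan at hy
  induction hy using Submodule.span_induction with
  | mem y hy =>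
    obtain ⟨x, hx, rfl⟩ := hy
    exact hU x hx s
  | zero => simp
  | add y y' _ _ h h' =>
    rw [Pi.add_apply, Pi.add_apply, h, h', neg_add]
  | smul a y _ h =>
    rw [Pi.smul_apply, Pi.smul_apply, h, smul_neg]

end relations

/-! ### Number fields -/

section field

variable {E : Type} [Field E] [NumberField E] {c : E ≃+* E}

/-- The complex conjugate of an embedding. -/
def br (c : E ≃+* E) (s : E →+* ℂ) : E →+* ℂ := s.comp (c : E →+* E)

/-- The conjugates of an element. -/
def cj (E : Type) [Field E] [NumberField E] : E →ₗ[ℚ] ((E →+* ℂ) → ℂ) where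
  toFun x s := s x
  map_add' x y := by
    funext s
    exact map_add s x y
  map_smul' q x := by
    funext s
    change s (q • x) = q • s x
    rw [Algebra.smul_def, map_mul, Algebra.smul_def]
    congr 1
    rw [eq_ratCast, map_ratCast, eq_ratCast]

theorem cj_apply (x : E) (s : E →+* ℂ) : cj E x s = s x := rfl

/-- Independence of the conjugates. -/
theorem dedekind {f : (E →+* ℂ) → ℚ} (h : ∀ x : E, ∑ s, (f s : ℂ) * cj E x s = 0) : f = 0 := by
  classical
  have h1 := linearIndependent_monoidHom E ℂ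
  have h2 : LinearIndependent ℂ (fun s : (E →+* ℂ) => (fun x : E => s x)) := by
    let j : (E →+* ℂ) → (E →* ℂ) := fun s => (s : E →* ℂ)
    have hj : Function.Injective j := by
      intro s t hst
      refine RingHom.ext fun x => ?_
      exact congrArg (fun u : E →* ℂ => u x) hst
    exact h1.comp j hj
  funext s
  have h3 := Fintype.linearIndependent_iff.1 h2 (fun s => (f s : ℂ)) (by
    funext x
    rw [Finset.sum_apply]
    exact h x) s
  exact_mod_cast h3

theorem odd_cj {x : E} (hx : c x = -x) (s : E →+* ℂ) : cj E x (br c s) = -cj E x s := by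
  change s (c x) = -s x
  rw [hx, map_neg]

/-- Odd relations between the conjugates of the odd elements are trivial. -/
theorem eq_zero_of_odd (hcc : ∀ x, c (c x) = x) {f : (E →+* ℂ) → ℚ}
    (hf : ∀ s, f (br c s) = -f s)
    (h : ∀ x, c x = -x → ∑ s, (f s : ℂ) * cj E x s = 0) : f = 0 := by
  refine dedekind fun x => ?_
  have h1 := h (x - c x) (by
    rw [map_sub, hcc, neg_sub])
  have h2 : ∀ s, cj E (x - c x) s = cj E x s - cj E x (br c s) := by
    intro s
    exact map_sub s x (c x)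
  have hbb : ∀ s : E →+* ℂ, br c (br c s) = s := fun s => RingHom.ext fun x => by
    change s (c (c x)) = s x
    rw [hcc]
  let β : (E →+* ℂ) ≃ (E →+* ℂ) := ⟨br c, br c, hbb, hbb⟩
  have h3 : ∑ s, (f s : ℂ) * cj E x (br c s) = -∑ s, (f s : ℂ) * cj E x s := by
    rw [← sum_neg_distrib]
    refine Fintype.sum_equiv β _ _ fun s => ?_
    change (f s : ℂ) * cj E x (br c s) = -((f (br c s) : ℂ) * cj E x (br c s))
    rw [hf, Rat.cast_neg, neg_mul, neg_neg]
  have h4 : ∑ s, (f s : ℂ) * cj E (x - c x) s = 2 * ∑ s, (f s : ℂ) * cj E x s := by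
    calc ∑ s, (f s : ℂ) * cj E (x - c x) s
        = ∑ s, ((f s : ℂ) * cj E x s - (f s : ℂ) * cj E x (br c s)) :=
          sum_congr rfl fun s _ => by rw [h2, mul_sub]
      _ = ∑ s, (f s : ℂ) * cj E x s - ∑ s, (f s : ℂ) * cj E x (br c s) := sum_sub_distrib _ _
      _ = 2 * ∑ s, (f s : ℂ) * cj E x s := by rw [h3]; ring
  rw [h4] at h1
  exact (mul_eq_zero.1 h1).resolve_left two_ne_zero

/-- The space of the relations is stable under the automorphisms of `ℂ`. -/
theorem rel_aut {U : Submodule ℚ E} {f : (E →+* ℂ) → ℚ} (hf : f ∈ rel (br c) (cj E) U)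
    (τ : ℂ ≃+* ℂ) : (fun s => f ((τ : ℂ →+* ℂ).comp s)) ∈ rel (br c) (cj E) U := by
  refine ⟨fun s => hf.1 ((τ : ℂ →+* ℂ).comp s), fun x hx => ?_⟩
  have h1 := hf.2 x hx
  have h2 : ∑ s : E →+* ℂ, (f ((τ : ℂ →+* ℂ).comp s) : ℂ) * cj E x s =
      τ.symm (∑ s, (f s : ℂ) * cj E x s) := by
    rw [map_sum]
    let β : (E →+* ℂ) ≃ (E →+* ℂ) := ⟨fun s => (τ : ℂ →+* ℂ).comp s,
      fun s => (τ.symm : ℂ →+* ℂ).comp s, fun s => RingHom.ext fun x => τ.symm_apply_apply _,
      fun s => RingHom.ext fun x => τ.apply_symm_apply _⟩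
    refine Fintype.sum_equiv β _ _ fun s => ?_
    change (f ((τ : ℂ →+* ℂ).comp s) : ℂ) * s x =
      τ.symm ((f ((τ : ℂ →+* ℂ).comp s) : ℂ) * τ (s x))
    rw [map_mul, RingEquiv.symm_apply_apply, map_ratCast]
  rw [h2, h1, map_zero]

/-- An element of the field whose conjugates are in the complex span of a rational subspace is in
this subspace. -/
theorem mem_of_ospan {U : Submodule ℚ E} {x : E} (h : cj E x ∈ ospan (cj E) U) : x ∈ U := by
  by_contra hcon
  obtain ⟨ℓ, h1, h2⟩ := Submodule.exists_le_ker_of_notMem hcon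
  obtain ⟨b, hb⟩ : ∃ b : E, ∀ z, ℓ z = Algebra.trace ℚ E (b * z) := by
    refine ⟨((Algebra.traceForm ℚ E).toDual (traceForm_nondegenerate ℚ E)).symm ℓ, fun z => ?_⟩
    have h3 := LinearMap.BilinForm.apply_toDual_symm_apply (hB := traceForm_nondegenerate ℚ E) ℓ z
    rw [← h3]
    rfl
  have h3 : ∀ z, (ℓ z : ℂ) = ∑ s, cj E b s * cj E z s := by
    intro z
    have h4 := trace_eq_sum_embeddings (K := ℚ) (L := E) ℂ (x := b * z)
    rw [← hb z] at h4
    have h5 : (algebraMap ℚ ℂ) (ℓ z) = (ℓ z : ℂ) := rfl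
    rw [← h5, h4]
    let β : (E →ₐ[ℚ] ℂ) ≃ (E →+* ℂ) := ⟨fun s => (s : E →+* ℂ), fun s => s.toRatAlgHom,
      fun s => AlgHom.ext fun x => rfl, fun s => RingHom.ext fun x => rfl⟩
    refine Fintype.sum_equiv β _ _ fun s => ?_
    exact map_mul s b z
  have key : ∀ y ∈ ospan (cj E) U, ∑ s, cj E b s * y s = 0 := by
    intro y hy
    unfold ospan at hy
    induction hy using Submodule.span_induction with
    | mem y hy =>
      obtain ⟨u, hu, rfl⟩ := hy
      have h4 : ℓ u = 0 := h2 hu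
      rw [← h3, h4, Rat.cast_zero]
    | zero => simp
    | add a b' _ _ ha hb' =>
      simp only [Pi.add_apply, mul_add, Finset.sum_add_distrib, ha, hb', add_zero]
    | smul r a _ ha =>
      have h4 : ∑ s, cj E b s * (r • a) s = r * ∑ s, cj E b s * a s := by
        rw [Finset.mul_sum]
        refine Finset.sum_congr rfl fun s _ => ?_
        rw [Pi.smul_apply, smul_eq_mul]
        ring
      rw [h4, ha, mul_zero]
  have h4 := key _ h
  rw [← h3] at h4
  exact h1 (by exact_mod_cast h4)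

/-- Every nonzero Galois stable space of odd functions contains a nonzero function with the values
`0, 1, -1`. -/
def Tern (E : Type) [Field E] [NumberField E] (c : E ≃+* E) : Prop :=
  ∀ V : Submodule ℚ ((E →+* ℂ) → ℚ), (∀ f ∈ V, ∀ s, f (br c s) = -f s) →
    (∀ f ∈ V, ∀ τ : ℂ ≃+* ℂ, (fun s => f ((τ : ℂ →+* ℂ).comp s)) ∈ V) → V ≠ ⊥ →
      ∃ f ∈ V, f ≠ 0 ∧ ∀ s, f s = 0 ∨ f s = 1 ∨ f s = -1

end field

end Pool.Agent.NH88.CM.G
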