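import Pool.Agent.NH25.PK.Det

set_option autoImplicit false
set_option linter.unusedSectionVars false
set_option linter.unusedVariables false

/-!
# Products of an abelian variety with rigid derived algebra and of an abelian variety with complex
multiplication
-/

open Module Function TensorProduct Matrix

noncomputable section

namespace Pool.Agent.NH88.CM

open Pool.Agent.Y102 Pool.Agent.W516.DR Pool.Agent.H204R3.GP Pool.Agent.W516.KC
  Pool.Agent.H204R3.SP Pool.Agent.TH119.MX Pool.Agent.R917.OM Pool.Agent.Y102.AbVar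
  Pool.Agent.R917.EC Pool.Agent.R917.DT Pool.Agent.NH25.PK

variable {g g₁ g₂ : ℕ} {A : AbVar g} {B : AbVar g₁} {D : AbVar g₂}
  {f : B.H1 →ₗ[ℚ] A.H1} {p : A.H1 →ₗ[ℚ] B.H1} {f' : D.H1 →ₗ[ℚ] A.H1} {p' : A.H1 →ₗ[ℚ] D.H1}
  {𝔥 : Submodule ℚ (Module.End ℚ A.H1)}

theorem prd_symm (h : Prd A B D f p f' p') : Prd A D B f' p' f p :=
  ⟨h.c, h.b, fun w => by rw [add_comm]; exact h.sum w⟩

theorem rq_sum (h : Prd A B D f p f' p') : rq p * rq f + rq p' * rq f' = 1 := by
  have h1 : f.comp p + f'.comp p' = LinearMap.id := LinearMap.ext h.sum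
  have h2 : ∀ (a b : A.H1 →ₗ[ℚ] A.H1), rq (a := 2 * g) (b := 2 * g) (a + b) =
      rq (a := 2 * g) (b := 2 * g) a + rq (a := 2 * g) (b := 2 * g) b := by
    intro a b
    unfold rq
    rw [map_add]
    ext i j
    simp
  rw [← rq_comp, ← rq_comp, ← rq_id, ← h1]
  exact (h2 _ _).symm

/-- Polynomials in an element of the Lie algebra of a product. -/
theorem aeval_dec (h : Prd A B D f p f' p') {Y : Module.End ℚ A.H1} (hY : Y ∈ A.NA)
    (R : Polynomial ℂ) : Polynomial.aeval (rm Y) R =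
      rq p * Polynomial.aeval (rm (rs f p Y)) R * rq f +
        rq p' * Polynomial.aeval (rm (rs f' p' Y)) R * rq f' := by
  rw [Matrix.mul_assoc, Matrix.mul_assoc, aeval_inter (h.b.rm_inter hY) R,
    aeval_inter (h.c.rm_inter hY) R, ← Matrix.mul_assoc, ← Matrix.mul_assoc, ← Matrix.add_mul,
    rq_sum h, Matrix.one_mul]

theorem nodal_of_eq_zero {a b : ℕ} {M : Matrix (Fin a) (Fin a) ℂ} {s : Finset ℂ}
    (hM : Polynomial.aeval M (Lagrange.nodal s id) = 0) {R : Polynomial ℂ}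
    (hR : ∀ x ∈ s, R.eval x = 0) : Polynomial.aeval M R = 0 := by
  obtain ⟨T, rfl⟩ := nodal_dvd hR
  rw [map_mul, hM, zero_mul]

/-- The image in a factor is closed under replicas, if the elements of the image in the other factor
are diagonalizable. -/
theorem im_RC_of (h : Prd A B D f p f' p') (hle : 𝔥 ≤ A.NA) (hRC : RC 𝔥)
    (hd : ∀ X ∈ 𝔥, ∃ s : Finset ℂ,
      Polynomial.aeval (rm (rs f' p' X)) (Lagrange.nodal s id) = 0) : RC (𝔥.map (rs f p)) := by
  classical
  rintro _ ⟨Y, hY, rfl⟩ s hs σ Q hQ lam X' hX'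
  obtain ⟨s₂, hs₂⟩ := hd Y hY
  obtain ⟨s', hs'⟩ : ∃ s' : Finset ℂ, s' = s ∪ s₂ := ⟨_, rfl⟩
  obtain ⟨Q', hQ'⟩ : ∃ Q' : Polynomial ℂ, ∀ a ∈ s', Q'.eval a = σ a :=
    ⟨Lagrange.interpolate s' id (fun x => σ x), fun x hx =>
      Lagrange.eval_interpolate_at_node (fun x => σ x) (Function.injective_id.injOn) hx⟩
  have h1 : Polynomial.aeval (rm Y) (Lagrange.nodal s' id) = 0 := by
    rw [aeval_dec h (hle hY), nodal_of_eq_zero (a := 2 * g₁) (b := 0) hs, nodal_of_eq_zero
      (a := 2 * g₂) (b := 0) hs₂]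
    · rw [Matrix.mul_zero, Matrix.zero_mul, Matrix.mul_zero, Matrix.zero_mul, add_zero]
    · exact fun a ha => Lagrange.eval_nodal_at_node (v := id) (by
        rw [hs']
        exact Finset.mem_union_right _ ha)
    · exact fun a ha => Lagrange.eval_nodal_at_node (v := id) (by
        rw [hs']
        exact Finset.mem_union_left _ ha)
  have h2 := hRC Y hY s' h1 σ Q' hQ' lam _ (rm_cmpE lam Y Q')
  refine ⟨_, h2, ?_⟩
  apply rm_inj'
  have h3 : rm (rs f p (Pool.Agent.W516.DR.cmpE lam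
      (Polynomial.aeval (Y.baseChange ℂ : Module.End ℂ (ℂ ⊗[ℚ] A.H1)) Q'))) =
      rq f * rm (Pool.Agent.W516.DR.cmpE lam
        (Polynomial.aeval (Y.baseChange ℂ : Module.End ℂ (ℂ ⊗[ℚ] A.H1)) Q')) * rq p := Fac.rm_rs _
  rw [h3, rm_cmpE, ← rq_map_left, ← rq_map_right, ← h.b.aeval_rs (hle hY), hX']
  congr 1
  have h4 := nodal_of_eq_zero (a := 2 * g₁) (b := 0) hs (R := Q' - Q) (fun a ha => by
    rw [Polynomial.eval_sub, hQ a ha, hQ' a (by
      rw [hs']
      exact Finset.mem_union_left _ ha), sub_self])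
  rwa [map_sub, sub_eq_zero] at h4

/-- The bracket of two elements, in a product with an abelian variety with complex
multiplication. -/
theorem br_eq (h : Prd A B D f p f' p') (hc : ∀ X ∈ D.NA, ∀ Y ∈ D.NA, X * Y = Y * X)
    {X Y : Module.End ℚ A.H1} (hX : X ∈ A.NA) (hY : Y ∈ A.NA) :
    X * Y - Y * X = f.comp ((rs f p X * rs f p Y - rs f p Y * rs f p X).comp p) := by
  have h1 := prd_dec h (A.NA_bracket hX hY)
  rw [map_sub, h.b.rs_mul hY, h.b.rs_mul hX, map_sub, h.c.rs_mul hY, h.c.rs_mul hX,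
    hc _ (h.c.rs_NA hX) _ (h.c.rs_NA hY), sub_self] at h1
  rw [h1]
  refine LinearMap.ext fun w => ?_
  change f _ + f' 0 = f _
  rw [map_zero, add_zero]

/-- **Theorem.** Products are determined. -/
theorem det_prod (h : Prd A B D f p f' p') (hc : ∀ X ∈ D.NA, ∀ Y ∈ D.NA, X * Y = Y * X)
    (hD : Det D)
    (hB : ∀ 𝔨 : Submodule ℚ (Module.End ℚ B.H1), B.Full 𝔨 → RC 𝔨 → der B.NA ≤ 𝔨)
    (hZ : ∀ X ∈ A.NA, rs f' p' X = 0 → rs f p X ∈ der B.NA) : Det A := by
  intro 𝔥 hF hRC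
  have hdiag : ∀ X ∈ 𝔥, ∃ s : Finset ℂ,
      Polynomial.aeval (rm (rs f' p' X)) (Lagrange.nodal s id) = 0 := by
    intro X hX
    have h1 := h.c.rs_NA (hF.le hX)
    obtain ⟨s, _, hs⟩ := imag_roots h1 fun Y hY => hc _ h1 Y hY
    exact ⟨s, hs⟩
  have hk := hB _ (im_full h.b hF) (im_RC_of h hF.le hRC hdiag)
  -- the derived algebra of the first factor
  have key : ∀ W ∈ der B.NA, f.comp (W.comp p) ∈ 𝔥 := by
    intro W hW
    have h1 := (Pool.Agent.R917.DT.full_NA (A := B)).perfect hW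
    induction h1 using Submodule.span_induction with
    | mem W hW' =>
      obtain ⟨X, hX, Y, hY, rfl⟩ := hW'
      obtain ⟨X, hX', rfl⟩ := hk hX
      obtain ⟨Y, hY', rfl⟩ := hk hY
      rw [← br_eq h hc (hF.le hX') (hF.le hY')]
      exact hF.br X hX' Y hY'
    | zero =>
      rw [LinearMap.zero_comp, LinearMap.comp_zero]
      exact 𝔥.zero_mem
    | add a b ha' hb' ha hb =>
      have hle : Submodule.span ℚ {Z | ∃ X ∈ der B.NA, ∃ Y ∈ der B.NA, Z = X * Y - Y * X} ≤
          der B.NA := by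
        rw [Submodule.span_le]
        rintro _ ⟨X, hX, Y, hY, rfl⟩
        exact Submodule.subset_span ⟨X, (Pool.Agent.R917.DT.full_NA (A := B)).der_le hX, Y,
          (Pool.Agent.R917.DT.full_NA (A := B)).der_le hY, rfl⟩
      rw [LinearMap.add_comp, LinearMap.comp_add]
      exact 𝔥.add_mem (ha (hle ha')) (hb (hle hb'))
    | smul z a ha' ha =>
      have hle : Submodule.span ℚ {Z | ∃ X ∈ der B.NA, ∃ Y ∈ der B.NA, Z = X * Y - Y * X} ≤
          der B.NA := by
        rw [Submodule.span_le]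
        rintro _ ⟨X, hX, Y, hY, rfl⟩
        exact Submodule.subset_span ⟨X, (Pool.Agent.R917.DT.full_NA (A := B)).der_le hX, Y,
          (Pool.Agent.R917.DT.full_NA (A := B)).der_le hY, rfl⟩
      rw [LinearMap.smul_comp, LinearMap.comp_smul]
      exact 𝔥.smul_mem z (ha (hle ha'))
  -- the image in the second factor
  have him : 𝔥.map (rs f' p') = (𝔥 ⊓ A.CN).map (rs f' p') := by
    refine le_antisymm ?_ (Submodule.map_mono inf_le_left)
    rintro _ ⟨X, hX, rfl⟩
    obtain ⟨Z, hZ', e, he, h2, h3⟩ := hF.dec hX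
    refine ⟨Z, ⟨hZ', hF.le hZ', fun Y hY => hF.comm Z (fun W hW => (h3 W hW).symm) Y hY⟩, ?_⟩
    have h4 : rs f' p' e = 0 := by
      clear h2
      unfold der at he
      induction he using Submodule.span_induction with
      | mem e he =>
        obtain ⟨X, hX, Y, hY, rfl⟩ := he
        rw [map_sub, h.c.rs_mul (hF.le hY), h.c.rs_mul (hF.le hX),
          hc _ (h.c.rs_NA (hF.le hX)) _ (h.c.rs_NA (hF.le hY)), sub_self]
      | zero => rw [map_zero]
      | add a b _ _ ha hb => rw [map_add, ha, hb, add_zero]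
      | smul z a _ ha => rw [map_smul, ha, smul_zero]
    rw [h2, map_add, h4, add_zero]
  have hDle : D.NA ≤ 𝔥.map (rs f' p') := by
    have h1 := im_full h.c hF
    refine hD _ h1 ?_
    rw [him]
    refine im_RC_of (prd_symm h) (inf_le_left.trans hF.le) (RC_inf_CN hRC) fun X hX => ?_
    obtain ⟨s, _, hs⟩ := imag_roots hX.2.1 fun Y hY => (hX.2.2 Y hY).symm
    refine ⟨s, ?_⟩
    rw [h.b.aeval_rs hX.2.1, hs, Matrix.mul_zero, Matrix.zero_mul]
  intro X hX
  obtain ⟨Z, hZ', h1⟩ := hDle (h.c.rs_NA hX)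
  have h2 : X - Z ∈ A.NA := A.NA.sub_mem hX (hF.le hZ')
  have h3 : rs f' p' (X - Z) = 0 := by rw [map_sub, h1, sub_self]
  have h4 := prd_dec h h2
  rw [h3] at h4
  have h5 : X - Z = f.comp ((rs f p (X - Z)).comp p) := by
    rw [LinearMap.zero_comp, LinearMap.comp_zero, add_zero] at h4
    exact h4
  have h6 := key _ (hZ _ h2 h3)
  rw [← h5] at h6
  have h7 := 𝔥.add_mem h6 hZ'
  rwa [sub_add_cancel] at h7

end Pool.Agent.NH88.CM

end
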